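import Pool.Agent.Helper533.NHM.Poin
open MeasureTheory Filter Topology Set
open scoped ENNReal NNReal RealInnerProductSpace

namespace Pool.Agent.Helper533.Polar

variable {n : ℕ}

theorem wm_one : Stmt.wm (fun _ : Sp n => (1 : ℝ)) = volume := by
  unfold Stmt.wm
  simp

/-- Lebesgue measure is admissible -/
theorem adm_volume {p : ℝ} (hn : 1 ≤ n) (hp : 1 < p) :
    ∃ Cd θ Cs lam Cp : ℝ, Adm p (volume : Measure (Sp n)) Cd θ Cs lam Cp := by
  haveI : Nonempty (Fin n) := ⟨⟨0, by omega⟩⟩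
  haveI : Nontrivial (Sp n) := inferInstance
  have hw : Wt p (fun _ : Sp n => (1 : ℝ)) := by
    refine ⟨locallyIntegrable_const _, Eventually.of_forall fun _ => one_pos, ?_, ?_⟩
    · refine ⟨2 ^ n, fun x r hr => ?_⟩
      rw [wm_one, Measure.addHaar_ball volume x (by positivity : (0:ℝ) ≤ 2 * r),
        Measure.addHaar_ball volume x hr.le, ← mul_assoc, ← ENNReal.ofReal_mul (by positivity)]
      apply le_of_eq
      congr 2
      simp [mul_pow]
    · obtain ⟨C, hC, h⟩ := poincare_volume (n := n) hn hp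
      refine ⟨1, C, le_rfl, fun x r hr φ hφ => ?_⟩
      rw [wm_one, one_mul]
      exact h x r hr φ hφ.smooth
  haveI : IsFiniteMeasureOnCompacts (Stmt.wm (fun _ : Sp n => (1 : ℝ))) := by
    rw [wm_one]; infer_instance
  obtain ⟨Cd, θ, Cs, lam, Cp, h⟩ := adm_of hn hp hw
  rw [wm_one] at h
  exact ⟨Cd, θ, Cs, lam, Cp, h⟩

end Pool.Agent.Helper533.Polar
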