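import Pool.Agent.Helper80.NHM.Base
import Pool.Agent.Helper533.NHM.Moll
open MeasureTheory Filter Topology Set
open scoped ENNReal NNReal RealInnerProductSpace

namespace Pool.Agent.Helper533.NHM

open Pool.Agent.Helper533 Pool.Agent.Helper80.NHM

variable {n : ℕ}

theorem isTest_iff {U : Set (Sp n)} {φ : Sp n → ℝ} : IsTest U φ ↔ Polar.Cc U φ :=
  ⟨fun h => ⟨h.smooth, h.compact, h.support⟩, fun h => ⟨h.smooth, h.comp, h.supp⟩⟩

theorem ofReal_nat (n : ℕ) : ENNReal.ofReal (n : ℝ) = (n : ℝ≥0∞) := ENNReal.ofReal_natCast n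

/-- the local class and weak gradients -/
theorem lh_iff (hn : 2 ≤ n) {G : Set (Sp n)} (hG : IsOpen G) {u : Sp n → ℝ} {U : Sp n → Sp n} :
    Polar.LH (n : ℝ) volume G u U ↔ IsWeakGrad G u U := by
  have hp : (1 : ℝ) < n := by exact_mod_cast hn
  constructor
  · intro h
    refine ⟨fun K hK hKc => ?_, fun K hK hKc => ?_, fun φ hφ => Polar.LH.ibp hp hG h (isTest_iff.1 hφ)⟩
    · have := (Polar.LH.memLp_restrict hp h hG hKc hK).2
      rwa [ofReal_nat] at this
    · have := (Polar.LH.memLp_restrict hp h hG hKc hK).1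
      rwa [ofReal_nat] at this
  · intro h
    refine Polar.LH.of_ibp (by omega) hp hG (fun K hK hKc => ?_) (fun K hK hKc => ?_)
      (fun φ hφ => h.ibp φ (isTest_iff.2 hφ))
    · rw [ofReal_nat]; exact h.fun_loc K hK hKc
    · rw [ofReal_nat]; exact h.grad_loc K hK hKc

theorem isHarmonic_iff (hn : 2 ≤ n) {A : Sp n → Sp n → Sp n} {G : Set (Sp n)} (hG : IsOpen G)
    {u : Sp n → ℝ} : IsHarmonic A G u ↔ Harm A G u := by
  unfold IsHarmonic Harm
  refine and_congr_right fun _ => exists_congr fun H => ?_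
  rw [lh_iff hn hG]
  refine and_congr_right fun _ => forall_congr' fun φ => ?_
  rw [isTest_iff]

theorem aOp_of_isAdmissible (hn : 2 ≤ n) {A : Sp n → Sp n → Sp n} (h : IsAdmissible n A) :
    ∃ α β : ℝ, AOp n α β A := by
  obtain ⟨α, β, hα, hαβ, h1, h2⟩ := h.growth
  refine ⟨α, β, hα, hαβ, ?_, h.monotone⟩
  refine ⟨fun U hU => Polar.carath (fun ξ => (h.measurable ξ).aestronglyMeasurable)
    h.continuous hU, h.continuous, ?_, ?_, ?_, ?_⟩
  · filter_upwards [h1] with x hx ξ
    rw [Real.rpow_natCast]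
    exact hx ξ
  · filter_upwards [h2] with x hx ξ
    have : ((n : ℝ) - 1) = ((n - 1 : ℕ) : ℝ) := by
      rw [Nat.cast_sub (by omega)]; simp
    rw [this, Real.rpow_natCast]
    exact hx ξ
  · filter_upwards [h.monotone] with x hx ξ ζ
    rcases eq_or_ne ξ ζ with rfl | hne
    · simp
    · exact (hx ξ ζ hne).le
  · filter_upwards [h.homogeneous] with x hx t ξ ht
    have : ((n : ℝ) - 2) = ((n - 2 : ℕ) : ℝ) := by
      rw [Nat.cast_sub (by omega)]; simp
    rw [this, Real.rpow_natCast, hx t ξ, mul_comm]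

/-- a morphism in the sense of the statement is a morphism in the internal sense -/
theorem morph_of_isMorphism (hn : 2 ≤ n) {Astar A : Sp n → Sp n → Sp n} {G : Set (Sp n)}
    (hG : IsOpen G) {f : Sp n → Sp n} (h : IsMorphism Astar A G f) : Morph Astar A G f := by
  refine ⟨h.1, fun G' hG' u hu => ?_⟩
  have hopen : IsOpen (G ∩ f ⁻¹' G') := h.1.isOpen_inter_preimage hG hG'
  exact (isHarmonic_iff hn hopen).1 (h.2 G' hG' u ((isHarmonic_iff hn hG').2 hu))

end Pool.Agent.Helper533.NHM
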