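import Pool.Agent.Helper533.Deny.Final
open MeasureTheory Filter Topology Set
open scoped ENNReal NNReal RealInnerProductSpace

/-!
Definitions for the target potentials of MP_fecf7d_an (`p = n`, Lebesgue measure).
-/

namespace Pool.Agent.Helper533.Polar

variable {n : ℕ}

/-- normalised (flux one) potential with pole ball `closedBall a t` in `D`; the mass sits in
`ball a (2 * t)` -/
structure NPot (A : Sp n → Sp n → Sp n) (D : Set (Sp n)) (a : Sp n) (t : ℝ) (ω : Sp n → ℝ)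
    (W : Sp n → Sp n) (M : ℝ) : Prop where
  cont : Continuous ω
  h0 : H0 (n : ℝ) volume D ω W
  bd : ∀ x, 0 ≤ ω x ∧ ω x ≤ M
  inner : ∀ x ∈ Metric.closedBall a t, ω x = M
  out : ∀ x, x ∉ D → ω x = 0
  flux_nn : ∀ (T : Sp n → ℝ) (TT : Sp n → Sp n), H0 (n : ℝ) volume D T TT →
    (∀ᵐ x ∂(volume : Measure (Sp n)), 0 ≤ T x) → 0 ≤ ∫ x, ⟪A x (W x), TT x⟫
  flux_le : ∀ (T : Sp n → ℝ) (TT : Sp n → Sp n) (k : ℝ), H0 (n : ℝ) volume D T TT →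
    (∀ᵐ x ∂(volume : Measure (Sp n)), 0 ≤ T x ∧ T x ≤ k) → ∫ x, ⟪A x (W x), TT x⟫ ≤ k
  flux_eq : ∀ (T : Sp n → ℝ) (TT : Sp n → Sp n) (k : ℝ), H0 (n : ℝ) volume D T TT →
    (∀ᵐ x ∂(volume : Measure (Sp n)), x ∈ Metric.ball a (2 * t) → T x = k) →
    ∫ x, ⟪A x (W x), TT x⟫ = k
  maxp : ∀ ρ c : ℝ, 2 * t ≤ ρ → Metric.closedBall a ρ ⊆ D → (∀ x ∈ Metric.sphere a ρ, ω x ≤ c) →
    ∀ x, ρ ≤ dist x a → ω x ≤ c
  minp : ∀ ρ c : ℝ, 0 < ρ → Metric.closedBall a ρ ⊆ D → (∀ x ∈ Metric.sphere a ρ, c ≤ ω x) →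
    ∀ x, dist x a ≤ ρ → c ≤ ω x

/-- `X` bounds `sup_{|x-a| ≥ R} ω - inf_{|z-a| ≤ 2R} ω` -/
def Xb (ω : Sp n → ℝ) (a : Sp n) (R X : ℝ) : Prop :=
  ∀ x z : Sp n, R ≤ dist x a → dist z a ≤ 2 * R → ω x ≤ ω z + X

end Pool.Agent.Helper533.Polar
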