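import Pool.Agent.Helper533.NHM.Defs
open MeasureTheory Filter Topology Set
open scoped ENNReal NNReal RealInnerProductSpace

namespace Pool.Agent.Helper533.Polar

section


section PQ
variable {n : ℕ} {p α β : ℝ} {A : Sp n → Sp n → Sp n}


/-- glueing local classes -/
theorem LH.union {μ : Measure (Sp n)} [IsFiniteMeasureOnCompacts μ] (hp : 1 < p)
    {G₁ G₂ : Set (Sp n)} (h₁ : IsOpen G₁) (h₂ : IsOpen G₂) {u : Sp n → ℝ} {U : Sp n → Sp n}
    (h : LH p μ G₁ u U) (h' : LH p μ G₂ u U) : LH p μ (G₁ ∪ G₂) u U := by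
  intro η hη
  have hK : IsCompact (tsupport η \ G₂) := IsCompact.diff hη.comp h₂
  have hKG : tsupport η \ G₂ ⊆ G₁ := by
    rintro x ⟨hx, hx2⟩
    rcases hη.supp hx with h3 | h3
    · exact h3
    · exact absurd h3 hx2
  obtain ⟨χ, hχ, -, W, hW, hKW, hWG, hχ1⟩ := exists_cutoff hK h₁ hKG
  have ha : Cc G₁ (fun x => η x * χ x) := (Cc.mul hη hχ).mono inter_subset_right
  have hbs : ContDiff ℝ (⊤ : ℕ∞) (fun x => 1 - χ x) := contDiff_const.sub hχ.smooth
  have hb0 : Cc (G₁ ∪ G₂) (fun x => η x * (1 - χ x)) := hη.mul_smooth hbs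
  have hb : Cc G₂ (fun x => η x * (1 - χ x)) := by
    refine ⟨hb0.smooth, hb0.comp, ?_⟩
    intro x hx
    have h3 : x ∈ tsupport η := closure_mono (Function.support_mul_subset_left _ _) hx
    have h4 : x ∈ Wᶜ := by
      refine closure_minimal ?_ hW.isClosed_compl hx
      intro y hy hyW
      apply hy
      show η y * (1 - χ y) = 0
      rw [hχ1 y hyW]
      ring
    by_contra hx2
    exact h4 (hKW ⟨h3, hx2⟩)
  have e1 := (h _ ha).mono (subset_union_left : G₁ ⊆ G₁ ∪ G₂)
  have e2 := (h' _ hb).mono (subset_union_right : G₂ ⊆ G₁ ∪ G₂)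
  refine (H0.add hp.le e1 e2).congr (Eventually.of_forall fun x => ?_)
    (Eventually.of_forall fun x => ?_)
  · show η x * χ x * u x + η x * (1 - χ x) * u x = η x * u x
    ring
  · have h5 : gradient (fun y => η y * χ y + η y * (1 - χ y)) x =
        gradient (fun y => η y * χ y) x + gradient (fun y => η y * (1 - χ y)) x :=
      grad_add (ha.diff x) (hb.diff x)
    have h6 : (fun y => η y * χ y + η y * (1 - χ y)) = η := by
      funext y
      ring
    rw [h6] at h5
    show (η x * χ x) • U x + u x • gradient (fun y => η y * χ y) x +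
      ((η x * (1 - χ x)) • U x + u x • gradient (fun y => η y * (1 - χ y)) x) =
      η x • U x + u x • gradient η x
    rw [h5]
    module

end PQ


end

section


section PQ
variable {n : ℕ} {p α β : ℝ} {A : Sp n → Sp n → Sp n}


/-- smooth truncations of a function which is harmonic below its maximum are supersolutions -/
theorem trunc_sup (hn : 2 ≤ n) (hα : 0 < α) (hβ : 0 < β)
    (hA : Op (n : ℝ) α β (volume : Measure (Sp n)) A) {G : Set (Sp n)} (hG : IsOpen G)
    {v : Sp n → ℝ} {V : Sp n → Sp n} {M : ℝ} (hv : ContinuousOn v G)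
    (hV : LH (n : ℝ) volume (G ∩ {x | v x < M}) v V)
    (he : ∀ φ, Cc (G ∩ {x | v x < M}) φ → ∫ x, ⟪A x (V x), gradient φ x⟫ = 0)
    {θ : ℝ → ℝ} (hθ : ContDiff ℝ (⊤ : ℕ∞) θ) (hθ1 : ∀ s, 0 ≤ deriv θ s ∧ deriv θ s ≤ 1)
    (hθ2 : Antitone (deriv θ)) {b : ℝ} (hb : b < M) (hθb : ∀ s, b ≤ s → deriv θ s = 0) :
    Sup A (n : ℝ) volume G (fun x => θ (v x))
      (fun x => deriv θ (v x) • (if v x < M then V x else 0)) := by
  have hp : (1 : ℝ) < n := by exact_mod_cast (by omega : 1 < n)
  have hGv : IsOpen (G ∩ {x | v x < M}) := hv.isOpen_inter_preimage hG isOpen_Iio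
  have hG' : IsOpen (G ∩ {x | b < v x}) := hv.isOpen_inter_preimage hG isOpen_Ioi
  have hθi := contDiff_infty_iff_deriv.mp hθ
  have hθd : Differentiable ℝ θ := hθi.1
  have hθc : ∀ s, b ≤ s → θ s = θ b := by
    intro s hs
    refine constant_of_has_deriv_right_zero (a := b) (b := s) hθd.continuous.continuousOn ?_ s
      ⟨hs, le_rfl⟩
    intro x hx
    have h1 := (hθd x).hasDerivAt.hasDerivWithinAt (s := Set.Ici x)
    rwa [hθb x hx.1] at h1
  refine ⟨?_, ?_⟩
  · have h1 : LH (n : ℝ) volume (G ∩ {x | v x < M}) (fun x => θ (v x))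
        (fun x => deriv θ (v x) • V x) :=
      LH.chain_lim hp hGv (βk := fun _ => θ) (fun _ => hθ) (C := 1)
        (fun _ s => by rw [abs_of_nonneg (hθ1 s).1]; exact (hθ1 s).2)
        (fun s => tendsto_const_nhds) (fun s => tendsto_const_nhds) hV
    have h2 : LH (n : ℝ) volume (G ∩ {x | v x < M}) (fun x => θ (v x))
        (fun x => deriv θ (v x) • (if v x < M then V x else 0)) := by
      refine LH.congr h1 (Eventually.of_forall fun x _ => rfl) (Eventually.of_forall fun x hx => ?_)
      have hx2 : v x < M := hx.2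
      rw [if_pos hx2]
    have h3 : LH (n : ℝ) volume (G ∩ {x | b < v x}) (fun x => θ (v x))
        (fun x => deriv θ (v x) • (if v x < M then V x else 0)) := by
      refine LH.congr (LH.const (θ b)) (Eventually.of_forall fun x hx => ?_)
        (Eventually.of_forall fun x hx => ?_)
      · have hx2 : b < v x := hx.2
        exact (hθc _ hx2.le).symm
      · have hx2 : b < v x := hx.2
        rw [hθb _ hx2.le, zero_smul]
    have h4 := LH.union hp hGv hG' h2 h3
    have h5 : G ∩ {x | v x < M} ∪ G ∩ {x | b < v x} = G := by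
      ext x
      constructor
      · rintro (h | h)
        · exact h.1
        · exact h.1
      · intro h
        rcases lt_or_ge (v x) M with h6 | h6
        · exact Or.inl ⟨h, h6⟩
        · exact Or.inr ⟨h, lt_of_lt_of_le hb h6⟩
    rwa [h5] at h4
  · intro φ hφ hφ0
    obtain ⟨m, rfl⟩ : ∃ m, n = m + 2 := ⟨n - 2, by omega⟩
    obtain ⟨g, hg⟩ : ∃ g : ℝ → ℝ, g = fun s => deriv θ s ^ (m + 1) := ⟨_, rfl⟩
    have hgc : ContDiff ℝ (⊤ : ℕ∞) g := by rw [hg]; exact hθi.2.pow _
    have hgd : Differentiable ℝ g := (contDiff_infty_iff_deriv.mp hgc).1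
    have hg0 : ∀ s, 0 ≤ g s := fun s => by rw [hg]; exact pow_nonneg (hθ1 s).1 _
    have hg1 : ∀ s, g s ≤ 1 := fun s => by rw [hg]; exact pow_le_one₀ (hθ1 s).1 (hθ1 s).2
    have hganti : Antitone g := by
      intro s t hst
      rw [hg]
      exact pow_le_pow_left₀ (hθ1 t).1 (hθ2 hst) _
    have hgb : ∀ s, b ≤ s → g s = 0 := fun s hs => by
      rw [hg]; beta_reduce; rw [hθb s hs, zero_pow (Nat.succ_ne_zero m)]
    have hgmin : ∀ s, g s = 0 → deriv g s = 0 := by
      intro s hs
      apply IsLocalMin.deriv_eq_zero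
      exact Eventually.of_forall fun t => by rw [hs]; exact hg0 t
    have hgneg : ∀ s, deriv g s ≤ 0 := fun s => hganti.deriv_nonpos
    have hφgrad : ∀ x, φ x = 0 → gradient φ x = 0 := by
      intro x hx
      have h1 : fderiv ℝ φ x = 0 := IsLocalMin.fderiv_eq_zero
        (Eventually.of_forall fun t => by rw [hx]; exact hφ0 t)
      unfold gradient
      rw [h1, map_zero]
    -- compact set
    obtain ⟨K, hKd⟩ : ∃ K, K = tsupport φ ∩ v ⁻¹' (Set.Iic b) := ⟨_, rfl⟩
    have hKc : IsClosed K := by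
      rw [hKd]
      exact (hv.mono hφ.supp).preimage_isClosed_of_isClosed (isClosed_tsupport φ) isClosed_Iic
    have hK : IsCompact K := hφ.comp.of_isClosed_subset hKc (by rw [hKd]; exact Set.inter_subset_left)
    obtain ⟨C0, hC0⟩ := IsCompact.exists_bound_of_continuousOn hφ.comp (hv.mono hφ.supp)
    obtain ⟨C, hCd⟩ : ∃ C, C = max C0 0 + 1 := ⟨_, rfl⟩
    have hC1 : C0 < C := by rw [hCd]; linarith [le_max_left C0 0]
    have hCpos : 0 ≤ C := by rw [hCd]; linarith [le_max_right C0 0]
    obtain ⟨O, hOd⟩ : ∃ O, O = G ∩ v ⁻¹' (Set.Iio M ∩ Set.Ioo (-C) C) := ⟨_, rfl⟩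
    have hO : IsOpen O := by
      rw [hOd]; exact hv.isOpen_inter_preimage hG (isOpen_Iio.inter isOpen_Ioo)
    have hOG : O ⊆ G ∩ {x | v x < M} := by
      rw [hOd]; rintro x ⟨h1, h2, _⟩; exact ⟨h1, h2⟩
    have hKO : K ⊆ O := by
      rw [hKd, hOd]
      rintro x ⟨h1, h2⟩
      have h3 : v x ≤ b := h2
      have h4 := abs_le.mp (hC0 x h1)
      refine ⟨hφ.supp h1, lt_of_le_of_lt h3 hb, ?_, ?_⟩
      · linarith [h4.1]
      · linarith [h4.2]
    have hOC : ∀ x ∈ O, |v x| ≤ C := by
      rw [hOd]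
      rintro x ⟨_, _, h1, h2⟩
      exact abs_le.mpr ⟨h1.le, h2.le⟩
    have hVO : LH ((m + 2 : ℕ) : ℝ) volume O v V := hV.mono hOG hp hO
    have hsup : Sup A ((m + 2 : ℕ) : ℝ) volume O v V :=
      ⟨hVO, fun ψ hψ _ => (he ψ (hψ.mono hOG)).ge⟩
    have hsub : Sub A ((m + 2 : ℕ) : ℝ) volume O v V :=
      ⟨hVO, fun ψ hψ _ => (he ψ (hψ.mono hOG)).le⟩
    -- chain rule for g
    obtain ⟨τ, C', hτ, hτ0, hτg, -, hτC⟩ := exists_clip_fun' C hCpos (fun s => g s - g 0) Set.univ
      isOpen_univ (Set.subset_univ _) (hgc.sub contDiff_const).contDiffOn (sub_self _)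
    have h1 : LH ((m + 2 : ℕ) : ℝ) volume O (fun x => τ (v x)) (fun x => deriv τ (v x) • V x) :=
      LH.chain_lim hp hO (βk := fun _ => τ) (fun _ => hτ) (C := C') (fun _ s => hτC s)
        (fun s => tendsto_const_nhds) (fun s => tendsto_const_nhds) hVO
    have h2 : LH ((m + 2 : ℕ) : ℝ) volume O (fun x => g (v x)) (fun x => deriv g (v x) • V x) := by
      refine LH.congr (LH.add hp h1 (LH.const (g 0))) (Eventually.of_forall fun x hx => ?_)
        (Eventually.of_forall fun x hx => ?_)
      · rw [(hτg _ (hOC x hx)).1]; ring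
      · have h3 : deriv (fun s => g s - g 0) (v x) = deriv g (v x) := by
          rw [deriv_sub_const]
        rw [(hτg _ (hOC x hx)).2, h3, add_zero]
    obtain ⟨Cφ, hCφ⟩ := hφ.comp.exists_bound_of_continuous hφ.cont
    have h3 := LH.mul hp hO h2 (LH.of_smooth hφ.smooth) (C := max 1 Cφ)
      (Eventually.of_forall fun x _ => by
        rw [abs_of_nonneg (hg0 _)]; exact (hg1 _).trans (le_max_left _ _))
      (Eventually.of_forall fun x _ => (hCφ x).trans (le_max_right _ _))
    obtain ⟨F, hF⟩ : ∃ F : Sp (m + 2) → Sp (m + 2),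
      F = fun x => g (v x) • gradient φ x + φ x • (deriv g (v x) • V x) := ⟨_, rfl⟩
    rw [← hF] at h3
    have hfF : ∀ x, g (v x) * φ x = 0 → F x = 0 := by
      intro x hx
      rw [hF]
      beta_reduce
      rcases mul_eq_zero.mp hx with h | h
      · rw [h, hgmin _ h, zero_smul, zero_smul, smul_zero, add_zero]
      · rw [h, hφgrad x h, smul_zero, zero_smul, add_zero]
    have hfK : ∀ x, x ∉ K → g (v x) * φ x = 0 := by
      intro x hx
      by_cases h4 : x ∈ tsupport φ
      · have h5 : b < v x := by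
          by_contra h6
          apply hx
          rw [hKd]
          exact ⟨h4, not_lt.mp h6⟩
        rw [hgb _ h5.le, zero_mul]
      · rw [zero_of_notMem h4, mul_zero]
    have hFK : ∀ x, x ∉ K → F x = 0 := fun x hx => hfF x (hfK x hx)
    have h5 := Sup.test hp hA hsup h3 hO hK hKO
      (Eventually.of_forall fun x => mul_nonneg (hg0 _) (hφ0 x))
      (Eventually.of_forall hfK) (Eventually.of_forall hfF)
    have h6 := Sub.test hp hA hsub h3 hO hK hKO
      (Eventually.of_forall fun x => mul_nonneg (hg0 _) (hφ0 x))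
      (Eventually.of_forall hfK) (Eventually.of_forall hfF)
    have h7 : ∫ x, ⟪A x (V x), F x⟫ = 0 := le_antisymm h6 h5
    have hFL : MemLp F (ENNReal.ofReal ((m + 2 : ℕ) : ℝ)) volume :=
      (LH.toH0 h3 hO hK hKO (Eventually.of_forall hfK) (Eventually.of_forall hFK)).mU
    have h8 : Integrable (fun x => ⟪A x (V x), F x⟫) volume :=
      integrable_flux hp hA hVO hO hK hKO hFL (Eventually.of_forall hFK)
    -- rewrite the integrand
    have h9 : ∀ᵐ x ∂(volume : Measure (Sp (m + 2))),
        ⟪A x (deriv θ (v x) • (if v x < M then V x else 0)), gradient φ x⟫ =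
          ⟪A x (V x), F x⟫ + (-(φ x * deriv g (v x))) * ⟪A x (V x), V x⟫ := by
      filter_upwards [hA.hom, hA.bdd] with x hhom hbdd
      have hA0 : A x 0 = 0 := by
        have h10 := hbdd 0
        rw [norm_zero, Real.zero_rpow (by push_cast; linarith), mul_zero] at h10
        exact norm_le_zero_iff.mp h10
      have e1 : ⟪A x (V x), F x⟫ + (-(φ x * deriv g (v x))) * ⟪A x (V x), V x⟫ =
          g (v x) * ⟪A x (V x), gradient φ x⟫ := by
        rw [hF]
        beta_reduce
        rw [inner_add_right, inner_smul_right, inner_smul_right, inner_smul_right]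
        ring
      rw [e1]
      by_cases hc : deriv θ (v x) = 0
      · rw [hc, zero_smul, hA0, inner_zero_left]
        have : g (v x) = 0 := by
          rw [hg]; beta_reduce; rw [hc, zero_pow (Nat.succ_ne_zero m)]
        rw [this, zero_mul]
      · have hvb : v x < b := by
          by_contra h10
          exact hc (hθb _ (not_lt.mp h10))
        rw [if_pos (hvb.trans hb), hhom _ _ hc, inner_smul_left, hg]
        beta_reduce
        have hcp : 0 < deriv θ (v x) := lt_of_le_of_ne (hθ1 _).1 (Ne.symm hc)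
        have e2 : ((m + 2 : ℕ) : ℝ) - 2 = (m : ℝ) := by push_cast; ring
        rw [abs_of_pos hcp, e2, Real.rpow_natCast, pow_succ', RCLike.conj_to_real]
    rw [integral_congr_ae h9]
    have h10 : 0 ≤ᵐ[volume] fun x => (-(φ x * deriv g (v x))) * ⟪A x (V x), V x⟫ := by
      filter_upwards [hA.coer] with x hx
      apply mul_nonneg
      · rw [← mul_neg]
        exact mul_nonneg (hφ0 x) (neg_nonneg.mpr (hgneg _))
      · exact (mul_nonneg hα.le (Real.rpow_nonneg (norm_nonneg _) _)).trans (hx (V x))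
    by_cases hJ : Integrable (fun x => (-(φ x * deriv g (v x))) * ⟪A x (V x), V x⟫) volume
    · rw [integral_add h8 hJ, h7, zero_add]
      exact integral_nonneg_of_ae h10
    · have h11 : ¬ Integrable (fun x => ⟪A x (V x), F x⟫ +
          (-(φ x * deriv g (v x))) * ⟪A x (V x), V x⟫) volume := by
        intro h12
        apply hJ
        have h13 := h12.sub h8
        refine h13.congr (Eventually.of_forall fun x => ?_)
        simp only [Pi.sub_apply]
        ring
      rw [integral_undef h11]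


end PQ


end

section


section PQ
variable {n : ℕ} {p α β : ℝ} {A : Sp n → Sp n → Sp n}


/-- the truncations -/
noncomputable def th_10830 (M : ℝ) (k : ℕ) (s : ℝ) : ℝ :=
  M - 1 / ((k : ℝ) + 1) * BB (((k : ℝ) + 1) * (M - s) - 1)

theorem th_hasDeriv_10830 (M : ℝ) (k : ℕ) (s : ℝ) :
    HasDerivAt (th_10830 M k) (Real.smoothTransition (((k : ℝ) + 1) * (M - s) - 1)) s := by
  have hK : ((k : ℝ) + 1) ≠ 0 := by positivity
  have h1 : HasDerivAt (fun s : ℝ => ((k : ℝ) + 1) * (M - s) - 1) (((k : ℝ) + 1) * (-1)) s := by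
    have := ((hasDerivAt_id s).const_sub M).const_mul ((k : ℝ) + 1)
    exact this.sub_const 1
  have h2 := (BB_hasDerivAt (((k : ℝ) + 1) * (M - s) - 1)).comp s h1
  have h3 := (h2.const_mul (1 / ((k : ℝ) + 1))).const_sub M
  have h4 : -(1 / ((k : ℝ) + 1) * (Real.smoothTransition (((k : ℝ) + 1) * (M - s) - 1) *
      (((k : ℝ) + 1) * (-1)))) = Real.smoothTransition (((k : ℝ) + 1) * (M - s) - 1) := by
    field_simp
  rw [h4] at h3
  exact h3

theorem th_deriv_10830 (M : ℝ) (k : ℕ) (s : ℝ) :
    deriv (th_10830 M k) s = Real.smoothTransition (((k : ℝ) + 1) * (M - s) - 1) :=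
  (th_hasDeriv_10830 M k s).deriv

theorem th_smooth_10830 (M : ℝ) (k : ℕ) : ContDiff ℝ (⊤ : ℕ∞) (th_10830 M k) := by
  unfold th_10830
  exact contDiff_const.sub (contDiff_const.mul
    (BB_contDiff.comp ((contDiff_const.mul (contDiff_const.sub contDiff_id)).sub contDiff_const)))

theorem th_bounds_10830 {M : ℝ} (k : ℕ) {s : ℝ} (hs : s ≤ M) :
    s ≤ th_10830 M k s ∧ th_10830 M k s ≤ s + 2 / ((k : ℝ) + 1) := by
  have hK : 0 < ((k : ℝ) + 1) := by positivity
  unfold th_10830
  set x := ((k : ℝ) + 1) * (M - s) - 1 with hx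
  have hx1 : -1 ≤ x := by
    have : 0 ≤ ((k : ℝ) + 1) * (M - s) := mul_nonneg hK.le (by linarith)
    linarith
  have h1 := BB_ge x
  have h2 : BB x ≤ x + 1 := by
    rcases le_total 0 x with h | h
    · have := BB_le h; linarith
    · rw [BB_nonpos h]; linarith
  have e1 : 1 / ((k : ℝ) + 1) * (x + 1) = M - s := by rw [hx]; field_simp; ring
  have e2 : 1 / ((k : ℝ) + 1) * (x - 1) = M - s - 2 / ((k : ℝ) + 1) := by
    rw [hx]; field_simp; ring
  have h3 : 1 / ((k : ℝ) + 1) * BB x ≤ 1 / ((k : ℝ) + 1) * (x + 1) :=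
    mul_le_mul_of_nonneg_left h2 (by positivity)
  have h4 : 1 / ((k : ℝ) + 1) * (x - 1) ≤ 1 / ((k : ℝ) + 1) * BB x :=
    mul_le_mul_of_nonneg_left h1 (by positivity)
  constructor <;> linarith

theorem th_lim_10830 {M s : ℝ} (hs : s < M) :
    Tendsto (fun k : ℕ => deriv (th_10830 M k) s) atTop (𝓝 1) := by
  apply tendsto_const_nhds.congr'
  obtain ⟨N, hN⟩ := exists_nat_ge (2 / (M - s))
  filter_upwards [eventually_ge_atTop N] with k hk
  rw [th_deriv_10830]
  symm
  apply Real.smoothTransition.one_of_one_le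
  have h1 : (N : ℝ) ≤ k := by exact_mod_cast hk
  have h2 : 2 / (M - s) ≤ (k : ℝ) + 1 := by linarith
  rw [div_le_iff₀ (by linarith)] at h2
  linarith

theorem two_div_le_10830 (k : ℕ) : 2 / ((k : ℝ) + 1) ≤ 2 := by
  rw [div_le_iff₀ (by positivity)]
  have : (0 : ℝ) ≤ k := Nat.cast_nonneg k
  linarith

theorem two_div_lim_10830 : Tendsto (fun k : ℕ => 2 / ((k : ℝ) + 1)) atTop (𝓝 0) := by
  have := (tendsto_one_div_add_atTop_nhds_zero_nat (𝕜 := ℝ)).const_mul 2
  simpa [div_eq_mul_inv] using this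

/-- the gradients of the truncations -/
noncomputable def W_10830 (M : ℝ) (v : Sp n → ℝ) (V : Sp n → Sp n) (k : ℕ) (x : Sp n) : Sp n :=
  deriv (th_10830 M k) (v x) • (if v x < M then V x else 0)

theorem W_lim_10830 (M : ℝ) (v : Sp n → ℝ) (V : Sp n → Sp n) (x : Sp n) :
    Tendsto (fun k : ℕ => W_10830 M v V k x) atTop (𝓝 (if v x < M then V x else 0)) := by
  unfold W_10830
  by_cases h : v x < M
  · simp only [if_pos h]
    have := (th_lim_10830 h).smul_const (V x)
    simpa using this
  · simp only [if_neg h, smul_zero]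
    exact tendsto_const_nhds

theorem W_norm_10830 (M : ℝ) (v : Sp n → ℝ) (V : Sp n → Sp n) (k : ℕ) (x : Sp n) :
    ‖W_10830 M v V k x‖ ≤ ‖(if v x < M then V x else 0 : Sp n)‖ := by
  unfold W_10830
  rw [norm_smul, th_deriv_10830, Real.norm_eq_abs, abs_of_nonneg (Real.smoothTransition.nonneg _)]
  exact mul_le_of_le_one_left (norm_nonneg _) (Real.smoothTransition.le_one _)

theorem W_sub_norm_10830 (M : ℝ) (v : Sp n → ℝ) (V : Sp n → Sp n) (k : ℕ) (x : Sp n) :
    ‖(if v x < M then V x else 0 : Sp n) - W_10830 M v V k x‖ ≤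
      ‖(if v x < M then V x else 0 : Sp n)‖ := by
  unfold W_10830
  generalize (if v x < M then V x else 0 : Sp n) = w
  have h0 := Real.smoothTransition.nonneg (((k : ℝ) + 1) * (M - v x) - 1)
  have h1 := Real.smoothTransition.le_one (((k : ℝ) + 1) * (M - v x) - 1)
  rw [th_deriv_10830]
  generalize Real.smoothTransition (((k : ℝ) + 1) * (M - v x) - 1) = t at h0 h1
  have : w - t • w = (1 - t) • w := by rw [sub_smul, one_smul]
  rw [this, norm_smul, Real.norm_eq_abs, abs_of_nonneg (by linarith)]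
  exact mul_le_of_le_one_left (norm_nonneg _) (by linarith)

theorem cont_smul_10830 {F : Type*} [NormedAddCommGroup F] [NormedSpace ℝ F] {G : Set (Sp n)}
    (hG : IsOpen G) {f : Sp n → ℝ} (hf : ContinuousOn f G) {g : Sp n → F} (hg : Continuous g)
    (hgG : tsupport g ⊆ G) : Continuous (fun x => f x • g x) := by
  apply ContinuousOn.continuous_of_tsupport_subset (hf.smul hg.continuousOn) hG
  exact (tsupport_smul_subset_right f g).trans hgG

theorem memLp_smul_10830 {F : Type*} [NormedAddCommGroup F] [NormedSpace ℝ F] {G : Set (Sp n)}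
    (hG : IsOpen G) {f : Sp n → ℝ} (hf : ContinuousOn f G) {g : Sp n → F} (hg : Continuous g)
    (hgc : HasCompactSupport g) (hgG : tsupport g ⊆ G) (q : ℝ≥0∞) :
    MemLp (fun x => f x • g x) q (volume : Measure (Sp n)) := by
  have h1 := cont_smul_10830 hG hf hg hgG
  have h2 : HasCompactSupport (fun x => f x • g x) := hgc.smul_left (f := f)
  exact h1.memLp_of_hasCompactSupport h2

theorem tsupport_grad_10830 {η : Sp n → ℝ} : tsupport (gradient η) ⊆ tsupport η := by
  apply closure_minimal _ (isClosed_tsupport η)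
  intro x hx
  by_contra h
  exact hx (grad_zero_of_notMem h)

theorem energy_10830 (hn : 2 ≤ n) (hα : 0 < α) (hβ : 0 < β)
    (hA : Op (n : ℝ) α β (volume : Measure (Sp n)) A) {G : Set (Sp n)} (hG : IsOpen G)
    {v : Sp n → ℝ} {V : Sp n → Sp n} {M : ℝ} (hv : ContinuousOn v G) (hM : ∀ x ∈ G, v x ≤ M)
    (hS : ∀ k, Sup A (n : ℝ) volume G (fun x => th_10830 M k (v x)) (W_10830 M v V k))
    {ζ : Sp n → ℝ} (hζ : Cc G ζ) (hζ1 : ∀ x, 0 ≤ ζ x ∧ ζ x ≤ 1) :
    ∃ B : ℝ, ∀ k, ∫ x, ‖W_10830 M v V k x‖ ^ (n : ℝ) * ζ x ^ n ≤ B := by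
  have hn' : (2 : ℝ) ≤ n := by exact_mod_cast hn
  have hp : (1 : ℝ) < n := by linarith
  obtain ⟨C, hC0, hC⟩ := caccioppoli (n := n) hp hα hβ n le_rfl
  obtain ⟨m0, hm0⟩ : ∃ m0, ∀ x ∈ tsupport ζ, m0 ≤ v x := by
    obtain ⟨m0, h⟩ := (hζ.comp.isCompact.image_of_continuousOn (hv.mono hζ.supp)).bddBelow
    exact ⟨m0, fun x hx => h ⟨x, hx, rfl⟩⟩
  set m := min m0 M with hm
  have hmM : m ≤ M := min_le_right _ _
  have hm1 : ∀ x ∈ tsupport ζ, m ≤ v x := fun x hx => (min_le_left _ _).trans (hm0 x hx)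
  set G1 := G ∩ v ⁻¹' Ioi (m - 1) with hG1d
  have hG1 : IsOpen G1 := hv.isOpen_inter_preimage hG isOpen_Ioi
  have hζG1 : Cc G1 ζ := ⟨hζ.smooth, hζ.comp, fun x hx => ⟨hζ.supp hx, by
    show m - 1 < v x
    have := hm1 x hx
    linarith⟩⟩
  refine ⟨C * ∫ x, (M - m + 4) ^ (n : ℝ) * ‖gradient ζ x‖ ^ (n : ℝ), fun k => ?_⟩
  have hs := Sup.sub_const hp (Sup.mono_set hp (hS k) hG1 inter_subset_left) (m - 1)
  have hpos : ∀ x ∈ G1, 0 ≤ th_10830 M k (v x) - (m - 1) := by
    intro x hx
    have h1 := (th_bounds_10830 k (hM x hx.1)).1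
    have h2 : m - 1 < v x := hx.2
    linarith
  have hlt : ∀ x ∈ G1, th_10830 M k (v x) - (m - 1) < M - m + 4 := by
    intro x hx
    have h1 := (th_bounds_10830 k (hM x hx.1)).2
    have h2 := two_div_le_10830 k
    have h3 := hM x hx.1
    linarith
  obtain ⟨h1, h2, h3⟩ := hC volume A hA G1 hG1 _ _ hs (Eventually.of_forall hpos)
    (M - m + 4) (by linarith) ζ hζG1 hζ1
  have e1 : (fun x => (if th_10830 M k (v x) - (m - 1) < M - m + 4 then (1 : ℝ) else 0) *
      ‖W_10830 M v V k x‖ ^ (n : ℝ) * ζ x ^ n) =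
      fun x => ‖W_10830 M v V k x‖ ^ (n : ℝ) * ζ x ^ n := by
    funext x
    by_cases hx : x ∈ tsupport ζ
    · rw [if_pos (hlt x (hζG1.supp hx)), one_mul]
    · rw [zero_of_notMem hx, zero_pow (by omega), mul_zero, mul_zero]
  rw [e1] at h3
  refine h3.trans (mul_le_mul_of_nonneg_left ?_ hC0)
  have hi : Integrable (fun x => (M - m + 4) ^ (n : ℝ) * ‖gradient ζ x‖ ^ (n : ℝ))
      (volume : Measure (Sp n)) := (int_rpow hp (hζ.memLp_grad _)).const_mul _
  apply integral_mono h2 hi
  intro x
  show max (M - m + 4 - (th_10830 M k (v x) - (m - 1))) 0 ^ (n : ℝ) * ‖gradient ζ x‖ ^ (n : ℝ) ≤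
    (M - m + 4) ^ (n : ℝ) * ‖gradient ζ x‖ ^ (n : ℝ)
  by_cases hx : x ∈ tsupport ζ
  · apply mul_le_mul_of_nonneg_right _ (by positivity)
    apply Real.rpow_le_rpow (le_max_right _ _) _ (by positivity)
    apply max_le
    · have := hpos x (hζG1.supp hx)
      linarith
    · linarith
  · rw [grad_zero_of_notMem hx, norm_zero, Real.zero_rpow (by linarith), mul_zero, mul_zero]

/-- `L^n` bound for the limit gradient -/
theorem memLp_lim_10830 (hn : 2 ≤ n) (hα : 0 < α) (hβ : 0 < β)
    (hA : Op (n : ℝ) α β (volume : Measure (Sp n)) A) {G : Set (Sp n)} (hG : IsOpen G)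
    {v : Sp n → ℝ} {V : Sp n → Sp n} {M : ℝ} (hv : ContinuousOn v G) (hM : ∀ x ∈ G, v x ≤ M)
    (hS : ∀ k, Sup A (n : ℝ) volume G (fun x => th_10830 M k (v x)) (W_10830 M v V k))
    {ζ : Sp n → ℝ} (hζ : Cc G ζ) (hζ1 : ∀ x, 0 ≤ ζ x ∧ ζ x ≤ 1) :
    (∀ k, MemLp (fun x => ζ x • W_10830 M v V k x) (ENNReal.ofReal n)
      (volume : Measure (Sp n))) ∧
    MemLp (fun x => ζ x • (if v x < M then V x else 0 : Sp n)) (ENNReal.ofReal n)
      (volume : Measure (Sp n)) := by
  have hn' : (2 : ℝ) ≤ n := by exact_mod_cast hn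
  have hp : (1 : ℝ) < n := by linarith
  have hk : ∀ k, MemLp (fun x => ζ x • W_10830 M v V k x) (ENNReal.ofReal n)
      (volume : Measure (Sp n)) := by
    intro k
    have h1 := ((hS k).1 ζ hζ).mU
    have hc : ContinuousOn (fun x => th_10830 M k (v x)) G :=
      (th_smooth_10830 M k).continuous.comp_continuousOn hv
    have h2 := memLp_smul_10830 hG hc hζ.cont_grad hζ.comp_grad
      (tsupport_grad_10830.trans hζ.supp) (ENNReal.ofReal n)
    have h3 := h1.sub h2
    refine h3.ae_eq (Eventually.of_forall fun x => ?_)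
    show (ζ x • W_10830 M v V k x + th_10830 M k (v x) • gradient ζ x) -
      th_10830 M k (v x) • gradient ζ x = _
    rw [add_sub_cancel_right]
  refine ⟨hk, ?_⟩
  obtain ⟨B, hB⟩ := energy_10830 hn hα hβ hA hG hv hM hS hζ hζ1
  have hlim : ∀ x, Tendsto (fun k => ζ x • W_10830 M v V k x) atTop
      (𝓝 (ζ x • (if v x < M then V x else 0 : Sp n))) :=
    fun x => (W_lim_10830 M v V x).const_smul (ζ x)
  have hq0 : ENNReal.ofReal (n : ℝ) ≠ 0 := by
    rw [ne_eq, ENNReal.ofReal_eq_zero]
    linarith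
  have hbd : ∀ k, eLpNorm (fun x => ζ x • W_10830 M v V k x) (ENNReal.ofReal n)
      (volume : Measure (Sp n)) ≤ ENNReal.ofReal (B ^ ((n : ℝ)⁻¹)) := by
    intro k
    rw [(hk k).eLpNorm_eq_integral_rpow_norm hq0 ENNReal.ofReal_ne_top,
      ENNReal.toReal_ofReal (by linarith)]
    apply ENNReal.ofReal_le_ofReal
    apply Real.rpow_le_rpow (integral_nonneg (fun x => by positivity)) _ (by positivity)
    refine le_trans (le_of_eq ?_) (hB k)
    apply integral_congr_ae
    filter_upwards with x
    rw [norm_smul, Real.norm_eq_abs, abs_of_nonneg (hζ1 x).1,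
      Real.mul_rpow (hζ1 x).1 (norm_nonneg _), Real.rpow_natCast (ζ x), mul_comm]
  refine ⟨aestronglyMeasurable_of_tendsto_ae atTop (fun k => (hk k).1)
    (Eventually.of_forall hlim), ?_⟩
  refine lt_of_le_of_lt ?_ (ENNReal.ofReal_lt_top (r := B ^ ((n : ℝ)⁻¹)))
  exact Lp.eLpNorm_le_of_ae_tendsto (u := atTop) (Eventually.of_forall hbd) (fun k => (hk k).1)
    (Eventually.of_forall hlim)

/-- pasting: a continuous function which is harmonic below its maximum `M` is a supersolution -/
theorem paste_sup (hn : 2 ≤ n) (hα : 0 < α) (hβ : 0 < β)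
    (hA : Op (n : ℝ) α β (volume : Measure (Sp n)) A) {G : Set (Sp n)} (hG : IsOpen G)
    {v : Sp n → ℝ} {V : Sp n → Sp n} {M : ℝ} (hv : ContinuousOn v G) (hM : ∀ x ∈ G, v x ≤ M)
    (hV : LH (n : ℝ) volume (G ∩ {x | v x < M}) v V)
    (he : ∀ φ, Cc (G ∩ {x | v x < M}) φ → ∫ x, ⟪A x (V x), gradient φ x⟫ = 0) :
    Sup A (n : ℝ) volume G v (fun x => if v x < M then V x else 0) := by
  have hn' : (2 : ℝ) ≤ n := by exact_mod_cast hn
  have hp : (1 : ℝ) < n := by linarith
  have hq0 : ENNReal.ofReal (n : ℝ) ≠ 0 := by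
    rw [ne_eq, ENNReal.ofReal_eq_zero]
    linarith
  have hS : ∀ k, Sup A (n : ℝ) volume G (fun x => th_10830 M k (v x)) (W_10830 M v V k) := by
    intro k
    have hK : 0 < ((k : ℝ) + 1) := by positivity
    refine trunc_sup hn hα hβ hA hG hv hV he (th_smooth_10830 M k) ?_ ?_
      (b := M - 1 / ((k : ℝ) + 1)) ?_ ?_
    · intro s
      rw [th_deriv_10830]
      exact ⟨Real.smoothTransition.nonneg _, Real.smoothTransition.le_one _⟩
    · intro s t hst
      rw [th_deriv_10830, th_deriv_10830]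
      apply Real.smoothTransition.monotone
      have : ((k : ℝ) + 1) * (M - t) ≤ ((k : ℝ) + 1) * (M - s) :=
        mul_le_mul_of_nonneg_left (by linarith) hK.le
      linarith
    · have : 0 < 1 / ((k : ℝ) + 1) := by positivity
      linarith
    · intro s hs
      rw [th_deriv_10830]
      apply Real.smoothTransition.zero_of_nonpos
      have h1 : M - s ≤ 1 / ((k : ℝ) + 1) := by linarith
      rw [le_div_iff₀ hK] at h1
      linarith
  have hu1 : ∀ k, ∀ x ∈ G, |v x - th_10830 M k (v x)| ≤ 2 / ((k : ℝ) + 1) := by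
    intro k x hx
    obtain ⟨h1, h2⟩ := th_bounds_10830 k (hM x hx)
    rw [abs_le]
    constructor <;> linarith
  constructor
  · intro η hη
    obtain ⟨ζ, hζ, hζ1, O, hO, hKO, hOG, hζO⟩ := exists_cutoff hη.comp.isCompact hG hη.supp
    have hζη : ∀ x ∈ tsupport η, ζ x = 1 := fun x hx => hζO x (hKO hx)
    obtain ⟨hk, hlim⟩ := memLp_lim_10830 hn hα hβ hA hG hv hM hS hζ hζ1
    obtain ⟨Cη, hCη⟩ := hη.comp.exists_bound_of_continuous hη.cont
    have hηV : MemLp (fun x => η x • (if v x < M then V x else 0 : Sp n)) (ENNReal.ofReal n)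
        (volume : Measure (Sp n)) := by
      have e1 : (fun x => η x • (if v x < M then V x else 0 : Sp n)) =
          fun x => η x • (ζ x • (if v x < M then V x else 0 : Sp n)) := by
        funext x
        by_cases hx : x ∈ tsupport η
        · rw [hζη x hx, one_smul]
        · rw [zero_of_notMem hx, zero_smul, zero_smul]
      rw [e1]
      have hm : AEStronglyMeasurable (fun x => η x •
          (ζ x • (if v x < M then V x else 0 : Sp n))) (volume : Measure (Sp n)) :=
        hη.cont.aestronglyMeasurable.smul hlim.1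
      refine hlim.of_le_mul (c := Cη) hm (Eventually.of_forall fun x => ?_)
      rw [norm_smul]
      exact mul_le_mul_of_nonneg_right (hCη x)
        (norm_nonneg (ζ x • (if v x < M then V x else 0 : Sp n)))
    have hgrad : tsupport (gradient η) ⊆ G := tsupport_grad_10830.trans hη.supp
    have hvg := memLp_smul_10830 hG hv hη.cont_grad hη.comp_grad hgrad (ENNReal.ofReal n)
    have hvη : MemLp (fun x => η x * v x) (ENNReal.ofReal n) (volume : Measure (Sp n)) := by
      have := memLp_smul_10830 hG hv hη.cont hη.comp hη.supp (ENNReal.ofReal n)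
      refine this.ae_eq (Eventually.of_forall fun x => ?_)
      show v x * η x = η x * v x
      rw [mul_comm]
    have hUU := hηV.add hvg
    refine H0.lim hp.le hvη hUU ?_
    intro ε hε
    -- convergence of the functions
    have ha : Tendsto (fun k => eLpNorm (fun x => η x * v x - η x * th_10830 M k (v x))
        (ENNReal.ofReal n) (volume : Measure (Sp n))) atTop (𝓝 0) := by
      apply Lp_dct hq0 ENNReal.ofReal_ne_top (g := fun x => 2 * ‖η x‖)
        ((hη.memLp _).norm.const_mul 2)
      · intro k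
        exact (hvη.sub ((hS k).1 η hη).mu).1
      · intro k
        filter_upwards with x
        rw [← mul_sub, norm_mul, mul_comm]
        by_cases hx : x ∈ G
        · apply mul_le_mul_of_nonneg_right _ (norm_nonneg _)
          rw [Real.norm_eq_abs]
          exact (hu1 k x hx).trans (two_div_le_10830 k)
        · rw [zero_of_notMem (fun h => hx (hη.supp h)), norm_zero, mul_zero, mul_zero]
      · filter_upwards with x
        by_cases hx : x ∈ G
        · have h1 : Tendsto (fun k => v x - th_10830 M k (v x)) atTop (𝓝 0) :=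
            squeeze_zero_norm (fun k => hu1 k x hx) two_div_lim_10830
          have := h1.const_mul (η x)
          rw [mul_zero] at this
          refine this.congr (fun k => ?_)
          rw [mul_sub]
        · have h0 : η x = 0 := zero_of_notMem (fun h => hx (hη.supp h))
          simp only [h0, zero_mul, sub_zero]
          exact tendsto_const_nhds
    have hb : Tendsto (fun k => eLpNorm (fun x =>
        (η x • (if v x < M then V x else 0 : Sp n) + v x • gradient η x) -
          (η x • W_10830 M v V k x + th_10830 M k (v x) • gradient η x))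
        (ENNReal.ofReal n) (volume : Measure (Sp n))) atTop (𝓝 0) := by
      have key : ∀ k x, (η x • (if v x < M then V x else 0 : Sp n) + v x • gradient η x) -
          (η x • W_10830 M v V k x + th_10830 M k (v x) • gradient η x) =
          η x • ((if v x < M then V x else 0 : Sp n) - W_10830 M v V k x) +
            (v x - th_10830 M k (v x)) • gradient η x := by
        intro k x
        rw [smul_sub, sub_smul]
        abel
      apply Lp_dct hq0 ENNReal.ofReal_ne_top
        (g := fun x => ‖η x • (if v x < M then V x else 0 : Sp n)‖ + 2 * ‖gradient η x‖)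
        (hηV.norm.add ((hη.memLp_grad _).norm.const_mul 2))
      · intro k
        exact (hUU.sub ((hS k).1 η hη).mU).1
      · intro k
        filter_upwards with x
        rw [key]
        refine (norm_add_le _ _).trans (add_le_add ?_ ?_)
        · rw [norm_smul, norm_smul]
          exact mul_le_mul_of_nonneg_left (W_sub_norm_10830 M v V k x) (norm_nonneg _)
        · rw [norm_smul]
          by_cases hx : x ∈ G
          · apply mul_le_mul_of_nonneg_right _ (norm_nonneg _)
            rw [Real.norm_eq_abs]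
            exact (hu1 k x hx).trans (two_div_le_10830 k)
          · rw [grad_zero_of_notMem (fun h => hx (hη.supp h)), norm_zero, mul_zero, mul_zero]
      · filter_upwards with x
        simp only [key]
        have h1 : Tendsto (fun k => η x • ((if v x < M then V x else 0 : Sp n) -
            W_10830 M v V k x)) atTop (𝓝 0) := by
          have h2 := ((W_lim_10830 M v V x).const_sub
            (if v x < M then V x else 0 : Sp n)).const_smul (η x)
          rw [sub_self, smul_zero] at h2
          exact h2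
        have h3 : Tendsto (fun k => (v x - th_10830 M k (v x)) • gradient η x) atTop (𝓝 0) := by
          by_cases hx : x ∈ G
          · have h1 : Tendsto (fun k => v x - th_10830 M k (v x)) atTop (𝓝 0) :=
              squeeze_zero_norm (fun k => hu1 k x hx) two_div_lim_10830
            have := h1.smul_const (gradient η x)
            rwa [zero_smul] at this
          · have h0 : gradient η x = 0 := grad_zero_of_notMem (fun h => hx (hη.supp h))
            simp only [h0, smul_zero]
            exact tendsto_const_nhds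
        have := h1.add h3
        rwa [add_zero] at this
    obtain ⟨j, hj1, hj2⟩ := exists_le_of_tendsto ha hb hε
    exact ⟨_, _, (hS j).1 η hη, hj1, hj2⟩
  · intro φ hφ hφ0
    obtain ⟨ζ, hζ, hζ1, O, hO, hKO, hOG, hζO⟩ := exists_cutoff hφ.comp.isCompact hG hφ.supp
    have hζφ : ∀ x ∈ tsupport φ, ζ x = 1 := fun x hx => hζO x (hKO hx)
    obtain ⟨hk, hlim⟩ := memLp_lim_10830 hn hα hβ hA hG hv hM hS hζ hζ1
    have hrep : ∀ U : Sp n → Sp n, (fun x => ⟪A x (U x), gradient φ x⟫) =
        fun x => ⟪A x (ζ x • U x), gradient φ x⟫ := by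
      intro U
      funext x
      by_cases hx : x ∈ tsupport φ
      · rw [hζφ x hx, one_smul]
      · rw [grad_zero_of_notMem hx, inner_zero_right, inner_zero_right]
    have hint : ∀ k, 0 ≤ ∫ x, ⟪A x (ζ x • W_10830 M v V k x), gradient φ x⟫ := by
      intro k
      rw [← hrep]
      exact (hS k).2 φ hφ hφ0
    rw [hrep]
    have hconv : Tendsto (fun k => ∫ x, ⟪A x (ζ x • W_10830 M v V k x), gradient φ x⟫) atTop
        (𝓝 (∫ x, ⟪A x (ζ x • (if v x < M then V x else 0 : Sp n)), gradient φ x⟫)) := by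
      apply tendsto_integral_of_dominated_convergence
        (fun x => β * (‖ζ x • (if v x < M then V x else 0 : Sp n)‖ ^ (n : ℝ) +
          ‖gradient φ x‖ ^ (n : ℝ)))
      · intro k
        exact (int_inner hp hA (hk k) (hφ.memLp_grad _)).1
      · exact ((int_rpow hp hlim).add (int_rpow hp (hφ.memLp_grad _))).const_mul β
      · intro k
        filter_upwards [abs_inner_le hA (fun x => ζ x • W_10830 M v V k x) (gradient φ)] with x hx
        refine hx.trans (mul_le_mul_of_nonneg_left ?_ hβ.le)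
        have h1 : ‖ζ x • W_10830 M v V k x‖ ≤ ‖ζ x • (if v x < M then V x else 0 : Sp n)‖ := by
          rw [norm_smul, norm_smul]
          exact mul_le_mul_of_nonneg_left (W_norm_10830 M v V k x) (norm_nonneg _)
        have h2 : ‖ζ x • W_10830 M v V k x‖ ^ ((n : ℝ) - 1) ≤
            ‖ζ x • (if v x < M then V x else 0 : Sp n)‖ ^ ((n : ℝ) - 1) :=
          Real.rpow_le_rpow (norm_nonneg _) h1 (by linarith)
        refine (mul_le_mul_of_nonneg_right h2 (norm_nonneg _)).trans ?_
        generalize hga : ‖ζ x • (if v x < M then V x else 0 : Sp n)‖ = a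
        generalize hgb : ‖gradient φ x‖ = b
        have ha0 : 0 ≤ a := by rw [← hga]; exact norm_nonneg _
        have hb0 : 0 ≤ b := by rw [← hgb]; exact norm_nonneg _
        have hsplit : ∀ t : ℝ, 0 ≤ t → t ^ ((n : ℝ) - 1) * t = t ^ (n : ℝ) := by
          intro t ht
          conv_lhs => rw [← Real.rpow_one t]
          rw [Real.rpow_one, ← Real.rpow_add_one' ht (by linarith)]
          congr 1
          ring
        rcases le_total a b with hab | hab
        · have h3 : a ^ ((n : ℝ) - 1) ≤ b ^ ((n : ℝ) - 1) :=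
            Real.rpow_le_rpow ha0 hab (by linarith)
          have h4 : 0 ≤ a ^ (n : ℝ) := by positivity
          calc a ^ ((n : ℝ) - 1) * b ≤ b ^ ((n : ℝ) - 1) * b :=
                mul_le_mul_of_nonneg_right h3 hb0
            _ = b ^ (n : ℝ) := hsplit b hb0
            _ ≤ a ^ (n : ℝ) + b ^ (n : ℝ) := by linarith
        · have h4 : 0 ≤ b ^ (n : ℝ) := by positivity
          calc a ^ ((n : ℝ) - 1) * b ≤ a ^ ((n : ℝ) - 1) * a :=
                mul_le_mul_of_nonneg_left hab (by positivity)
            _ = a ^ (n : ℝ) := hsplit a ha0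
            _ ≤ a ^ (n : ℝ) + b ^ (n : ℝ) := by linarith
      · filter_upwards [hA.cont] with x hx
        have h1 := (W_lim_10830 M v V x).const_smul (ζ x)
        have h2 := (hx.tendsto _).comp h1
        exact h2.inner tendsto_const_nhds
    exact ge_of_tendsto' hconv hint

end PQ


end

end Pool.Agent.Helper533.Polar
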