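import Pool.Agent.Helper533.NHM.Defs
open MeasureTheory Filter Topology Set
open scoped ENNReal NNReal RealInnerProductSpace

namespace Pool.Agent.Helper533.Polar

section


section P0
variable {n : ℕ}



theorem core_aux {B : Set (Sp n)} (hB : Convex ℝ B) (hBm : MeasurableSet B) (K : Sp n → ℝ≥0∞)
    (hK : Measurable K) {s : ℝ} (hs0 : 0 ≤ s) (hs : s ≤ 1 / 2) {z : Sp n} (hz : z ∈ B) :
    ∫⁻ y in B, K (y + s • (z - y)) ≤ 2 ^ n * ∫⁻ y in B, K y := by
  have h1s : (0 : ℝ) < 1 - s := by linarith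
  have h1 : ∫⁻ y in B, K (y + s • (z - y)) ≤ ∫⁻ y, (B.indicator K) ((1 - s) • y + s • z) := by
    rw [← lintegral_indicator hBm]
    apply lintegral_mono
    intro y
    by_cases hy : y ∈ B
    · have hmem : (1 - s) • y + s • z ∈ B := hB hy hz h1s.le hs0 (by ring)
      have heq : y + s • (z - y) = (1 - s) • y + s • z := by
        rw [smul_sub, sub_smul, one_smul]; abel
      simp only [Set.indicator_of_mem hy, Set.indicator_of_mem hmem, heq]
      exact le_refl _
    · simp only [Set.indicator_of_notMem hy]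
      exact bot_le
  have hKB : Measurable (B.indicator K) := hK.indicator hBm
  have h2 : ∫⁻ y, (B.indicator K) ((1 - s) • y + s • z) =
      ENNReal.ofReal |((1 - s) ^ (Module.finrank ℝ (Sp n)))⁻¹| * ∫⁻ y in B, K y := by
    have e1 : ∫⁻ y, (B.indicator K) ((1 - s) • y + s • z) =
        ∫⁻ w, (B.indicator K) (w + s • z) ∂(Measure.map (fun y : Sp n => (1 - s) • y) volume) := by
      have hm1 : Measurable (fun w : Sp n => (B.indicator K) (w + s • z)) :=
        hKB.comp (measurable_id.add_const _)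
      rw [lintegral_map hm1 (measurable_const_smul _)]
    rw [e1, Measure.map_addHaar_smul volume h1s.ne', lintegral_smul_measure,
      lintegral_add_right_eq_self (fun w => (B.indicator K) w) (s • z), lintegral_indicator hBm]
    rfl
  refine h1.trans ?_
  rw [h2]
  refine mul_le_mul_left ?_ _
  have h3 : |((1 - s) ^ (Module.finrank ℝ (Sp n)))⁻¹| ≤ 2 ^ n := by
    rw [finrank_euclideanSpace_fin, abs_of_pos (by positivity), ← inv_pow]
    apply pow_le_pow_left₀ (by positivity)
    rw [inv_le_comm₀ h1s (by norm_num)]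
    linarith
  calc ENNReal.ofReal |((1 - s) ^ (Module.finrank ℝ (Sp n)))⁻¹| ≤ ENNReal.ofReal (2 ^ n) :=
        ENNReal.ofReal_le_ofReal h3
    _ = 2 ^ n := by
        rw [ENNReal.ofReal_pow (by norm_num)]; norm_num

theorem core_half {x : Sp n} {r : ℝ} (hr : 0 < r) {φ : Sp n → ℝ}
    (hφ : ContDiff ℝ (⊤ : ℕ∞) φ) :
    ∫⁻ y in Metric.ball x r, ∫⁻ z in Metric.ball x r, ‖φ y - φ (y + (1 / 2 : ℝ) • (z - y))‖ₑ ≤
      ENNReal.ofReal (2 ^ n * r) * volume (Metric.ball x r) *
        ∫⁻ y in Metric.ball x r, ‖fderiv ℝ φ y‖ₑ := by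
  set B := Metric.ball x r with hBdef
  have hBm : MeasurableSet B := Metric.isOpen_ball.measurableSet
  have hconv : Convex ℝ B := convex_ball x r
  have hdc : Continuous (fderiv ℝ φ) := hφ.continuous_fderiv (by simp)
  have hdiff : Differentiable ℝ φ := hφ.differentiable (by simp)
  set K : Sp n → ℝ≥0∞ := fun y => ‖fderiv ℝ φ y‖ₑ with hKdef
  have hKc : Continuous K := hdc.enorm
  -- pointwise
  have hpt : ∀ y ∈ B, ∀ z ∈ B, ‖φ y - φ (y + (1 / 2 : ℝ) • (z - y))‖ₑ ≤
      ∫⁻ s in Set.Ioc (0 : ℝ) (1 / 2), ENNReal.ofReal (2 * r) * K (y + s • (z - y)) := by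
    intro y hy z hz
    have hder : ∀ s : ℝ, HasDerivAt (fun s : ℝ => φ (y + s • (z - y)))
        (fderiv ℝ φ (y + s • (z - y)) (z - y)) s := by
      intro s
      have h1 : HasDerivAt (fun s : ℝ => y + s • (z - y)) (z - y) s := by
        simpa using ((hasDerivAt_id s).smul_const (z - y)).const_add y
      exact (hdiff _).hasFDerivAt.comp_hasDerivAt s h1
    have hcd : Continuous (fun s : ℝ => fderiv ℝ φ (y + s • (z - y)) (z - y)) := by
      exact (hdc.comp (by fun_prop)).clm_apply continuous_const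
    have hI := intervalIntegral.integral_eq_sub_of_hasDerivAt (a := 0) (b := 1 / 2)
      (fun s _ => hder s) (hcd.intervalIntegrable _ _)
    have e0 : φ y - φ (y + (1 / 2 : ℝ) • (z - y)) =
        - ∫ s in (0 : ℝ)..(1 / 2), fderiv ℝ φ (y + s • (z - y)) (z - y) := by
      rw [hI]; simp
    rw [e0, enorm_neg, intervalIntegral.integral_of_le (by norm_num)]
    refine (enorm_integral_le_lintegral_enorm _).trans ?_
    apply lintegral_mono
    intro s
    have h2 : ‖fderiv ℝ φ (y + s • (z - y)) (z - y)‖ ≤ (2 * r) * ‖fderiv ℝ φ (y + s • (z - y))‖ := by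
      refine (ContinuousLinearMap.le_opNorm _ _).trans ?_
      rw [mul_comm]
      apply mul_le_mul_of_nonneg_right _ (norm_nonneg _)
      rw [← dist_eq_norm]
      have h3 := dist_triangle_right z y x
      have h4 : dist z x < r := hz
      have h5 : dist y x < r := hy
      linarith
    simp only [hKdef]
    rw [← ofReal_norm, ← ofReal_norm, ← ENNReal.ofReal_mul (by positivity)]
    exact ENNReal.ofReal_le_ofReal h2
  have hH : Continuous (fun q : Sp n × Sp n × ℝ => K (q.1 + q.2.2 • (q.2.1 - q.1))) := by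
    apply hKc.comp; fun_prop
  calc ∫⁻ y in B, ∫⁻ z in B, ‖φ y - φ (y + (1 / 2 : ℝ) • (z - y))‖ₑ
      ≤ ∫⁻ y in B, ∫⁻ z in B, ∫⁻ s in Set.Ioc (0 : ℝ) (1 / 2),
          ENNReal.ofReal (2 * r) * K (y + s • (z - y)) := by
        apply setLIntegral_mono' hBm
        intro y hy
        apply setLIntegral_mono' hBm
        intro z hz
        exact hpt y hy z hz
    _ = ∫⁻ y in B, ∫⁻ s in Set.Ioc (0 : ℝ) (1 / 2), ∫⁻ z in B,
          ENNReal.ofReal (2 * r) * K (y + s • (z - y)) := by
        apply lintegral_congr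
        intro y
        apply lintegral_lintegral_swap
        apply Measurable.aemeasurable
        apply Measurable.const_mul
        exact (hKc.comp (by fun_prop :
          Continuous (fun q : Sp n × ℝ => y + q.2 • (q.1 - y)))).measurable
    _ = ∫⁻ s in Set.Ioc (0 : ℝ) (1 / 2), ∫⁻ y in B, ∫⁻ z in B,
          ENNReal.ofReal (2 * r) * K (y + s • (z - y)) := by
        apply lintegral_lintegral_swap
        apply Measurable.aemeasurable
        have hm : Measurable (fun q : (Sp n × ℝ) × Sp n =>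
            ENNReal.ofReal (2 * r) * K (q.1.1 + q.1.2 • (q.2 - q.1.1))) := by
          apply Measurable.const_mul
          exact (hKc.comp (by fun_prop)).measurable
        exact hm.lintegral_prod_right'
    _ = ∫⁻ s in Set.Ioc (0 : ℝ) (1 / 2), ∫⁻ z in B, ∫⁻ y in B,
          ENNReal.ofReal (2 * r) * K (y + s • (z - y)) := by
        apply lintegral_congr
        intro s
        apply lintegral_lintegral_swap
        apply Measurable.aemeasurable
        apply Measurable.const_mul
        exact (hKc.comp (by fun_prop :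
          Continuous (fun q : Sp n × Sp n => q.1 + s • (q.2 - q.1)))).measurable
    _ ≤ ∫⁻ s in Set.Ioc (0 : ℝ) (1 / 2), ∫⁻ z in B,
          ENNReal.ofReal (2 * r) * (2 ^ n * ∫⁻ y in B, K y) := by
        apply setLIntegral_mono' measurableSet_Ioc
        intro s hs
        apply setLIntegral_mono' hBm
        intro z hz
        have hm2 : Measurable (fun y : Sp n => K (y + s • (z - y))) :=
          (hKc.comp (by fun_prop : Continuous (fun y : Sp n => y + s • (z - y)))).measurable
        rw [lintegral_const_mul _ hm2]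
        exact mul_le_mul_right (core_aux hconv hBm K hKc.measurable hs.1.le hs.2 hz) _
    _ = ENNReal.ofReal (2 ^ n * r) * volume B * ∫⁻ y in B, K y := by
        rw [setLIntegral_const, setLIntegral_const, Real.volume_Ioc]
        have e1 : ENNReal.ofReal (2 ^ n * r) = ENNReal.ofReal (2 * r) * 2 ^ n * ENNReal.ofReal (1 / 2 - 0) := by
          have e2 : (2 : ℝ≥0∞) ^ n = ENNReal.ofReal (2 ^ n) := by
            rw [ENNReal.ofReal_pow (by norm_num)]; norm_num
          rw [e2, ← ENNReal.ofReal_mul (by positivity), ← ENNReal.ofReal_mul (by positivity)]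
          congr 1; ring
        rw [e1]; ring

theorem core {x : Sp n} {r : ℝ} (hr : 0 < r) {φ : Sp n → ℝ}
    (hφ : ContDiff ℝ (⊤ : ℕ∞) φ) :
    ∫⁻ y in Metric.ball x r, ∫⁻ z in Metric.ball x r, ‖φ y - φ z‖ₑ ≤
      2 * (ENNReal.ofReal (2 ^ n * r) * volume (Metric.ball x r) *
        ∫⁻ y in Metric.ball x r, ‖fderiv ℝ φ y‖ₑ) := by
  have hc : Continuous φ := hφ.continuous
  set B := Metric.ball x r with hBdef
  have h1 : Continuous (fun q : Sp n × Sp n => ‖φ q.1 - φ (q.1 + (1 / 2 : ℝ) • (q.2 - q.1))‖ₑ) := by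
    apply Continuous.enorm
    exact (hc.comp continuous_fst).sub (hc.comp (by fun_prop))
  have h2 : Continuous (fun q : Sp n × Sp n => ‖φ q.2 - φ (q.2 + (1 / 2 : ℝ) • (q.1 - q.2))‖ₑ) := by
    apply Continuous.enorm
    exact (hc.comp continuous_snd).sub (hc.comp (by fun_prop))
  calc ∫⁻ y in B, ∫⁻ z in B, ‖φ y - φ z‖ₑ
      ≤ ∫⁻ y in B, ∫⁻ z in B, (‖φ y - φ (y + (1 / 2 : ℝ) • (z - y))‖ₑ +
          ‖φ z - φ (z + (1 / 2 : ℝ) • (y - z))‖ₑ) := by
        apply lintegral_mono
        intro y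
        apply lintegral_mono
        intro z
        have e : z + (1 / 2 : ℝ) • (y - z) = y + (1 / 2 : ℝ) • (z - y) := by
          have : z + (1 / 2 : ℝ) • (y - z) - (y + (1 / 2 : ℝ) • (z - y)) = 0 := by
            module
          exact sub_eq_zero.mp this
        have e2 : φ y - φ z = (φ y - φ (y + (1 / 2 : ℝ) • (z - y))) -
            (φ z - φ (y + (1 / 2 : ℝ) • (z - y))) := by ring
        simp only [e]
        rw [e2]
        exact enorm_sub_le
    _ = (∫⁻ y in B, ∫⁻ z in B, ‖φ y - φ (y + (1 / 2 : ℝ) • (z - y))‖ₑ) +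
        ∫⁻ y in B, ∫⁻ z in B, ‖φ z - φ (z + (1 / 2 : ℝ) • (y - z))‖ₑ := by
        rw [← lintegral_add_left (h1.measurable.lintegral_prod_right')]
        apply lintegral_congr
        intro y
        rw [lintegral_add_left]
        exact (h1.comp (by fun_prop : Continuous (fun z : Sp n => ((y, z) : Sp n × Sp n)))).measurable
    _ = 2 * ∫⁻ y in B, ∫⁻ z in B, ‖φ y - φ (y + (1 / 2 : ℝ) • (z - y))‖ₑ := by
        rw [two_mul]
        congr 1
        rw [lintegral_lintegral_swap h2.measurable.aemeasurable]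
    _ ≤ _ := by
        exact mul_le_mul_right (core_half hr hφ) _

/-- Poincaré inequality for Lebesgue measure -/
theorem poincare_volume {p : ℝ} (hn : 1 ≤ n) (hp : 1 < p) :
    ∃ C : ℝ, 0 < C ∧ ∀ (x : Sp n) (r : ℝ), 0 < r → ∀ φ : Sp n → ℝ, ContDiff ℝ (⊤ : ℕ∞) φ →
      ⨍ y in Metric.ball x r, |φ y - ⨍ z in Metric.ball x r, φ z| ≤
        C * r * (⨍ y in Metric.ball x r, ‖gradient φ y‖ ^ p) ^ (1 / p) := by
  refine ⟨2 ^ (n + 1), by positivity, ?_⟩
  intro x r hr φ hφ
  have hc : Continuous φ := hφ.continuous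
  have hdc : Continuous (fderiv ℝ φ) := hφ.continuous_fderiv (by simp)
  set B := Metric.ball x r with hBdef
  have hBm : MeasurableSet B := Metric.isOpen_ball.measurableSet
  have hB0 : volume B ≠ 0 := (Metric.measure_ball_pos volume x hr).ne'
  have hBt : volume B ≠ ∞ := measure_ball_lt_top.ne
  have hint : ∀ {f : Sp n → ℝ}, Continuous f → IntegrableOn f B := by
    intro f hf
    exact (hf.continuousOn.integrableOn_compact (isCompact_closedBall x r)).mono_set
      Metric.ball_subset_closedBall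
  have hng : ∀ y, ‖gradient φ y‖ = ‖fderiv ℝ φ y‖ := by
    intro y
    rw [gradient]; exact LinearIsometryEquiv.norm_map _ _
  have hng' : (fun y => ‖gradient φ y‖) = fun y => ‖fderiv ℝ φ y‖ := funext hng
  simp only [hng]
  have hgc : Continuous (fun y => ‖fderiv ℝ φ y‖) := hdc.norm
  -- Jensen
  have hJ : (⨍ y in B, ‖fderiv ℝ φ y‖) ≤ (⨍ y in B, ‖fderiv ℝ φ y‖ ^ p) ^ (1 / p) := by
    have hne : NeZero (volume.restrict B) := by
      refine ⟨?_⟩
      intro h
      apply hB0
      have := Measure.restrict_apply_univ (μ := volume) B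
      rw [h] at this
      simpa using this.symm
    haveI : IsFiniteMeasure (volume.restrict B) := ⟨by rw [Measure.restrict_apply_univ]; exact hBt.lt_top⟩
    have hcv := (convexOn_rpow hp.le).map_average_le (μ := volume.restrict B)
      (f := fun y => ‖fderiv ℝ φ y‖)
      (Real.continuous_rpow_const (by linarith)).continuousOn isClosed_Ici
      (Filter.Eventually.of_forall fun y => norm_nonneg _) (hint hgc)
      (hint ((Real.continuous_rpow_const (by linarith)).comp hgc))
    have h0 : 0 ≤ ⨍ y in B, ‖fderiv ℝ φ y‖ := by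
      rw [setAverage_eq]
      exact smul_nonneg (by positivity) (integral_nonneg fun y => norm_nonneg _)
    have hp0 : 0 < p := by linarith
    have h1 : ((⨍ y in B, ‖fderiv ℝ φ y‖) ^ p) ^ (1 / p) ≤ (⨍ y in B, ‖fderiv ℝ φ y‖ ^ p) ^ (1 / p) :=
      Real.rpow_le_rpow (Real.rpow_nonneg h0 _) hcv (by positivity)
    rwa [← Real.rpow_mul h0, mul_one_div_cancel hp0.ne', Real.rpow_one] at h1
  have hmain : ⨍ y in B, |φ y - ⨍ z in B, φ z| ≤ 2 ^ (n + 1) * r * ⨍ y in B, ‖fderiv ℝ φ y‖ := by
    have hV : 0 < volume.real B := ENNReal.toReal_pos hB0 hBt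
    have hcA : Continuous (fun y => |φ y - ⨍ z in B, φ z|) := (hc.sub continuous_const).abs
    rw [setAverage_eq, setAverage_eq (f := fun y => ‖fderiv ℝ φ y‖), smul_eq_mul, smul_eq_mul]
    suffices h : ∫ y in B, |φ y - ⨍ z in B, φ z| ≤ 2 ^ (n + 1) * r * ∫ y in B, ‖fderiv ℝ φ y‖ by
      calc (volume.real B)⁻¹ * ∫ y in B, |φ y - ⨍ z in B, φ z|
          ≤ (volume.real B)⁻¹ * (2 ^ (n + 1) * r * ∫ y in B, ‖fderiv ℝ φ y‖) :=
            mul_le_mul_of_nonneg_left h (by positivity)
        _ = _ := by ring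
    have hI0 : 0 ≤ ∫ y in B, ‖fderiv ℝ φ y‖ := integral_nonneg fun y => norm_nonneg _
    rw [← ENNReal.ofReal_le_ofReal_iff (by positivity)]
    have e1 : ENNReal.ofReal (∫ y in B, |φ y - ⨍ z in B, φ z|) =
        ∫⁻ y in B, ‖φ y - ⨍ z in B, φ z‖ₑ := by
      have hcB : Continuous (fun y => φ y - ⨍ z in B, φ z) := hc.sub continuous_const
      have := ofReal_integral_norm_eq_lintegral_enorm (hint hcB)
      simpa only [Real.norm_eq_abs] using this
    have e2 : ENNReal.ofReal (∫ y in B, ‖fderiv ℝ φ y‖) = ∫⁻ y in B, ‖fderiv ℝ φ y‖ₑ := by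
      have := ofReal_integral_norm_eq_lintegral_enorm (hint hgc)
      simpa using this
    have hpt : ∀ y, ‖φ y - ⨍ z in B, φ z‖ₑ ≤ (volume B)⁻¹ * ∫⁻ z in B, ‖φ y - φ z‖ₑ := by
      intro y
      have e3 : φ y - ⨍ z in B, φ z = ⨍ z in B, (φ y - φ z) := by
        rw [setAverage_eq, setAverage_eq, integral_sub (hint continuous_const) (hint hc),
          setIntegral_const, smul_sub, smul_smul, inv_mul_cancel₀ hV.ne', one_smul]
      rw [e3]
      unfold average
      refine (enorm_integral_le_lintegral_enorm _).trans ?_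
      rw [lintegral_smul_measure, Measure.restrict_apply_univ]
      exact le_refl _
    rw [e1, ENNReal.ofReal_mul (by positivity), e2]
    calc ∫⁻ y in B, ‖φ y - ⨍ z in B, φ z‖ₑ
        ≤ ∫⁻ y in B, (volume B)⁻¹ * ∫⁻ z in B, ‖φ y - φ z‖ₑ := lintegral_mono hpt
      _ = (volume B)⁻¹ * ∫⁻ y in B, ∫⁻ z in B, ‖φ y - φ z‖ₑ := by
          rw [lintegral_const_mul]
          have hm : Continuous (fun q : Sp n × Sp n => ‖φ q.1 - φ q.2‖ₑ) :=
            ((hc.comp continuous_fst).sub (hc.comp continuous_snd)).enorm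
          exact hm.measurable.lintegral_prod_right'
      _ ≤ (volume B)⁻¹ * (2 * (ENNReal.ofReal (2 ^ n * r) * volume B *
            ∫⁻ y in B, ‖fderiv ℝ φ y‖ₑ)) := mul_le_mul_right (core hr hφ) _
      _ = ((volume B)⁻¹ * volume B) * ((2 * ENNReal.ofReal (2 ^ n * r)) *
            ∫⁻ y in B, ‖fderiv ℝ φ y‖ₑ) := by ring
      _ = ENNReal.ofReal (2 ^ (n + 1) * r) * ∫⁻ y in B, ‖fderiv ℝ φ y‖ₑ := by
          rw [ENNReal.inv_mul_cancel hB0 hBt, one_mul]
          congr 1
          have e4 : (2 : ℝ≥0∞) = ENNReal.ofReal 2 := by norm_num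
          rw [e4, ← ENNReal.ofReal_mul (by norm_num)]
          congr 1; ring
  exact hmain.trans (mul_le_mul_of_nonneg_left hJ (by positivity))

end P0


end

end Pool.Agent.Helper533.Polar
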