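import Pool.Agent.Helper533.NHM.Defs
open MeasureTheory Filter Topology Set
open scoped ENNReal NNReal RealInnerProductSpace

namespace Pool.Agent.Helper533.Polar

section


section P1
variable {n : ℕ} {p α β Cd θ Cs lam Cp : ℝ} {μ : Measure (Sp n)} {A : Sp n → Sp n → Sp n}
  {ρ ω : Sp n → ℝ} {W : Sp n → Sp n}



theorem CObs_boundary_thick (hadm : Adm p μ Cd θ Cs lam Cp) {y0 y : Sp n} {s : ℝ} (hs : 0 < s)
    (hy : y ∈ Metric.sphere y0 s) {r : ℝ} (hr : 0 < r) :
    (Cd ^ 2)⁻¹ * μ.real (Metric.ball y r) ≤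
      μ.real {z | z ∈ Metric.ball y r ∧ z ∉ Metric.ball y0 s} := by
  have hCd : 0 < Cd := lt_of_lt_of_le one_pos hadm.one_le_Cd
  set c : Sp n := y + (r / (2 * s)) • (y - y0) with hc
  have hys : ‖y - y0‖ = s := by rw [← dist_eq_norm]; exact hy
  have hcy : dist c y = r / 2 := by
    rw [dist_eq_norm, hc, add_sub_cancel_left, norm_smul, hys, Real.norm_of_nonneg (by positivity)]
    field_simp
  have hcy0 : dist c y0 = s + r / 2 := by
    have e1 : c - y0 = (1 + r / (2 * s)) • (y - y0) := by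
      rw [hc, add_smul, one_smul]; abel
    rw [dist_eq_norm, e1, norm_smul, hys, Real.norm_of_nonneg (by positivity)]
    field_simp
  have hsub1 : Metric.ball c (r / 2) ⊆ {z | z ∈ Metric.ball y r ∧ z ∉ Metric.ball y0 s} := by
    intro z hz
    rw [Metric.mem_ball] at hz
    constructor
    · rw [Metric.mem_ball]
      calc dist z y ≤ dist z c + dist c y := dist_triangle _ _ _
        _ < r / 2 + r / 2 := by rw [hcy]; linarith
        _ = r := by ring
    · rw [Metric.mem_ball, not_lt]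
      have := dist_triangle c z y0
      rw [hcy0, dist_comm c z] at this
      linarith
  have hsub2 : Metric.ball y r ⊆ Metric.ball c (2 * (2 * (r / 2))) := by
    intro z hz
    rw [Metric.mem_ball] at hz ⊢
    calc dist z c ≤ dist z y + dist y c := dist_triangle _ _ _
      _ < r + r / 2 := by rw [dist_comm y c, hcy]; linarith
      _ ≤ 2 * (2 * (r / 2)) := by linarith
  have h1 : μ.real (Metric.ball y r) ≤ μ.real (Metric.ball c (2 * (2 * (r / 2)))) :=
    measureReal_mono hsub2 (hadm.fin _ _).ne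
  have h2 := hadm.dbl c (2 * (r / 2)) (by linarith)
  have h3 := hadm.dbl c (r / 2) (by linarith)
  have h4 : μ.real (Metric.ball c (r / 2)) ≤
      μ.real {z | z ∈ Metric.ball y r ∧ z ∉ Metric.ball y0 s} := by
    refine measureReal_mono hsub1 (ne_top_of_le_ne_top (hadm.fin y r).ne (measure_mono ?_))
    intro z hz
    exact hz.1
  have h5 : μ.real (Metric.ball y r) ≤ Cd ^ 2 * μ.real (Metric.ball c (r / 2)) := by
    calc μ.real (Metric.ball y r) ≤ _ := h1
      _ ≤ _ := h2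
      _ ≤ Cd * (Cd * μ.real (Metric.ball c (r / 2))) := mul_le_mul_of_nonneg_left h3 hCd.le
      _ = _ := by ring
  rw [inv_mul_le_iff₀ (by positivity)]
  exact h5.trans (mul_le_mul_of_nonneg_left h4 (by positivity))

theorem CObs_boundary_step (hp : 1 < p) (hα : 0 < α) (hβ : 0 < β) {γ : ℝ} (hγ : 0 < γ) :
    ∃ δ : ℝ, 0 < δ ∧ δ < 1 ∧ ∀ (μ : Measure (Sp n)) [IsFiniteMeasureOnCompacts μ]
      (A : Sp n → Sp n → Sp n), Op p α β μ A → Adm p μ Cd θ Cs lam Cp → ∀ (D : Set (Sp n))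
      (ρ ω : Sp n → ℝ) (W : Sp n → Sp n), Obs A p μ D ρ ω W →
      ∀ S : ℝ, 0 < S → ∀ (y : Sp n) (r : ℝ), 0 < r →
      (∀ z ∈ Metric.ball y (2 * lam * r), ρ z = 0) →
      (∀ᵐ x ∂μ, x ∈ Metric.ball y (2 * lam * r) → ω x ≤ S) →
      γ * μ.real (Metric.ball y r) ≤ μ.real {z | z ∈ Metric.ball y r ∧ z ∉ D} →
      ∀ᵐ z ∂μ, z ∈ Metric.ball y (r / 2) → ω z ≤ (1 - δ) * S := by
  obtain ⟨δ, hδ0, hδ1, H⟩ := DG2 (n := n) (p := p) (α := α) (β := β) (Cd := Cd) (θ := θ) (Cs := Cs)
    (lam := lam) (Cp := Cp) hp hα hβ hγ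
  refine ⟨δ, hδ0, hδ1, ?_⟩
  intro μ hμ A hA hadm D ρ ω W hobs S hS y r hr hρ hω hγr
  set G := Metric.ball y (2 * lam * r) with hG
  have hsub := hobs.sub_above hp hα hβ hA (k := 0) le_rfl (G := G) Metric.isOpen_ball
    (fun x hx => (hρ x hx).le)
  have hsup := hsub.const_sub hp hA S
  have hnn : ∀ᵐ x ∂μ, x ∈ G → 0 ≤ S - max (ω x - 0) 0 := by
    filter_upwards [hω] with x hx hxG
    have := hx hxG
    rw [sub_zero, sub_nonneg]
    exact max_le this hS.le
  have hzero := hobs.h0.zero_outside hp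
  have hmeas : γ * μ.real (Metric.ball y r) ≤
      μ.real {z | z ∈ Metric.ball y r ∧ S ≤ S - max (ω z - 0) 0} := by
    refine hγr.trans ?_
    refine ENNReal.toReal_mono (ne_top_of_le_ne_top (hadm.fin y r).ne (measure_mono fun z hz => hz.1)) ?_
    refine measure_mono_ae ?_
    filter_upwards [hzero] with z hz hz2
    refine ⟨hz2.1, ?_⟩
    rw [(hz hz2.2).1]
    simp
  have h2 := H μ A hA hadm G Metric.isOpen_ball _ _ hsup hnn y r hr subset_rfl S hS hmeas
  filter_upwards [h2] with z hz hzb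
  have h3 := hz hzb
  have h4 : ω z ≤ max (ω z - 0) 0 := by rw [sub_zero]; exact le_max_left _ _
  linarith

/-- boundary continuity of obstacle solutions in a ball -/
theorem CObs.boundary [IsFiniteMeasureOnCompacts μ] (hn : 1 ≤ n) (hp : 1 < p) (hα : 0 < α)
    (hβ : 0 < β) (hA : Op p α β μ A) (hadm : Adm p μ Cd θ Cs lam Cp) {y0 : Sp n} {s : ℝ}
    (hs : 0 < s) (hρ : Cc (Metric.ball y0 s) ρ) (hρ0 : ∀ x, 0 ≤ ρ x)
    (h : CObs A p μ (Metric.ball y0 s) ρ ω W) :
    ∀ y ∈ Metric.sphere y0 s, ∀ e : ℝ, 0 < e → ∃ r : ℝ, 0 < r ∧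
      ∀ x ∈ Metric.ball y0 s, x ∈ Metric.ball y r → ω x ≤ e := by
  intro y hy e he
  have hCd : 0 < Cd := lt_of_lt_of_le one_pos hadm.one_le_Cd
  have hlam : 0 < lam := lt_of_lt_of_le one_pos hadm.one_le_lam
  -- `ρ` vanishes near `y`
  have hyt : y ∉ tsupport ρ := by
    intro hyt
    have h1 := hρ.supp hyt
    rw [Metric.mem_ball] at h1
    rw [Metric.mem_sphere] at hy
    linarith
  obtain ⟨R0, hR0, hR0s⟩ := Metric.isOpen_iff.1 (isClosed_tsupport ρ).isOpen_compl y hyt
  have hρz : ∀ z ∈ Metric.ball y R0, ρ z = 0 := by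
    intro z hz
    exact image_eq_zero_of_notMem_tsupport (hR0s hz)
  -- `ρ` is bounded
  obtain ⟨S0, hS0⟩ := hρ.comp.exists_bound_of_continuous hρ.cont
  set S : ℝ := max S0 1 with hSdef
  have hS : 0 < S := lt_of_lt_of_le one_pos (le_max_right _ _)
  have hρS : ∀ x, ρ x ≤ S := fun x => (le_abs_self _).trans ((hS0 x).trans (le_max_left _ _))
  have hωS : ∀ᵐ x ∂μ, ω x ≤ S :=
    h.obs.le_const hp hα hβ hA hadm Metric.isBounded_ball hS.le hρS
  obtain ⟨δ, hδ0, hδ1, H⟩ := CObs_boundary_step (n := n) (p := p) (α := α) (β := β) (Cd := Cd)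
    (θ := θ) (Cs := Cs) (lam := lam) (Cp := Cp) hp hα hβ (γ := (Cd ^ 2)⁻¹) (by positivity)
  have iter : ∀ j : ℕ, ∃ r : ℝ, 0 < r ∧ 2 * lam * r ≤ R0 ∧
      ∀ᵐ x ∂μ, x ∈ Metric.ball y (2 * lam * r) → ω x ≤ (1 - δ) ^ j * S := by
    intro j
    induction j with
    | zero =>
      refine ⟨R0 / (2 * lam), by positivity, ?_, ?_⟩
      · rw [mul_div_cancel₀ _ (by positivity)]
      · filter_upwards [hωS] with x hx _
        simpa using hx
    | succ j ih =>
      obtain ⟨r, hr, hrR, hrω⟩ := ih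
      have h1δ : 0 < 1 - δ := by linarith
      have hstep := H μ A hA hadm (Metric.ball y0 s) ρ ω W h.obs ((1 - δ) ^ j * S) (by positivity)
        y r hr (fun z hz => hρz z (Metric.ball_subset_ball hrR hz)) hrω
        (CObs_boundary_thick hadm hs hy hr)
      refine ⟨r / (4 * lam), by positivity, ?_, ?_⟩
      · have e1 : 2 * lam * (r / (4 * lam)) = r / 2 := by field_simp; ring
        rw [e1]
        have : 1 * r ≤ lam * r := mul_le_mul_of_nonneg_right hadm.one_le_lam hr.le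
        nlinarith
      · have e1 : 2 * lam * (r / (4 * lam)) = r / 2 := by field_simp; ring
        rw [e1]
        filter_upwards [hstep] with x hx hxb
        have := hx hxb
        rw [pow_succ]
        linarith
  obtain ⟨j, hj⟩ := exists_pow_lt_of_lt_one (div_pos he hS) (by linarith : 1 - δ < 1)
  obtain ⟨r, hr, hrR, hrω⟩ := iter j
  have hje : (1 - δ) ^ j * S ≤ e := ((lt_div_iff₀ hS).1 hj).le
  refine ⟨2 * lam * r, by positivity, ?_⟩
  have key := nonneg_of_ae (μ := μ) hadm.pos (O := Metric.ball y0 s ∩ Metric.ball y (2 * lam * r))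
    (Metric.isOpen_ball.inter Metric.isOpen_ball) (g := fun x => e - ω x)
    (continuousOn_const.sub (h.cont.mono inter_subset_left)) (by
      filter_upwards [hrω] with x hx hxO
      have := hx hxO.2
      linarith)
  intro x hx hxr
  have := key x ⟨hx, hxr⟩
  linarith

end P1


end

section


section P1
variable {n : ℕ} {p α β Cd θ Cs lam Cp : ℝ} {μ : Measure (Sp n)} {A : Sp n → Sp n → Sp n}
  {ρ ω : Sp n → ℝ} {W : Sp n → Sp n}


/-- globally continuous obstacle solutions in a ball -/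
theorem exists_raw [IsFiniteMeasureOnCompacts μ] (hn : 1 ≤ n) (hp : 1 < p) (hα : 0 < α)
    (hβ : 0 < β) (hA : Op p α β μ A) (hadm : Adm p μ Cd θ Cs lam Cp) {y0 : Sp n} {s : ℝ}
    (hs : 0 < s) (hρ : Cc (Metric.ball y0 s) ρ) (hρ0 : ∀ x, 0 ≤ ρ x ∧ ρ x ≤ 1) :
    ∃ (ω : Sp n → ℝ) (W : Sp n → Sp n), CObs A p μ (Metric.ball y0 s) ρ ω W ∧ Continuous ω ∧
      (∀ x, 0 ≤ ω x ∧ ω x ≤ 1) ∧ (∀ x, ρ x ≤ ω x) ∧ ∀ x, x ∉ Metric.ball y0 s → ω x = 0 := by
  classical
  obtain ⟨ω, W, h⟩ := exists_cobs hp hα hβ hA hadm Metric.isOpen_ball Metric.isBounded_ball hρ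
    (fun x => (hρ0 x).1)
  have hz := H0.zero_outside hp h.obs.h0
  have hbd := h.boundary hn hp hα hβ hA hadm hs hρ (fun x => (hρ0 x).1)
  have hle := h.le_const hp hα hβ hA hadm Metric.isOpen_ball Metric.isBounded_ball
    (zero_le_one) (fun x => (hρ0 x).2)
  have hρout : ∀ x, x ∉ Metric.ball y0 s → ρ x = 0 := fun x hx =>
    zero_of_notMem (fun hx' => hx (hρ.supp hx'))
  set ω' : Sp n → ℝ := (Metric.ball y0 s).indicator ω with hω'
  have hin : ∀ x ∈ Metric.ball y0 s, ω' x = ω x := fun x hx => Set.indicator_of_mem hx _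
  have hout : ∀ x, x ∉ Metric.ball y0 s → ω' x = 0 := fun x hx => Set.indicator_of_notMem hx _
  have hnn : ∀ x, 0 ≤ ω' x := by
    intro x
    by_cases hx : x ∈ Metric.ball y0 s
    · rw [hin x hx]; exact (hρ0 x).1.trans (h.ge x hx)
    · rw [hout x hx]
  have hρω : ∀ x, ρ x ≤ ω' x := by
    intro x
    by_cases hx : x ∈ Metric.ball y0 s
    · rw [hin x hx]; exact h.ge x hx
    · rw [hout x hx, hρout x hx]
  have hcont : Continuous ω' := by
    rw [continuous_iff_continuousAt]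
    intro x
    rcases lt_trichotomy (dist x y0) s with hx | hx | hx
    · have hxm : x ∈ Metric.ball y0 s := hx
      have h1 : ContinuousAt ω x := h.cont.continuousAt (Metric.isOpen_ball.mem_nhds hxm)
      refine h1.congr ?_
      filter_upwards [Metric.isOpen_ball.mem_nhds hxm] with y hy
      exact (hin y hy).symm
    · have hx0 : ω' x = 0 := hout x (by simp [hx])
      rw [Metric.continuousAt_iff]
      intro e he
      obtain ⟨r, hr, hr'⟩ := hbd x hx (e / 2) (by positivity)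
      refine ⟨r, hr, fun {y} hy => ?_⟩
      rw [hx0, Real.dist_eq, sub_zero, abs_of_nonneg (hnn y)]
      by_cases hyD : y ∈ Metric.ball y0 s
      · rw [hin y hyD]
        have := hr' y hyD hy
        linarith
      · rw [hout y hyD]; exact he
    · have hev : ω' =ᶠ[𝓝 x] fun _ => 0 := by
        have : {y | s < dist y y0} ∈ 𝓝 x :=
          (isOpen_lt continuous_const (continuous_id.dist continuous_const)).mem_nhds hx
        filter_upwards [this] with y hy
        apply hout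
        simp only [Metric.mem_ball, not_lt]
        exact le_of_lt hy
      exact (continuousAt_const.congr hev.symm)
  refine ⟨ω', W, ⟨⟨?_, ?_, h.obs.vi⟩, ?_, ?_⟩, hcont, ?_, hρω, hout⟩
  · refine H0.congr h.obs.h0 ?_ (Filter.EventuallyEq.refl _ _)
    filter_upwards [hz] with x hx
    by_cases hxD : x ∈ Metric.ball y0 s
    · exact (hin x hxD).symm
    · rw [hout x hxD]; exact (hx hxD).1
  · exact Filter.Eventually.of_forall hρω
  · exact hcont.continuousOn
  · intro x _; exact hρω x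
  · intro x
    refine ⟨hnn x, ?_⟩
    by_cases hx : x ∈ Metric.ball y0 s
    · rw [hin x hx]; exact hle x hx
    · rw [hout x hx]; exact zero_le_one

end P1


end

section


section P1
variable {n : ℕ} {p α β Cd θ Cs lam Cp : ℝ} {μ : Measure (Sp n)} {A : Sp n → Sp n → Sp n}
  {ρ ω : Sp n → ℝ} {W : Sp n → Sp n}



private theorem aux_flux_memLp (hp : 1 < p) (hA : Op p α β μ A) {V : Sp n → Sp n}
    (hV : MemLp V (ENNReal.ofReal p) μ) :
    MemLp (fun x => A x (V x)) (ENNReal.ofReal p / ENNReal.ofReal (p - 1)) μ := by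
  have h1 := hV.norm_rpow_div (ENNReal.ofReal (p - 1))
  rw [ENNReal.toReal_ofReal (by linarith)] at h1
  refine MemLp.of_le (h1.const_mul |β|) (hA.meas V hV.1) ?_
  filter_upwards [hA.bdd] with x hx
  refine (hx (V x)).trans ?_
  have h2 : 0 ≤ ‖V x‖ ^ (p - 1) := Real.rpow_nonneg (norm_nonneg _) _
  rw [Real.norm_eq_abs, abs_mul, abs_abs, abs_of_nonneg h2]
  exact mul_le_mul_of_nonneg_right (le_abs_self β) h2

private theorem aux_holder (hp : 1 < p) :
    ENNReal.HolderTriple (ENNReal.ofReal p / ENNReal.ofReal (p - 1)) (ENNReal.ofReal p) 1 := by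
  refine ⟨?_⟩
  have hp0 : 0 < p := by linarith
  have hp1 : 0 < p - 1 := by linarith
  rw [← ENNReal.ofReal_div_of_pos hp1, ← ENNReal.ofReal_inv_of_pos (by positivity),
    ← ENNReal.ofReal_inv_of_pos hp0, ← ENNReal.ofReal_add (by positivity) (by positivity), inv_one,
    ← ENNReal.ofReal_one]
  congr 1
  field_simp
  ring

private theorem aux_flux_norm (hp : 1 < p) (hA : Op p α β μ A) {V H : Sp n → Sp n}
    (hV : MemLp V (ENNReal.ofReal p) μ) (hH : MemLp H (ENNReal.ofReal p) μ) :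
    eLpNorm (fun x => ⟪A x (V x), H x⟫) 1 μ ≤
      eLpNorm (fun x => A x (V x)) (ENNReal.ofReal p / ENNReal.ofReal (p - 1)) μ *
        eLpNorm H (ENNReal.ofReal p) μ := by
  haveI := aux_holder hp
  have h1 := eLpNorm_le_eLpNorm_mul_eLpNorm_of_nnnorm (p := ENNReal.ofReal p / ENNReal.ofReal (p - 1))
    (q := ENNReal.ofReal p) (r := 1) (μ := μ) (aux_flux_memLp hp hA hV).1 hH.1
    (fun a b => ⟪a, b⟫) 1 (Eventually.of_forall fun x => by
      rw [one_mul]
      exact nnnorm_inner_le_nnnorm (𝕜 := ℝ) (A x (V x)) (H x))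
  simpa using h1

/-- convergence of the flux integrals -/
private theorem aux_tendsto_flux (hp : 1 < p) (hA : Op p α β μ A) {V F : Sp n → Sp n}
    (hV : MemLp V (ENNReal.ofReal p) μ) (hF : MemLp F (ENNReal.ofReal p) μ)
    {Fj : ℕ → Sp n → Sp n}
    (hFj : ∀ j, MemLp (Fj j) (ENNReal.ofReal p) μ)
    (hlim : Tendsto (fun j => eLpNorm (fun x => F x - Fj j x) (ENNReal.ofReal p) μ) atTop (𝓝 0)) :
    Tendsto (fun j => ∫ x, ⟪A x (V x), Fj j x⟫ ∂μ) atTop (𝓝 (∫ x, ⟪A x (V x), F x⟫ ∂μ)) := by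
  refine tendsto_integral_of_L1' _ (int_inner hp hA hV hF).aestronglyMeasurable
    (Eventually.of_forall fun j => int_inner hp hA hV (hFj j)) ?_
  have hb : ∀ j, eLpNorm ((fun x => ⟪A x (V x), Fj j x⟫) -
      fun x => ⟪A x (V x), F x⟫) 1 μ ≤
      eLpNorm (fun x => A x (V x)) (ENNReal.ofReal p / ENNReal.ofReal (p - 1)) μ *
        eLpNorm (fun x => F x - Fj j x) (ENNReal.ofReal p) μ := by
    intro j
    have e : ((fun x => ⟪A x (V x), Fj j x⟫) -
        fun x => ⟪A x (V x), F x⟫) = - (fun x => ⟪A x (V x), F x - Fj j x⟫) := by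
      ext x
      simp only [Pi.sub_apply, Pi.neg_apply, inner_sub_right]
      ring
    rw [e, eLpNorm_neg]
    exact aux_flux_norm hp hA hV (hF.sub (hFj j))
  have hfin : eLpNorm (fun x => A x (V x)) (ENNReal.ofReal p / ENNReal.ofReal (p - 1)) μ ≠ ∞ :=
    (aux_flux_memLp hp hA hV).2.ne
  have hz := ENNReal.Tendsto.const_mul hlim (Or.inr hfin)
  rw [mul_zero] at hz
  exact tendsto_of_tendsto_of_tendsto_of_le_of_le tendsto_const_nhds hz (fun _ => zero_le) hb

/-- a pair with zero function part has zero flux -/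
private theorem aux_zero (hp : 1 < p) {D : Set (Sp n)} {E : Sp n → Sp n} {t : Sp n → ℝ}
    [IsFiniteMeasureOnCompacts μ]
    (hSup : HSup A p μ D ω W) (hE : H0 p μ D t E) (ht : ∀ᵐ x ∂μ, t x = 0) :
    ∫ x, ⟪A x (W x), E x⟫ ∂μ = 0 := by
  have h1 := hSup.test _ _ hE (by filter_upwards [ht] with x hx; rw [hx])
  have h2 := hSup.test _ _ hE.neg (by filter_upwards [ht] with x hx; rw [hx, neg_zero])
  simp only [inner_neg_right] at h2
  rw [integral_neg] at h2
  linarith

/-- obstacle solutions are solutions off the support of the obstacle -/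
theorem CObs.harm_off [IsFiniteMeasureOnCompacts μ] (hp : 1 < p) (hα : 0 < α)
    (hβ : 0 < β) (hA : Op p α β μ A) {D B : Set (Sp n)} (hD : IsOpen D) (hρ : Cc D ρ)
    (hρ0 : ∀ x, 0 ≤ ρ x) (h : CObs A p μ D ρ ω W) (hB : IsOpen B) (hρB : tsupport ρ ⊆ B)
    {T : Sp n → ℝ} {TT : Sp n → Sp n} (hT : H0 p μ D T TT) (hT0 : ∀ᵐ x ∂μ, x ∈ B → T x = 0) :
    ∫ x, ⟪A x (W x), TT x⟫ ∂μ = 0 := by
  have hSup : HSup A p μ D ω W := Pool.Agent.Helper533.Polar.CObs.hsup hp h
  have hW := h.obs.h0.mU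
  have hp' : (1 : ℝ≥0∞) ≤ ENNReal.ofReal p := by simpa using ENNReal.ofReal_le_ofReal hp.le
  set G : Set (Sp n) := D \ tsupport ρ with hGdef
  have hG : IsOpen G := hD.sdiff (isClosed_tsupport ρ)
  have hGD : G ⊆ D := fun x hx => hx.1
  have hρG : ∀ x ∈ G, ρ x ≤ 0 := fun x hx => (zero_of_notMem hx.2).le
  have hSub := Obs.sub_above hp hα hβ hA h.obs (le_refl 0) hG hρG
  have hpos := H0.pos hp h.obs.h0 (le_refl 0)
  have hdiff := H0.sub hp.le h.obs.h0 hpos
  have hωnn : ∀ᵐ x ∂μ, 0 ≤ ω x := by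
    filter_upwards [h.obs.ge] with x hx
    exact (hρ0 x).trans hx
  have hω0 : ∀ᵐ x ∂μ, ω x - max (ω x - 0) 0 = 0 := by
    filter_upwards [hωnn] with x hx
    rw [sub_zero, max_eq_left hx, sub_self]
  have hI := aux_zero hp hSup hdiff hω0
  -- `W = 0` a.e. on `{ω ≤ 0}`
  have hWW : ∀ᵐ x ∂μ, (if 0 < ω x then (1 : ℝ) else 0) • W x = W x := by
    have hint := int_inner hp hA hW hdiff.mU
    have hnn : ∀ᵐ x ∂μ, 0 ≤ ⟪A x (W x), W x - (if 0 < ω x then (1 : ℝ) else 0) • W x⟫ := by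
      filter_upwards [hA.coer] with x hx
      by_cases h0 : 0 < ω x
      · rw [if_pos h0, one_smul, sub_self, inner_zero_right]
      · rw [if_neg h0, zero_smul, sub_zero]
        exact (mul_nonneg hα.le (Real.rpow_nonneg (norm_nonneg _) _)).trans (hx (W x))
    have hz := (integral_eq_zero_iff_of_nonneg_ae hnn hint).mp hI
    filter_upwards [hz, hA.coer] with x hx hc
    by_cases h0 : 0 < ω x
    · rw [if_pos h0, one_smul]
    · rw [if_neg h0, zero_smul]
      simp only [if_neg h0, zero_smul, sub_zero, Pi.zero_apply] at hx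
      have h1 := hc (W x)
      rw [hx] at h1
      have h2 : ‖W x‖ ^ p ≤ 0 := by
        by_contra hcon
        push Not at hcon
        have := mul_pos hα hcon
        linarith
      have h3 : ‖W x‖ ^ p = 0 := le_antisymm h2 (Real.rpow_nonneg (norm_nonneg _) _)
      have h4 : ‖W x‖ = 0 := by
        rw [Real.rpow_eq_zero_iff_of_nonneg (norm_nonneg _)] at h3
        exact h3.1
      exact (norm_eq_zero.mp h4).symm
  -- harmonic on `G` for nonnegative test functions
  have hharm0 : ∀ φ : Sp n → ℝ, Cc G φ → (∀ x, 0 ≤ φ x) → ∫ x, ⟪A x (W x), gradient φ x⟫ ∂μ = 0 := by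
    intro φ hφ hφ0
    apply le_antisymm
    · have h1 := hSub.2 φ hφ hφ0
      refine le_of_eq_of_le (integral_congr_ae ?_) h1
      filter_upwards [hWW] with x hx
      rw [hx]
    · exact hSup.test φ (gradient φ) (H0.of_Cc (hφ.mono hGD)) (Eventually.of_forall hφ0)
  have hharm : ∀ φ : Sp n → ℝ, Cc G φ → ∫ x, ⟪A x (W x), gradient φ x⟫ ∂μ = 0 := by
    intro φ hφ
    obtain ⟨C, hC⟩ := hφ.comp.exists_bound_of_continuous hφ.cont
    have hC0 : 0 ≤ C := (norm_nonneg _).trans (hC 0)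
    obtain ⟨η, hη, hη01, W0, hW0, hKW, hWG, hηW⟩ := exists_cutoff (K := tsupport φ) hφ.comp hG hφ.supp
    have hCη : Cc G (fun x => C * η x) := hη.const_mul C
    have h1 := hharm0 _ (hφ.add hCη) (fun x => by
      by_cases hx : x ∈ tsupport φ
      · rw [hηW x (hKW hx)]
        have := hC x
        rw [Real.norm_eq_abs] at this
        have := neg_abs_le (φ x)
        linarith
      · rw [zero_of_notMem hx]
        have := mul_nonneg hC0 (hη01 x).1
        linarith)
    have h2 := hharm0 _ hCη (fun x => mul_nonneg hC0 (hη01 x).1)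
    have e : ∀ x, ⟪A x (W x), gradient (fun y => φ y + C * η y) x⟫ =
        ⟪A x (W x), gradient φ x⟫ + ⟪A x (W x), gradient (fun y => C * η y) x⟫ := by
      intro x
      rw [grad_add (hφ.diff x) (hCη.diff x), inner_add_right]
    simp only [e] at h1
    rw [integral_add (int_inner hp hA hW (hφ.memLp_grad _)) (int_inner hp hA hW (hCη.memLp_grad _)),
      h2, add_zero] at h1
    exact h1
  -- cutoff
  obtain ⟨η, hη, hη01, W0, hW0, hKW, hWG, hηW⟩ := exists_cutoff (K := tsupport ρ) hρ.comp hB hρB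
  have hηT := (H0.mul_Cc hp hT hη).mono (D' := D) inter_subset_left
  have hηT0 : ∀ᵐ x ∂μ, η x * T x = 0 := by
    filter_upwards [hT0] with x hx
    by_cases hxB : x ∈ B
    · rw [hx hxB, mul_zero]
    · rw [zero_of_notMem (fun hh => hxB (hη.supp hh)), zero_mul]
  have hE0 := aux_zero hp hSup hηT hηT0
  obtain ⟨φ, hφ, hφ1, hφ2, -, -⟩ := hT.seq hp.le
  have hψD : ∀ j, Cc D (fun x => φ j x - η x * φ j x) := fun j =>
    (hφ j).sub ((hη.mul (hφ j)).mono inter_subset_right)
  have hψ : ∀ j, Cc G (fun x => φ j x - η x * φ j x) := by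
    intro j
    refine ⟨(hψD j).smooth, (hψD j).comp, ?_⟩
    intro x hx
    refine ⟨(hψD j).supp hx, fun hxρ => ?_⟩
    have hx0 : x ∉ tsupport (fun x => φ j x - η x * φ j x) := by
      rw [notMem_tsupport_iff_eventuallyEq]
      filter_upwards [hW0.mem_nhds (hKW hxρ)] with y hy
      simp [hηW y hy]
    exact hx0 hx
  have hgrad : ∀ j x, gradient (fun x => φ j x - η x * φ j x) x =
      gradient (φ j) x - (η x • gradient (φ j) x + φ j x • gradient η x) := by
    intro j x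
    have hd : DifferentiableAt ℝ (fun x => η x * φ j x) x := (hη.diff x).mul ((hφ j).diff x)
    rw [grad_sub ((hφ j).diff x) hd, grad_mul (hη.diff x) ((hφ j).diff x)]
  obtain ⟨M, hM⟩ := hη.comp_grad.exists_bound_of_continuous hη.cont_grad
  have hFm : MemLp (fun x => TT x - (η x • TT x + T x • gradient η x)) (ENNReal.ofReal p) μ :=
    hT.mU.sub hηT.mU
  have mη : AEStronglyMeasurable η μ := hη.cont.aestronglyMeasurable
  have mgη : AEStronglyMeasurable (gradient η) μ := hη.cont_grad.aestronglyMeasurable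
  have mφ : ∀ j, AEStronglyMeasurable (φ j) μ := fun j => (hφ j).cont.aestronglyMeasurable
  have mgφ : ∀ j, AEStronglyMeasurable (gradient (φ j)) μ :=
    fun j => (hφ j).cont_grad.aestronglyMeasurable
  have hlim : Tendsto (fun j => eLpNorm (fun x => (TT x - (η x • TT x + T x • gradient η x)) -
      gradient (fun x => φ j x - η x * φ j x) x) (ENNReal.ofReal p) μ) atTop (𝓝 0) := by
    have e : ∀ j, (fun x => (TT x - (η x • TT x + T x • gradient η x)) -
        gradient (fun x => φ j x - η x * φ j x) x) = fun x =>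
        (1 - η x) • (TT x - gradient (φ j) x) + (-(T x - φ j x)) • gradient η x := by
      intro j
      funext x
      rw [hgrad]
      module
    simp only [e]
    apply tend_add hp'
    · intro j
      exact (aestronglyMeasurable_const.sub mη).smul (hT.mU.1.sub (mgφ j))
    · intro j
      exact (hT.mu.1.sub (mφ j)).neg.smul mgη
    · exact tend_bdd_smul (c := 1) (fun j => Eventually.of_forall fun x => by
        rw [abs_le]
        constructor <;> linarith [(hη01 x).1, (hη01 x).2]) hφ2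
    · have hb : ∀ j, eLpNorm (fun x => (-(T x - φ j x)) • gradient η x) (ENNReal.ofReal p) μ ≤
          ENNReal.ofReal M * eLpNorm (fun x => T x - φ j x) (ENNReal.ofReal p) μ := by
        intro j
        apply eLpNorm_le_mul_eLpNorm_of_ae_le_mul
        refine Eventually.of_forall fun x => ?_
        rw [norm_smul, norm_neg, mul_comm]
        exact mul_le_mul_of_nonneg_right (hM x) (norm_nonneg _)
      have hz := ENNReal.Tendsto.const_mul (a := ENNReal.ofReal M) hφ1 (Or.inr ENNReal.ofReal_ne_top)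
      rw [mul_zero] at hz
      exact tendsto_of_tendsto_of_tendsto_of_le_of_le tendsto_const_nhds hz (fun _ => zero_le) hb
  have hten := aux_tendsto_flux hp hA hW hFm (fun j => (hψ j).memLp_grad _) hlim
  have hzero : ∀ j, ∫ x, ⟪A x (W x), gradient (fun x => φ j x - η x * φ j x) x⟫ ∂μ = 0 :=
    fun j => hharm _ (hψ j)
  simp only [hzero] at hten
  have hF0 := tendsto_nhds_unique hten tendsto_const_nhds
  simp only [inner_sub_right] at hF0
  rw [integral_sub (int_inner hp hA hW hT.mU) (int_inner hp hA hW hηT.mU), hE0, sub_zero] at hF0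
  exact hF0

end P1


end

section


section P1
variable {n : ℕ} {p α β Cd θ Cs lam Cp : ℝ} {μ : Measure (Sp n)} {A : Sp n → Sp n → Sp n}
  {ρ ω : Sp n → ℝ} {W : Sp n → Sp n}


/-- the mass of an obstacle solution -/
theorem CObs.mass [IsFiniteMeasureOnCompacts μ] (hp : 1 < p) (hα : 0 < α)
    (hβ : 0 < β) (hA : Op p α β μ A) (hadm : Adm p μ Cd θ Cs lam Cp) {D B : Set (Sp n)}
    (hD : IsOpen D) (hDb : Bornology.IsBounded D) (hρ : Cc D ρ)
    (hρ0 : ∀ x, 0 ≤ ρ x ∧ ρ x ≤ 1) (hρ1 : ∃ x, ρ x ≠ 0) (h : CObs A p μ D ρ ω W)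
    (hB : IsOpen B) (hρB : tsupport ρ ⊆ B)
    (hBc : IsCompact (closure B)) (hBD : closure B ⊆ D) :
    ∃ κ : ℝ, 0 < κ ∧
      (∀ (T : Sp n → ℝ) (TT : Sp n → Sp n) (k : ℝ), H0 p μ D T TT →
        (∀ᵐ x ∂μ, 0 ≤ T x ∧ T x ≤ k) → ∫ x, ⟪A x (W x), TT x⟫ ∂μ ≤ κ * k) ∧
      (∀ (T : Sp n → ℝ) (TT : Sp n → Sp n) (k : ℝ), H0 p μ D T TT →
        (∀ᵐ x ∂μ, x ∈ B → T x = k) → ∫ x, ⟪A x (W x), TT x⟫ ∂μ = κ * k) := by
  obtain ⟨ζ, hζ, hζ01, N, hN, hBN, hND, hζN⟩ := exists_cutoff hBc hD hBD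
  have hζB : ∀ x ∈ B, ζ x = 1 := fun x hx => hζN x (hBN (subset_closure hx))
  have hs := h.hsup hp
  have hW : MemLp W (ENNReal.ofReal p) μ := h.obs.h0.mU
  have hint : ∀ TT : Sp n → Sp n, MemLp TT (ENNReal.ofReal p) μ →
      Integrable (fun x => ⟪A x (W x), TT x⟫) μ := fun TT hTT => int_inner hp hA hW hTT
  have hζ0 : H0 p μ D ζ (gradient ζ) := H0.of_Cc hζ
  have hoff : ∀ (T : Sp n → ℝ) (TT : Sp n → Sp n), H0 p μ D T TT →
      (∀ᵐ x ∂μ, x ∈ B → T x = 0) → ∫ x, ⟪A x (W x), TT x⟫ ∂μ = 0 := fun T TT hT hT0 =>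
    CObs.harm_off hp hα hβ hA hD hρ (fun x => (hρ0 x).1) h hB hρB hT hT0
  -- first inequality
  have key1 : ∀ (T : Sp n → ℝ) (TT : Sp n → Sp n) (k : ℝ), H0 p μ D T TT →
        (∀ᵐ x ∂μ, 0 ≤ T x ∧ T x ≤ k) →
        ∫ x, ⟪A x (W x), TT x⟫ ∂μ ≤ (∫ x, ⟪A x (W x), gradient ζ x⟫ ∂μ) * k := by
    intro T TT k hT hTk
    have hf : H0 p μ D (fun x => k * ζ x - T x) (fun x => k • gradient ζ x - TT x) :=
      (hζ0.const_mul k).sub hp.le hT
    have hm := (hf.neg).pos hp (le_refl (0 : ℝ))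
    have hm0 : ∀ᵐ x ∂μ, x ∈ B → max (-(k * ζ x - T x) - 0) 0 = 0 := by
      filter_upwards [hTk] with x hx hxB
      rw [hζB x hxB]
      apply max_eq_right
      linarith [hx.2]
    have h1 := hoff _ _ hm hm0
    have hadd := hf.add hp.le hm
    have hnn : ∀ᵐ x ∂μ, 0 ≤ (k * ζ x - T x) + max (-(k * ζ x - T x) - 0) 0 := by
      refine Filter.Eventually.of_forall fun x => ?_
      have := le_max_left (-(k * ζ x - T x) - 0) 0
      linarith
    have h2 := hs.test _ _ hadd hnn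
    simp only [inner_add_right] at h2
    rw [integral_add (hint _ hf.mU) (hint _ hm.mU), h1, add_zero] at h2
    simp only [inner_sub_right, inner_smul_right] at h2
    rw [integral_sub ((hint _ hζ0.mU).const_mul k) (hint _ hT.mU), integral_const_mul] at h2
    linarith
  have key2 : ∀ (T : Sp n → ℝ) (TT : Sp n → Sp n) (k : ℝ), H0 p μ D T TT →
        (∀ᵐ x ∂μ, x ∈ B → T x = k) →
        ∫ x, ⟪A x (W x), TT x⟫ ∂μ = (∫ x, ⟪A x (W x), gradient ζ x⟫ ∂μ) * k := by
    intro T TT k hT hTk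
    have hf : H0 p μ D (fun x => k * ζ x - T x) (fun x => k • gradient ζ x - TT x) :=
      (hζ0.const_mul k).sub hp.le hT
    have hf0 : ∀ᵐ x ∂μ, x ∈ B → k * ζ x - T x = 0 := by
      filter_upwards [hTk] with x hx hxB
      rw [hζB x hxB, hx hxB]
      ring
    have h1 := hoff _ _ hf hf0
    simp only [inner_sub_right, inner_smul_right] at h1
    rw [integral_sub ((hint _ hζ0.mU).const_mul k) (hint _ hT.mU), integral_const_mul] at h1
    linarith
  refine ⟨∫ x, ⟪A x (W x), gradient ζ x⟫ ∂μ, ?_, key1, key2⟩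
  by_contra hκ
  push Not at hκ
  -- the bounds of ω
  have hω1 : ∀ x ∈ D, ω x ≤ 1 :=
    CObs.le_const hp hα hβ hA hadm hD hDb h zero_le_one (fun x => (hρ0 x).2)
  have hω : ∀ᵐ x ∂μ, 0 ≤ ω x ∧ ω x ≤ 1 := by
    filter_upwards [h.obs.ge, h.obs.h0.zero_outside hp] with x hx1 hx2
    refine ⟨(hρ0 x).1.trans hx1, ?_⟩
    by_cases hxD : x ∈ D
    · exact hω1 x hxD
    · rw [(hx2 hxD).1]
      exact zero_le_one
  have h1 := key1 ω W 1 h.obs.h0 hω
  have h2 : ∫ x, α * ‖W x‖ ^ p ∂μ ≤ ∫ x, ⟪A x (W x), W x⟫ ∂μ := by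
    apply integral_mono_ae ((int_rpow hp hW).const_mul α) (hint W hW)
    filter_upwards [hA.coer] with x hx
    exact hx (W x)
  rw [integral_const_mul] at h2
  have h3 : ∫ x, ‖W x‖ ^ p ∂μ ≤ 0 := by
    by_contra hc
    push Not at hc
    have := mul_pos hα hc
    linarith
  have hnn : ∀ x, 0 ≤ ‖W x‖ ^ p := fun x => Real.rpow_nonneg (norm_nonneg _) _
  have h4 : ∫ x, ‖W x‖ ^ p ∂μ = 0 := le_antisymm h3 (integral_nonneg hnn)
  have h5 : ∀ᵐ x ∂μ, ‖W x‖ ^ p = 0 := (integral_eq_zero_iff_of_nonneg hnn (int_rpow hp hW)).1 h4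
  have h6 : W =ᵐ[μ] 0 := by
    filter_upwards [h5] with x hx
    have := (Real.rpow_eq_zero (norm_nonneg _) (by linarith)).1 hx
    exact norm_eq_zero.1 this
  have h7 : eLpNorm W (ENNReal.ofReal p) μ = 0 := by
    rw [eLpNorm_congr_ae h6, eLpNorm_zero]
  obtain ⟨C, hC0, hC⟩ := friedrichs hp hadm hDb
  have h8 := hC ω W h.obs.h0
  rw [h7, mul_zero] at h8
  have h9 : ω =ᵐ[μ] 0 := by
    rw [← eLpNorm_eq_zero_iff h.obs.h0.mu.aestronglyMeasurable (p := ENNReal.ofReal p)
      (by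
        intro hc
        rw [ENNReal.ofReal_eq_zero] at hc
        linarith)]
    exact le_antisymm h8 zero_le
  -- contradiction
  obtain ⟨x0, hx0⟩ := hρ1
  have hx0' : 0 < ρ x0 := lt_of_le_of_ne (hρ0 x0).1 (Ne.symm hx0)
  have hopen : IsOpen {x | 0 < ρ x} := isOpen_lt continuous_const hρ.cont
  obtain ⟨r, hr, hball⟩ := Metric.isOpen_iff.1 hopen x0 hx0'
  have h10 : ∀ᵐ x ∂μ, x ∉ Metric.ball x0 r := by
    filter_upwards [h9, h.obs.ge] with x hx1 hx2 hx3
    have h11 : 0 < ρ x := hball hx3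
    rw [hx1] at hx2
    simp only [Pi.zero_apply] at hx2
    linarith
  have h12 : μ (Metric.ball x0 r) = 0 := measure_eq_zero_iff_ae_notMem.2 h10
  exact absurd h12 (hadm.pos x0 r hr).ne'

end P1


end

section


section P2
variable {n : ℕ} {α β Cd θ Cs lam Cp : ℝ} {A : Sp n → Sp n → Sp n} {D : Set (Sp n)}
  {a : Sp n} {t M : ℝ} {ω : Sp n → ℝ} {W : Sp n → Sp n}


/-- existence of normalised potentials -/
theorem exists_npot (hn : 2 ≤ n) (hα : 0 < α) (hβ : 0 < β)
    (hA : Op (n : ℝ) α β (volume : Measure (Sp n)) A) (hS : SMono (volume : Measure (Sp n)) A)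
    (hadm : Adm (n : ℝ) (volume : Measure (Sp n)) Cd θ Cs lam Cp) {y0 a : Sp n} {s t : ℝ}
    (hs : 0 < s) (ht : 0 < t) (hat : Metric.closedBall a (2 * t) ⊆ Metric.ball y0 s) :
    ∃ (ω : Sp n → ℝ) (W : Sp n → Sp n) (M : ℝ), NPot A (Metric.ball y0 s) a t ω W M := by
  have hn1 : (2 : ℝ) ≤ (n : ℝ) := by exact_mod_cast hn
  have hp : (1 : ℝ) < (n : ℝ) := by linarith
  set D : Set (Sp n) := Metric.ball y0 s with hDdef
  have hD : IsOpen D := Metric.isOpen_ball
  have hDb : Bornology.IsBounded D := Metric.isBounded_ball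
  obtain ⟨C0, -, hcut⟩ := exists_ball_cutoff n
  obtain ⟨ρ, hρcc, hρ01, hρ1, -⟩ := hcut a t (2 * t) ht (by linarith)
  have hBsub : Metric.ball a (2 * t) ⊆ D := Metric.ball_subset_closedBall.trans hat
  have hρD : Cc D ρ := hρcc.mono hBsub
  obtain ⟨ω0, W0, hC, hωc, hω01, hρω, hωout⟩ :=
    exists_raw (by omega) hp hα hβ hA hadm hs hρD hρ01
  have hclB : closure (Metric.ball a (2 * t)) ⊆ Metric.closedBall a (2 * t) :=
    Metric.closure_ball_subset_closedBall
  have hBc : IsCompact (closure (Metric.ball a (2 * t))) :=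
    (isCompact_closedBall a (2 * t)).of_isClosed_subset isClosed_closure hclB
  have hρa : ρ a = 1 := hρ1 a (Metric.mem_closedBall_self ht.le)
  obtain ⟨κ, hκ, hmle, hmeq⟩ := CObs.mass hp hα hβ hA hadm hD hDb hρD hρ01
    ⟨a, by rw [hρa]; exact one_ne_zero⟩ hC Metric.isOpen_ball hρcc.supp hBc (hclB.trans hat)
  have hρout : ∀ x, x ∉ Metric.ball a (2 * t) → ρ x = 0 := fun x hx =>
    zero_of_notMem (fun h => hx (hρcc.supp h))
  set τ : ℝ := κ ^ (-(1 / ((n : ℝ) - 1))) with hτdef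
  have hτ : 0 < τ := Real.rpow_pos_of_pos hκ _
  have hτp : τ * |τ| ^ ((n : ℝ) - 2) = κ⁻¹ := by
    rw [abs_of_pos hτ]
    have h1 : τ * τ ^ ((n : ℝ) - 2) = τ ^ ((n : ℝ) - 1) := by
      have h2 : (n : ℝ) - 1 = 1 + ((n : ℝ) - 2) := by ring
      rw [h2, Real.rpow_add hτ, Real.rpow_one]
    rw [h1, hτdef, ← Real.rpow_mul hκ.le]
    have h3 : -(1 / ((n : ℝ) - 1)) * ((n : ℝ) - 1) = -1 := by
      have : (n : ℝ) - 1 ≠ 0 := by linarith
      field_simp
    rw [h3, Real.rpow_neg_one]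
  have hint : ∀ TT : Sp n → Sp n, ∫ x, ⟪A x (τ • W0 x), TT x⟫ = κ⁻¹ * ∫ x, ⟪A x (W0 x), TT x⟫ := by
    intro TT
    rw [← integral_const_mul]
    apply integral_congr_ae
    filter_upwards [hA.hom] with x hx
    rw [hx τ (W0 x) hτ.ne', hτp, real_inner_smul_left]
  have hsup := hC.hsup hp
  refine ⟨fun x => τ * ω0 x, fun x => τ • W0 x, τ, ?_⟩
  refine ⟨continuous_const.mul hωc, hC.obs.h0.const_mul τ, ?_, ?_, ?_, ?_, ?_, ?_, ?_, ?_⟩
  · intro x
    have h1 := hω01 x
    exact ⟨mul_nonneg hτ.le h1.1, by nlinarith [h1.2]⟩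
  · intro x hx
    have h1 := hρω x
    rw [hρ1 x hx] at h1
    have h2 : ω0 x = 1 := le_antisymm (hω01 x).2 h1
    change τ * ω0 x = τ
    rw [h2, mul_one]
  · intro x hx
    rw [hωout x hx, mul_zero]
  · intro T TT hT hT0
    rw [hint]
    exact mul_nonneg (inv_nonneg.2 hκ.le) (hsup.test T TT hT hT0)
  · intro T TT k hT hT0
    rw [hint]
    have h1 := hmle T TT k hT hT0
    calc κ⁻¹ * ∫ x, ⟪A x (W0 x), TT x⟫ ≤ κ⁻¹ * (κ * k) := by gcongr
      _ = k := by field_simp
  · intro T TT k hT hT0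
    rw [hint, hmeq T TT k hT hT0]
    field_simp
  · -- maximum principle
    intro ρ' c hρ' hsub hsph x hx
    have hρ'0 : 0 < ρ' := by linarith
    have : Nonempty (Fin n) := ⟨⟨0, by omega⟩⟩
    have hne : (Metric.sphere a ρ').Nonempty := NormedSpace.sphere_nonempty.2 hρ'0.le
    obtain ⟨z, hz⟩ := hne
    have hc0 : 0 ≤ c := le_trans (mul_nonneg hτ.le (hω01 z).1) (hsph z hz)
    have hzsup : HSup A (n : ℝ) volume D (fun _ => (0 : ℝ)) (fun _ => (0 : Sp n)) :=
      ⟨H0.zero, fun T TT _ _ => by rw [dn_int0 hp hA TT]⟩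
    rcases hx.eq_or_lt with h | h
    · exact hsph x (by rw [Metric.mem_sphere]; exact h.symm)
    · by_cases hxD : x ∈ D
      · have h1 : ω0 x ≤ c / τ := by
          apply le_of_forall_pos_le_add
          intro ε hε
          have h2 := CObs.le_hsup_out hp hα hβ hA hS hadm hD hDb hρD hC hzsup
            continuousOn_const (c := c / τ + ε) (by positivity) (K := Metric.closedBall a ρ')
            (isCompact_closedBall a ρ') hsub (by
              intro w hw
              have hw' := Metric.frontier_closedBall_subset_sphere hw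
              have h3 := hsph w hw'
              have h4 : ω0 w ≤ c / τ := by
                rw [le_div_iff₀ hτ, mul_comm]
                exact h3
              linarith) (by
              intro w _ hw
              rw [hρout w (fun hw2 => hw (Metric.ball_subset_closedBall
                (Metric.ball_subset_ball hρ' hw2)))]
              positivity) x hxD (by
              rw [Metric.mem_closedBall, not_le]
              exact h)
          linarith
        rw [le_div_iff₀ hτ, mul_comm] at h1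
        exact h1
      · change τ * ω0 x ≤ c
        rw [hωout x hxD, mul_zero]
        exact hc0
  · -- minimum principle
    intro ρ' c hρ' hsub hsph x hx
    rcases hx.eq_or_lt with h | h
    · exact hsph x (by rw [Metric.mem_sphere]; exact h)
    · have hcmp := cmp_of_sup hp hα hβ hA hS hadm hD (hC.obs.sup hp) hωc.continuousOn
      have hclG : closure (Metric.ball a ρ') ⊆ Metric.closedBall a ρ' :=
        Metric.closure_ball_subset_closedBall
      have h1 := hcmp (Metric.ball a ρ') Metric.isOpen_ball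
        ((isCompact_closedBall a ρ').of_isClosed_subset isClosed_closure hclG) (hclG.trans hsub)
        (fun _ => c / τ) (fun _ => 0) continuousOn_const (LH.const (c / τ))
        (fun φ _ => dn_int0 hp hA (gradient φ)) (by
          intro w hw
          have hw' : w ∈ Metric.sphere a ρ' := Metric.frontier_ball_subset_sphere hw
          have h3 := hsph w hw'
          rw [div_le_iff₀ hτ, mul_comm]
          exact h3) x (Metric.mem_ball.2 h)
      rw [div_le_iff₀ hτ, mul_comm] at h1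
      exact h1

end P2


end

end Pool.Agent.Helper533.Polar
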