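import Pool.Agent.Helper533.NHM.PotA
open MeasureTheory Filter Topology Set
open scoped ENNReal NNReal RealInnerProductSpace

namespace Pool.Agent.Helper533.Polar

section


section P2
variable {n : ℕ} {α β Cd θ Cs lam Cp : ℝ} {A : Sp n → Sp n → Sp n} {D : Set (Sp n)}
  {a : Sp n} {t M : ℝ} {ω : Sp n → ℝ} {W : Sp n → Sp n}


/-- ring lemma -/
theorem NPot.ring (hn : 2 ≤ n) (hα : 0 < α)
    (hadm : Adm (n : ℝ) (volume : Measure (Sp n)) Cd θ Cs lam Cp) (Λ : ℝ) (hΛ : 1 ≤ Λ) :
    ∃ C : ℝ, 0 < C ∧ ∀ (β : ℝ) (A : Sp n → Sp n → Sp n), 0 < β → Op (n : ℝ) α β volume A →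
      ∀ (D : Set (Sp n)) (a : Sp n) (t : ℝ) (ω : Sp n → ℝ) (W : Sp n → Sp n) (M : ℝ),
      NPot A D a t ω W M → ∀ r1 r2 q Q : ℝ, 0 < r1 → r2 ≤ Λ * r1 → 0 ≤ Q →
      (∀ x, dist x a ≤ r1 → q ≤ ω x) → (∀ x, r2 ≤ dist x a → ω x ≤ Q) → q ≤ Q + C := by
  have hn1 : (1 : ℝ) < n := by
    have : (2 : ℝ) ≤ n := by exact_mod_cast hn
    linarith
  set w0 : ℝ := (volume : Measure (Sp n)).real (Metric.ball 0 1) with hw0
  have hw0p : 0 < w0 :=
    ENNReal.toReal_pos (hadm.pos 0 1 one_pos).ne' (hadm.fin 0 1).ne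
  set C0 : ℝ := Cs * (2 * Λ) ^ n / (α * w0) with hC0
  have hCs := hadm.Cs_pos
  have hC0p : 0 < C0 := by positivity
  refine ⟨1 + C0, by linarith, ?_⟩
  intro β A hβ hA D a t ω W M hN r1 r2 q Q hr1 hr2 hQ hq hQo
  by_cases hqQ : q ≤ Q + 1
  · linarith
  push Not at hqQ
  have hqQ' : Q < q := by linarith
  set d : ℝ := q - Q with hd
  have hd1 : 1 < d := by linarith
  have hd0 : 0 < d := by linarith
  set R : ℝ := Λ * r1 with hR
  have hRp : 0 < R := by positivity
  have hRr1 : r1 ≤ R := by
    rw [hR]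
    nlinarith
  have hout : ∀ x, x ∉ Metric.closedBall a R → ω x ≤ Q := by
    intro x hx
    apply hQo
    rw [Metric.mem_closedBall, not_le] at hx
    linarith
  -- the truncation
  have h1 := H0.pos hn1 hN.h0 hQ
  have h2 := H0.pos hn1 hN.h0 (hQ.trans hqQ'.le)
  have hT := H0.sub hn1.le h1 h2
  set T : Sp n → ℝ := fun x => max (ω x - Q) 0 - max (ω x - q) 0 with hTdef
  set TT : Sp n → Sp n := fun x => (if Q < ω x then (1 : ℝ) else 0) • W x -
    (if q < ω x then (1 : ℝ) else 0) • W x with hTTdef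
  have hT0 : ∀ x, 0 ≤ T x ∧ T x ≤ d := by
    intro x
    show 0 ≤ max (ω x - Q) 0 - max (ω x - q) 0 ∧ max (ω x - Q) 0 - max (ω x - q) 0 ≤ d
    rcases le_total (ω x - Q) 0 with h | h
    · rw [max_eq_right h, max_eq_right (by linarith)]
      constructor <;> linarith
    · rw [max_eq_left h]
      rcases le_total (ω x - q) 0 with h' | h'
      · rw [max_eq_right h']
        constructor <;> linarith
      · rw [max_eq_left h']
        constructor <;> linarith
  have hTin : ∀ x, dist x a ≤ r1 → T x = d := by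
    intro x hx
    have h3 := hq x hx
    show max (ω x - Q) 0 - max (ω x - q) 0 = d
    rw [max_eq_left (by linarith), max_eq_left (by linarith)]
    ring
  have hTout : ∀ x, x ∉ Metric.closedBall a R → T x = 0 := by
    intro x hx
    have h3 := hout x hx
    show max (ω x - Q) 0 - max (ω x - q) 0 = 0
    rw [max_eq_right (by linarith), max_eq_right (by linarith), sub_zero]
  have hTTout : ∀ x, x ∉ Metric.closedBall a R → TT x = 0 := by
    intro x hx
    have h3 := hout x hx
    show (if Q < ω x then (1 : ℝ) else 0) • W x - (if q < ω x then (1 : ℝ) else 0) • W x = 0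
    rw [if_neg (by linarith), if_neg (by linarith)]
    simp
  have hTTor : ∀ x, TT x = W x ∨ TT x = 0 := by
    intro x
    show (if Q < ω x then (1 : ℝ) else 0) • W x - (if q < ω x then (1 : ℝ) else 0) • W x = W x ∨
      (if Q < ω x then (1 : ℝ) else 0) • W x - (if q < ω x then (1 : ℝ) else 0) • W x = 0
    by_cases h3 : Q < ω x
    · by_cases h4 : q < ω x
      · right
        rw [if_pos h3, if_pos h4, sub_self]
      · left
        rw [if_pos h3, if_neg h4]
        simp
    · right
      rw [if_neg h3, if_neg (by linarith)]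
      simp
  -- energy
  have hflux := hN.flux_le T TT d hT (Filter.Eventually.of_forall hT0)
  have hint1 : Integrable (fun x => ‖TT x‖ ^ (n : ℝ)) volume := int_rpow hn1 hT.mU
  have hint2 : Integrable (fun x => ⟪A x (W x), TT x⟫) volume := int_inner hn1 hA hN.h0.mU hT.mU
  have hen : α * ∫ x, ‖TT x‖ ^ (n : ℝ) ≤ d := by
    rw [← integral_const_mul]
    refine le_trans (integral_mono_ae (hint1.const_mul α) hint2 ?_) hflux
    filter_upwards [hA.coer] with x hx
    rcases hTTor x with h3 | h3
    · rw [h3]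
      exact hx (W x)
    · rw [h3, norm_zero, inner_zero_right, Real.zero_rpow (by linarith), mul_zero]
  -- Sobolev
  have hH0 : H0 (n : ℝ) volume (Metric.ball a (2 * R)) T TT := by
    refine LH.toH0 (K := Metric.closedBall a R) (H0.toLH hn1 hT) Metric.isOpen_ball
      (isCompact_closedBall a R) (Metric.closedBall_subset_ball (by linarith))
      (Filter.Eventually.of_forall hTout) (Filter.Eventually.of_forall hTTout)
  have hsob := hadm.sob a (2 * R) (by positivity) T TT hH0
  have hratio : ((volume : Measure (Sp n)).real {y | T y ≠ 0} /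
      (volume : Measure (Sp n)).real (Metric.ball a (2 * R))) ^ θ ≤ 1 := by
    apply Real.rpow_le_one (by positivity) _ hadm.theta_pos.le
    apply div_le_one_of_le₀ _ (by positivity)
    apply measureReal_mono _ (hadm.fin a (2 * R)).ne
    intro y hy
    by_contra hny
    apply hy
    apply hTout
    intro h3
    exact hny (Metric.closedBall_subset_ball (by linarith) h3)
  have hTTnn : 0 ≤ ∫ x, ‖TT x‖ ^ (n : ℝ) := integral_nonneg (fun x => by positivity)
  have hup : ∫ y, |T y| ^ (n : ℝ) ≤ Cs * (2 * R) ^ n * (d / α) := by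
    calc ∫ y, |T y| ^ (n : ℝ) ≤ Cs * (2 * R) ^ (n : ℝ) *
          ((volume : Measure (Sp n)).real {y | T y ≠ 0} /
          (volume : Measure (Sp n)).real (Metric.ball a (2 * R))) ^ θ *
          ∫ y, ‖TT y‖ ^ (n : ℝ) := hsob
      _ ≤ Cs * (2 * R) ^ (n : ℝ) * 1 * (d / α) := by
          apply mul_le_mul
          · apply mul_le_mul_of_nonneg_left hratio (by positivity)
          · rw [le_div_iff₀ hα, mul_comm]
            exact hen
          · exact hTTnn
          · positivity
      _ = Cs * (2 * R) ^ n * (d / α) := by rw [mul_one, Real.rpow_natCast]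
  -- lower bound
  have hint3 : Integrable (fun x => |T x| ^ (n : ℝ)) volume := int_rpow hn1 hT.mu
  have hvol : (volume : Measure (Sp n)).real (Metric.ball a r1) = r1 ^ n * w0 := by
    rw [hw0, measureReal_def, measureReal_def, Measure.addHaar_ball_of_pos _ _ hr1,
      finrank_euclideanSpace_fin, ENNReal.toReal_mul, ENNReal.toReal_ofReal (by positivity)]
  have hlow : r1 ^ n * w0 * d ^ n ≤ ∫ y, |T y| ^ (n : ℝ) := by
    calc r1 ^ n * w0 * d ^ n = ∫ y in Metric.ball a r1, d ^ n := by
          rw [setIntegral_const, hvol, smul_eq_mul]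
      _ = ∫ y in Metric.ball a r1, |T y| ^ (n : ℝ) := by
          apply setIntegral_congr_fun Metric.isOpen_ball.measurableSet
          intro y hy
          show d ^ n = |T y| ^ (n : ℝ)
          rw [hTin y (Metric.mem_ball.mp hy).le, abs_of_pos hd0, Real.rpow_natCast]
      _ ≤ ∫ y, |T y| ^ (n : ℝ) :=
          setIntegral_le_integral hint3 (Filter.Eventually.of_forall (fun x => by
            show 0 ≤ |T x| ^ (n : ℝ)
            positivity))
  have hfin := hlow.trans hup
  have h2R : (2 * R) ^ n = (2 * Λ) ^ n * r1 ^ n := by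
    rw [hR, ← mul_pow]
    ring
  rw [h2R] at hfin
  have hr1n : 0 < r1 ^ n := by positivity
  have hdn : d ^ n = d * d ^ (n - 1) := by
    rw [← pow_succ', Nat.sub_add_cancel (by omega)]
  have h5 : w0 * d ^ (n - 1) * (r1 ^ n * d) ≤ Cs * (2 * Λ) ^ n / α * (r1 ^ n * d) := by
    calc w0 * d ^ (n - 1) * (r1 ^ n * d) = r1 ^ n * w0 * d ^ n := by rw [hdn]; ring
      _ ≤ Cs * ((2 * Λ) ^ n * r1 ^ n) * (d / α) := hfin
      _ = Cs * (2 * Λ) ^ n / α * (r1 ^ n * d) := by ring
  have h6 : w0 * d ^ (n - 1) ≤ Cs * (2 * Λ) ^ n / α :=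
    le_of_mul_le_mul_right h5 (by positivity)
  have h7 : d ^ (n - 1) ≤ C0 := by
    rw [hC0, le_div_iff₀ (by positivity)]
    rw [le_div_iff₀ hα] at h6
    linarith
  have h8 : d ≤ d ^ (n - 1) := by
    calc d = d ^ 1 := (pow_one d).symm
      _ ≤ d ^ (n - 1) := pow_le_pow_right₀ hd1.le (by omega)
  linarith

end P2


end

section


section P2
variable {n : ℕ} {α β Cd θ Cs lam Cp : ℝ} {A : Sp n → Sp n → Sp n} {D : Set (Sp n)}
  {a : Sp n} {t M : ℝ} {ω : Sp n → ℝ} {W : Sp n → Sp n}



theorem key_energy (hn : 2 ≤ n) (hα : 0 < α)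
    (hA : Op (n : ℝ) α β (volume : Measure (Sp n)) A) (h : NPot A D a t ω W M)
    {S : Set (Sp n)} (hS : MeasurableSet S) {T b : Sp n → ℝ} {k : ℝ}
    (hT : H0 (n : ℝ) volume D T (fun x => b x • W x))
    (hTk : ∀ x, 0 ≤ T x ∧ T x ≤ k) (hb : ∀ x, 0 ≤ b x) (hb1 : ∀ x ∈ S, 1 ≤ b x) :
    α * ∫ x in S, ‖W x‖ ^ (n : ℝ) ≤ k := by
  have hp : (1 : ℝ) < (n : ℝ) := by exact_mod_cast hn
  have h1 := h.flux_le T _ k hT (Filter.Eventually.of_forall hTk)
  refine le_trans ?_ h1
  have hint1 : Integrable (fun x => α * ‖W x‖ ^ (n : ℝ)) (volume : Measure (Sp n)) :=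
    (int_rpow hp h.h0.mU).const_mul α
  have hint2 : Integrable (fun x => ⟪A x (W x), b x • W x⟫) (volume : Measure (Sp n)) :=
    int_inner hp hA h.h0.mU hT.mU
  rw [← integral_const_mul, ← integral_indicator hS]
  refine integral_mono_ae (hint1.indicator hS) hint2 ?_
  filter_upwards [hA.coer] with x hx
  have h2 := hx (W x)
  have h3 : 0 ≤ α * ‖W x‖ ^ (n : ℝ) := by positivity
  have h4 : ⟪A x (W x), b x • W x⟫ = b x * ⟪A x (W x), W x⟫ := inner_smul_right _ _ _
  show S.indicator (fun x => α * ‖W x‖ ^ (n : ℝ)) x ≤ ⟪A x (W x), b x • W x⟫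
  rw [h4]
  by_cases hxS : x ∈ S
  · rw [Set.indicator_of_mem hxS]
    have h5 := hb1 x hxS
    nlinarith
  · rw [Set.indicator_of_notMem hxS]
    exact mul_nonneg (hb x) (h3.trans h2)

/-- upper energy bound on annuli -/
theorem NPot.energy_le (hn : 2 ≤ n) (hα : 0 < α) (hβ : 0 < β)
    (hA : Op (n : ℝ) α β (volume : Measure (Sp n)) A) (h : NPot A D a t ω W M)
    {S : Set (Sp n)} (hS : MeasurableSet S) {c c' : ℝ} (hc : 0 ≤ c) (hcc : c ≤ c')
    (hS' : ∀ x ∈ S, c ≤ ω x ∧ ω x ≤ c') :
    α * ∫ x in S, ‖W x‖ ^ (n : ℝ) ≤ c' - c := by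
  have hp : (1 : ℝ) < (n : ℝ) := by exact_mod_cast hn
  have hc' : 0 ≤ c' := hc.trans hcc
  rcases hc.eq_or_lt with h0 | hpos
  · subst h0
    have hT : H0 (n : ℝ) volume D (fun x => ω x - max (ω x - c') 0)
        (fun x => (1 - (if c' < ω x then (1 : ℝ) else 0)) • W x) := by
      have h1 := H0.sub hp.le h.h0 (H0.pos hp h.h0 hc')
      refine h1.congr Filter.EventuallyEq.rfl (Filter.Eventually.of_forall fun x => ?_)
      simp only [sub_smul, one_smul]
    have h2 := key_energy hn hα hA h hS (k := c') hT ?_ ?_ ?_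
    · simpa using h2
    · intro x
      have hx := h.bd x
      rcases le_total (ω x - c') 0 with h3 | h3
      · rw [max_eq_right h3]
        constructor <;> linarith
      · rw [max_eq_left h3]
        constructor <;> linarith
    · intro x
      split_ifs <;> norm_num
    · intro x hx
      have h3 := (hS' x hx).2
      rw [if_neg (not_lt.mpr h3)]
      norm_num
  · refine le_of_forall_pos_le_add fun e he => ?_
    set d := min e (c / 2) with hd
    have hd0 : 0 < d := lt_min he (by linarith)
    have hde : d ≤ e := min_le_left _ _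
    have hdc : d ≤ c / 2 := min_le_right _ _
    have hcd : 0 ≤ c - d := by linarith
    have hT : H0 (n : ℝ) volume D (fun x => max (ω x - (c - d)) 0 - max (ω x - c') 0)
        (fun x => ((if c - d < ω x then (1 : ℝ) else 0) - (if c' < ω x then (1 : ℝ) else 0)) • W x) := by
      have h1 := H0.sub hp.le (H0.pos hp h.h0 hcd) (H0.pos hp h.h0 hc')
      refine h1.congr Filter.EventuallyEq.rfl (Filter.Eventually.of_forall fun x => ?_)
      simp only [sub_smul]
    have h2 := key_energy hn hα hA h hS (k := c' - c + d) hT ?_ ?_ ?_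
    · exact h2.trans (by linarith)
    · intro x
      rcases le_total (ω x - c') 0 with h3 | h3
      · rw [max_eq_right h3]
        rcases le_total (ω x - (c - d)) 0 with h4 | h4
        · rw [max_eq_right h4]
          constructor <;> linarith
        · rw [max_eq_left h4]
          constructor <;> linarith
      · rw [max_eq_left h3, max_eq_left (by linarith)]
        constructor <;> linarith
    · intro x
      by_cases h3 : c' < ω x
      · rw [if_pos h3, if_pos (by linarith)]
        norm_num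
      · rw [if_neg h3]
        split_ifs <;> norm_num
    · intro x hx
      have h3 := hS' x hx
      rw [if_neg (not_lt.mpr h3.2), if_pos (by linarith [h3.1])]
      norm_num

end P2


end

section


section P2
variable {n : ℕ} {α β Cd θ Cs lam Cp : ℝ} {A : Sp n → Sp n → Sp n} {D : Set (Sp n)}
  {a : Sp n} {t M : ℝ} {ω : Sp n → ℝ} {W : Sp n → Sp n}


/-- lower energy bound on dyadic annuli -/
theorem NPot.energy_ge (hn : 2 ≤ n) (hβ : 0 < β) :
    ∃ c : ℝ, 0 < c ∧ ∀ (α : ℝ) (A : Sp n → Sp n → Sp n), 0 < α →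
      Op (n : ℝ) α β (volume : Measure (Sp n)) A →
      ∀ (D : Set (Sp n)) (a : Sp n) (t : ℝ) (ω : Sp n → ℝ) (W : Sp n → Sp n) (M : ℝ),
      NPot A D a t ω W M → ∀ R : ℝ, 0 < t → 2 * t ≤ R → Metric.ball a (2 * R) ⊆ D →
      c ≤ ∫ x in {x | R ≤ dist x a ∧ dist x a < 2 * R}, ‖W x‖ ^ (n : ℝ) := by
  obtain ⟨C0, hC0, hcut⟩ := exists_ball_cutoff n
  set w : ℝ := (volume : Measure (Sp n)).real (Metric.ball (0 : Sp n) 1) with hw
  have hw0 : 0 ≤ w := measureReal_nonneg
  set s : ℝ := 1 + 2 * β * (2 * C0) ^ n * w with hs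
  have hs1 : 1 ≤ s := by
    rw [hs]
    have : 0 ≤ 2 * β * (2 * C0) ^ n * w := by positivity
    linarith
  have hs0 : 0 < s := by linarith
  refine ⟨1 / (2 * β * s ^ n), by positivity, ?_⟩
  intro α A hα hA D a t ω W M hN R ht htR hball
  have hR : 0 < R := by linarith
  have hp : (1:ℝ) < n := by
    have : (2:ℝ) ≤ n := by exact_mod_cast hn
    linarith
  obtain ⟨η, hη, hη01, hη1, hηg⟩ := hcut a R (2 * R) hR (by linarith)
  have hflux := hN.flux_eq η (gradient η) 1 (H0.of_Cc (hη.mono hball)) (Filter.Eventually.of_forall fun x hx =>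
    hη1 x (by
      rw [Metric.mem_ball] at hx
      rw [Metric.mem_closedBall]
      linarith))
  set S : Set (Sp n) := {x | R ≤ dist x a ∧ dist x a < 2 * R} with hS
  have hSm : MeasurableSet S := by
    have hdc : Continuous (fun x : Sp n => dist x a) := by fun_prop
    exact ((isClosed_le continuous_const hdc).measurableSet).inter
      ((isOpen_lt hdc continuous_const).measurableSet)
  have hgrad0 : ∀ x, x ∉ S → gradient η x = 0 := by
    intro x hx
    rcases lt_or_ge (dist x a) R with h | h
    · exact grad_zero_of_const_on (W := Metric.ball a R) Metric.isOpen_ball (c := 1)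
        (fun y hy => hη1 y (Metric.ball_subset_closedBall hy)) h
    · have h2 : 2 * R ≤ dist x a := by
        by_contra hcon
        push Not at hcon
        exact hx ⟨h, hcon⟩
      apply grad_zero_of_notMem
      intro hmem
      have := hη.supp hmem
      rw [Metric.mem_ball] at this
      linarith
  have hSball : S ⊆ Metric.ball a (2 * R) := fun x hx => hx.2
  have hvol : (volume : Measure (Sp n)).real S ≤ (2 * R) ^ n * w := by
    calc (volume : Measure (Sp n)).real S ≤ (volume : Measure (Sp n)).real (Metric.ball a (2 * R)) :=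
          measureReal_mono hSball measure_ball_lt_top.ne
      _ = _ := by
          rw [hw, Measure.real, Measure.addHaar_ball_of_pos _ _ (by linarith), finrank_euclideanSpace_fin,
            ENNReal.toReal_mul, ENNReal.toReal_ofReal (by positivity)]
          rfl
  have hSfin : (volume : Measure (Sp n)) S < ∞ := lt_of_le_of_lt (measure_mono hSball) measure_ball_lt_top
  have hWint : Integrable (fun x => ‖W x‖ ^ n) (volume : Measure (Sp n)) := by
    have := int_rpow hp hN.h0.mU
    simpa [Real.rpow_natCast] using this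
  set K : ℝ := (C0 / (R * s ^ (n - 1))) ^ n with hK
  have hK0 : 0 ≤ K := by positivity
  have hgint : Integrable (S.indicator (fun x => β * (s ^ n * ‖W x‖ ^ n + K))) (volume : Measure (Sp n)) := by
    rw [integrable_indicator_iff hSm]
    apply Integrable.const_mul
    apply Integrable.add
    · exact (hWint.const_mul _).integrableOn
    · exact integrableOn_const (hs := hSfin.ne)
  have hpt : ∀ᵐ x ∂(volume : Measure (Sp n)), ⟪A x (W x), gradient η x⟫ ≤
      S.indicator (fun x => β * (s ^ n * ‖W x‖ ^ n + K)) x := by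
    filter_upwards [abs_inner_le hA W (gradient η)] with x hx
    by_cases hxS : x ∈ S
    · rw [Set.indicator_of_mem hxS]
      refine (le_abs_self _).trans ?_
      rw [← Real.norm_eq_abs]
      refine hx.trans ?_
      apply mul_le_mul_of_nonneg_left _ hβ.le
      have e1 : (n:ℝ) - 1 = ((n - 1 : ℕ) : ℝ) := by
        rw [Nat.cast_sub (by omega)]
        simp
      rw [e1, Real.rpow_natCast]
      have hg : ‖gradient η x‖ ≤ C0 / R := by
        have := hηg x
        have e2 : 2 * R - R = R := by ring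
        rwa [e2] at this
      have key : ∀ a b : ℝ, 0 ≤ a → 0 ≤ b → a ^ (n - 1) * b ≤ a ^ n + b ^ n := by
        intro a b ha hb
        have en : a ^ n = a ^ (n - 1) * a := by rw [← pow_succ]; congr 1; omega
        have en' : b ^ n = b ^ (n - 1) * b := by rw [← pow_succ]; congr 1; omega
        rcases le_total b a with h | h
        · have h1 : a ^ (n - 1) * b ≤ a ^ (n - 1) * a := mul_le_mul_of_nonneg_left h (pow_nonneg ha _)
          have h2 : 0 ≤ b ^ n := pow_nonneg hb _
          linarith
        · have h1 : a ^ (n - 1) * b ≤ b ^ (n - 1) * b :=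
            mul_le_mul_of_nonneg_right (pow_le_pow_left₀ ha h _) hb
          have h2 : 0 ≤ a ^ n := pow_nonneg ha _
          linarith
      have hsn : 0 < s ^ (n - 1) := pow_pos hs0 _
      calc ‖W x‖ ^ (n - 1) * ‖gradient η x‖ = (s * ‖W x‖) ^ (n - 1) * (‖gradient η x‖ / s ^ (n - 1)) := by
            rw [mul_pow]
            field_simp
        _ ≤ (s * ‖W x‖) ^ n + (‖gradient η x‖ / s ^ (n - 1)) ^ n :=
            key _ _ (by positivity) (by positivity)
        _ ≤ s ^ n * ‖W x‖ ^ n + K := by
            rw [mul_pow, hK]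
            have h5 : ‖gradient η x‖ / s ^ (n - 1) ≤ C0 / (R * s ^ (n - 1)) := by
              rw [← div_div]
              gcongr
            gcongr
    · rw [Set.indicator_of_notMem hxS, hgrad0 x hxS, inner_zero_right]
  have hle : (1:ℝ) ≤ ∫ x, S.indicator (fun x => β * (s ^ n * ‖W x‖ ^ n + K)) x := by
    rw [← hflux]
    exact integral_mono_ae (int_inner hp hA hN.h0.mU (hη.memLp_grad _)) hgint hpt
  rw [integral_indicator hSm, integral_const_mul, integral_add ((hWint.const_mul _).integrableOn)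
    (integrableOn_const (hs := hSfin.ne)), integral_const_mul, setIntegral_const, smul_eq_mul] at hle
  have hKv : (volume : Measure (Sp n)).real S * K ≤ (2 * C0) ^ n * w / s := by
    have hsn : s ≤ (s ^ (n - 1)) ^ n := by
      rw [← pow_mul]
      calc s = s ^ 1 := (pow_one s).symm
        _ ≤ s ^ ((n - 1) * n) := pow_le_pow_right₀ hs1 (by
          have : 1 ≤ n - 1 := by omega
          nlinarith)
    calc (volume : Measure (Sp n)).real S * K ≤ ((2 * R) ^ n * w) * K := by gcongr
      _ = ((2 * C0) ^ n * w) / (s ^ (n - 1)) ^ n := by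
          rw [hK, div_pow, mul_pow, mul_pow, mul_pow]
          field_simp
      _ ≤ ((2 * C0) ^ n * w) / s := by gcongr
  have h2 : β * ((2 * C0) ^ n * w / s) ≤ 1 / 2 := by
    rw [mul_div_assoc', div_le_iff₀ hs0, hs]
    have : 0 ≤ 2 * β * (2 * C0) ^ n * w := by positivity
    nlinarith
  have hI : ∫ x in S, ‖W x‖ ^ (n : ℝ) = ∫ x in S, ‖W x‖ ^ n := by
    simp only [Real.rpow_natCast]
  rw [hI, div_le_iff₀ (by positivity)]
  have h3 : β * ((volume : Measure (Sp n)).real S * K) ≤ 1 / 2 :=
    (mul_le_mul_of_nonneg_left hKv hβ.le).trans h2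
  nlinarith

end P2


end

end Pool.Agent.Helper533.Polar
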