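import Pool.Agent.Helper533.NHM.Defs
import Pool.Agent.Helper795.LusinN
open MeasureTheory Filter Topology Set
open scoped ENNReal NNReal RealInnerProductSpace

namespace Pool.Agent.Helper533.Polar

variable {n : ℕ}

/-- oscillation of `C¹` functions on spheres -/
theorem sphere_bound (hn : 2 ≤ n) : ∃ (C : ℝ≥0∞) (ι : Type) (_ : Fintype ι) (e : ι → Sp n),
    C ≠ ⊤ ∧ (∀ i, ‖e i‖ = 1) ∧ ∀ (φ : Sp n → ℝ), ContDiff ℝ 1 φ →
      ∀ (z : Sp n) (t : ℝ), 0 < t → ∀ a ∈ Metric.sphere z t, ∀ b ∈ Metric.sphere z t,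
        ‖φ a - φ b‖ₑ ≤ C * ENNReal.ofReal t *
          ∑ i, (∫⁻ x in Metric.closedBall (0 : (ℝ ∙ (e i))ᗮ) 1,
            ‖fderiv ℝ φ (z + t • ((x : Sp n) + Real.sqrt (1 - ‖x‖ ^ 2) • e i))‖ₑ ^ (n : ℝ)) ^
              (1 / (n : ℝ)) := by
  obtain ⟨C, hC, h⟩ := Pool.Agent.Helper795.LusinN.sphere_bound (n := n) hn (p := (n : ℝ))
    (by linarith)
  refine ⟨C, Fin n × Bool, inferInstance, Pool.Agent.Helper795.LusinN.dir, hC,
    Pool.Agent.Helper795.LusinN.norm_dir, fun φ hφ z t ht a ha b hb => ?_⟩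
  refine (h φ hφ z t ht a ha b hb).trans ?_
  have hr : Pool.Agent.Helper795.LusinN.rad n ≤ 1 := by
    unfold Pool.Agent.Helper795.LusinN.rad
    refine Real.sqrt_le_one.2 ?_
    have : 0 ≤ (1 / (n : ℝ)) ^ 2 := sq_nonneg _
    linarith
  refine mul_le_mul_right (Finset.sum_le_sum fun i _ => ENNReal.rpow_le_rpow
    (lintegral_mono_set (Metric.closedBall_subset_closedBall hr)) (by positivity)) _

end Pool.Agent.Helper533.Polar
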