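import Pool.Agent.Helper533.NHM.Moll
import Pool.Agent.Helper533.NHM.SphB
open MeasureTheory Filter Topology Set
open scoped ENNReal NNReal RealInnerProductSpace

namespace Pool.Agent.Helper533.Polar

section


section P3
variable {n : ℕ}



lemma cf_homothety {F : Type*} [NormedAddCommGroup F] [NormedSpace ℝ F]
    [FiniteDimensional ℝ F] [MeasurableSpace F] [BorelSpace F] (μ : Measure F) [μ.IsAddHaarMeasure]
    {s : ℝ} (hs : 0 < s) {h : F → ℝ≥0∞} (hh : Measurable h) :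
    ∫⁻ y, h (s • y) ∂μ = ENNReal.ofReal ((s ^ Module.finrank ℝ F)⁻¹) * ∫⁻ z, h z ∂μ := by
  have h1 : ∫⁻ y, h (s • y) ∂μ = ∫⁻ z, h z ∂(Measure.map (s • ·) μ) := by
    rw [lintegral_map hh (measurable_const_smul s)]
  rw [h1, Measure.map_addHaar_smul μ hs.ne', lintegral_smul_measure,
    abs_of_nonneg (by positivity)]
  rfl

lemma cf_radial (r R : ℝ) (hr : 0 ≤ r) (hR : 0 < R) (G : ℝ → ℝ≥0∞) :
    ∫⁻ t in Icc R (2 * R), (if r ≤ t then G (Real.sqrt (t ^ 2 - r ^ 2)) else 0) ≤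
      ∫⁻ s, (if R ^ 2 ≤ s ^ 2 + r ^ 2 ∧ s ^ 2 + r ^ 2 ≤ (2 * R) ^ 2 then G s else 0) := by
  set f : ℝ → ℝ≥0∞ := fun t => if r ≤ t then G (Real.sqrt (t ^ 2 - r ^ 2)) else 0 with hf
  set S : Set ℝ := {s | 0 < s ∧ R ^ 2 ≤ s ^ 2 + r ^ 2 ∧ s ^ 2 + r ^ 2 ≤ (2 * R) ^ 2} with hS
  set φ : ℝ → ℝ := fun s => Real.sqrt (s ^ 2 + r ^ 2) with hφ
  have hSm : MeasurableSet S := by
    have m1 : Measurable fun s : ℝ => s ^ 2 + r ^ 2 := by fun_prop
    exact (measurableSet_lt measurable_const measurable_id).inter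
      ((measurableSet_le measurable_const m1).inter
        (measurableSet_le m1 measurable_const))
  have hmeasI : MeasurableSet (Icc R (2 * R) ∩ Ioi r) := measurableSet_Icc.inter measurableSet_Ioi
  -- step 1
  have h1 : ∫⁻ t in Icc R (2 * R), f t ≤ ∫⁻ t in Icc R (2 * R) ∩ Ioi r, f t := by
    rw [← lintegral_indicator measurableSet_Icc, ← lintegral_indicator hmeasI]
    refine lintegral_mono_ae ?_
    have hne : ∀ᵐ t : ℝ, t ≠ r := by
      rw [ae_iff]
      simp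
    filter_upwards [hne] with t ht
    by_cases htI : t ∈ Icc R (2 * R)
    · rw [indicator_of_mem htI]
      by_cases htr : r < t
      · have hmem : t ∈ Icc R (2 * R) ∩ Ioi r := ⟨htI, htr⟩
        rw [indicator_of_mem hmem]
      · have : ¬ (r ≤ t) := fun h => htr (lt_of_le_of_ne h (Ne.symm ht))
        simp [hf, this]
    · rw [indicator_of_notMem htI]
      exact zero_le
  have hsub : Icc R (2 * R) ∩ Ioi r ⊆ φ '' S := by
    rintro t ⟨⟨ht1, ht2⟩, ht3⟩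
    have ht3' : r < t := ht3
    have ht0 : 0 < t := lt_of_lt_of_le hR ht1
    have hpos : 0 < t ^ 2 - r ^ 2 := by nlinarith
    refine ⟨Real.sqrt (t ^ 2 - r ^ 2), ⟨Real.sqrt_pos.2 hpos, ?_, ?_⟩, ?_⟩
    · rw [Real.sq_sqrt hpos.le]
      nlinarith
    · rw [Real.sq_sqrt hpos.le]
      nlinarith
    · simp only [hφ]
      rw [Real.sq_sqrt hpos.le, sub_add_cancel, Real.sqrt_sq ht0.le]
  have h2 : ∫⁻ t in Icc R (2 * R) ∩ Ioi r, f t ≤ ∫⁻ t in φ '' S, f t :=
    lintegral_mono_set hsub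
  have hpos : ∀ s ∈ S, 0 < s ^ 2 + r ^ 2 := by
    intro s hs
    have := hs.1
    positivity
  have hder : ∀ s ∈ S, HasDerivWithinAt φ (s / Real.sqrt (s ^ 2 + r ^ 2)) S s := by
    intro s hs
    have h0 : HasDerivAt (fun x : ℝ => x ^ 2 + r ^ 2) (2 * s) s := by
      simpa using (hasDerivAt_pow 2 s).add_const (r ^ 2)
    have h3 := h0.sqrt (hpos s hs).ne'
    have h4 : 2 * s / (2 * Real.sqrt (s ^ 2 + r ^ 2)) = s / Real.sqrt (s ^ 2 + r ^ 2) := by
      rw [mul_div_mul_left _ _ two_ne_zero]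
    rw [h4] at h3
    exact h3.hasDerivWithinAt
  have hinj : InjOn φ S := by
    intro s hs t ht hst
    have h3 : (s ^ 2 + r ^ 2) = t ^ 2 + r ^ 2 := by
      have := congrArg (fun x : ℝ => x ^ 2) hst
      simp only [hφ] at this
      rwa [Real.sq_sqrt (hpos s hs).le, Real.sq_sqrt (hpos t ht).le] at this
    have h4 : s ^ 2 = t ^ 2 := by linarith
    exact (pow_left_inj₀ hs.1.le ht.1.le two_ne_zero).1 h4
  have h3 := lintegral_image_eq_lintegral_abs_deriv_mul hSm hder hinj f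
  refine h1.trans (h2.trans ?_)
  rw [h3, ← lintegral_indicator hSm]
  refine lintegral_mono fun s => ?_
  by_cases hs : s ∈ S
  · rw [indicator_of_mem hs, if_pos hs.2]
    have hs0 : 0 < s := hs.1
    have hφr : r ≤ φ s := by
      simp only [hφ]
      exact Real.le_sqrt_of_sq_le (by nlinarith)
    have hfφ : f (φ s) = G s := by
      simp only [hf]
      rw [if_pos hφr]
      simp only [hφ]
      rw [Real.sq_sqrt (hpos s hs).le, add_sub_cancel_right, Real.sqrt_sq hs0.le]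
    rw [hfφ]
    have hle : ENNReal.ofReal |s / Real.sqrt (s ^ 2 + r ^ 2)| ≤ 1 := by
      rw [← ENNReal.ofReal_one]
      refine ENNReal.ofReal_le_ofReal ?_
      rw [abs_of_nonneg (by positivity)]
      refine div_le_one_of_le₀ (Real.le_sqrt_of_sq_le (by nlinarith)) (Real.sqrt_nonneg _)
    calc ENNReal.ofReal |s / Real.sqrt (s ^ 2 + r ^ 2)| * G s ≤ 1 * G s := by gcongr
      _ = G s := one_mul _
  · rw [indicator_of_notMem hs]
    exact zero_le

lemma cf_iso (e : Sp n) (he : ‖e‖ = 1) :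
    ∃ C : ℝ≥0∞, C ≠ ⊤ ∧ ∀ h : Sp n → ℝ≥0∞, Measurable h →
      ∫⁻ w : ((ℝ ∙ e)ᗮ : Submodule ℝ (Sp n)), ∫⁻ s : ℝ, h ((w : Sp n) + s • e) =
        C * ∫⁻ y, h y := by
  let F : Submodule ℝ (Sp n) := (ℝ ∙ e)ᗮ
  let L0 : (F × ℝ) →ₗ[ℝ] Sp n :=
    LinearMap.coprod F.subtype (LinearMap.toSpanSingleton ℝ (Sp n) e)
  have hL0 : ∀ p : F × ℝ, L0 p = (p.1 : Sp n) + p.2 • e := by
    intro p
    simp [L0, LinearMap.coprod_apply]
  have hee : ⟪e, e⟫ = (1 : ℝ) := by rw [real_inner_self_eq_norm_sq, he]; norm_num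
  have hF : ∀ w : F, ⟪e, (w : Sp n)⟫ = (0 : ℝ) := by
    intro w
    exact Submodule.mem_orthogonal_singleton_iff_inner_right.1 w.2
  have hinj : Function.Injective L0 := by
    rw [← LinearMap.ker_eq_bot, LinearMap.ker_eq_bot']
    rintro ⟨w, s⟩ hws
    rw [hL0] at hws
    simp only at hws
    have h1 : ⟪e, (w : Sp n) + s • e⟫ = (0 : ℝ) := by rw [hws, inner_zero_right]
    rw [inner_add_right, hF w, inner_smul_right, hee] at h1
    have hs : s = 0 := by linarith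
    subst hs
    rw [zero_smul, add_zero] at hws
    have hw : w = 0 := by
      apply Subtype.ext
      simpa using hws
    rw [hw]
    rfl
  have hsurj : Function.Surjective L0 := by
    intro y
    have hmem : y - ⟪e, y⟫ • e ∈ F := by
      rw [Submodule.mem_orthogonal_singleton_iff_inner_right]
      rw [inner_sub_right, inner_smul_right, hee]
      ring
    refine ⟨(⟨y - ⟪e, y⟫ • e, hmem⟩, ⟪e, y⟫), ?_⟩
    rw [hL0]
    simp
  let L1 : (F × ℝ) ≃ₗ[ℝ] Sp n := LinearEquiv.ofBijective L0 ⟨hinj, hsurj⟩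
  let L : (F × ℝ) ≃L[ℝ] Sp n := L1.toContinuousLinearEquiv
  have hL : ∀ p : F × ℝ, L p = (p.1 : Sp n) + p.2 • e := hL0
  let ν : Measure (Sp n) := Measure.map L ((volume : Measure F).prod (volume : Measure ℝ))
  have hν : ν.IsAddHaarMeasure := L.isAddHaarMeasure_map _
  refine ⟨(ν.addHaarScalarFactor volume : ℝ≥0), ENNReal.coe_ne_top, ?_⟩
  intro h hh
  have hLm : Measurable L := L.continuous.measurable
  have h1 : ∫⁻ y, h y ∂ν = ∫⁻ p : F × ℝ, h (L p) := lintegral_map hh hLm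
  have h2 : ∫⁻ y, h y ∂ν = (ν.addHaarScalarFactor volume : ℝ≥0) * ∫⁻ y, h y := by
    conv_lhs => rw [Measure.isAddLeftInvariant_eq_smul ν volume]
    rw [lintegral_smul_measure]
    rfl
  rw [← h2, h1]
  have h3 : ∫⁻ p : F × ℝ, h (L p) = ∫⁻ w : F, ∫⁻ s : ℝ, h (L (w, s)) := by
    exact lintegral_prod (fun p : F × ℝ => h (L p)) (hh.comp hLm).aemeasurable
  rw [h3]
  rfl

lemma cf_finrank (e : Sp n) (he : ‖e‖ = 1) :
    Module.finrank ℝ ((ℝ ∙ e)ᗮ : Submodule ℝ (Sp n)) = n - 1 := by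
  have h1 := Submodule.finrank_add_finrank_orthogonal (𝕜 := ℝ) (ℝ ∙ e : Submodule ℝ (Sp n))
  have he0 : e ≠ 0 := by
    intro h
    rw [h, norm_zero] at he
    exact zero_ne_one he
  rw [finrank_span_singleton he0, finrank_euclideanSpace_fin] at h1
  omega


lemma cf_abs {F : Type*} [NormedAddCommGroup F] [NormedSpace ℝ F]
    [FiniteDimensional ℝ F] [MeasureSpace F] [BorelSpace F] [(volume : Measure F).IsAddHaarMeasure]
    (e : Sp n) (he : ‖e‖ = 1) (hfr : Module.finrank ℝ F = n - 1) (ι : F → Sp n)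
    (hιm : Measurable ι) (hιs : ∀ (t : ℝ) w, ι (t • w) = t • ι w)
    (hιF : ∀ w, ⟪ι w, e⟫ = (0 : ℝ)) (hιn : ∀ w, ‖ι w‖ = ‖w‖) (C : ℝ≥0∞)
    (hiso : ∀ h : Sp n → ℝ≥0∞, Measurable h →
      ∫⁻ w : F, ∫⁻ s : ℝ, h (ι w + s • e) = C * ∫⁻ y, h y)
    (g : Sp n → ℝ≥0∞) (hg : Measurable g) (a : Sp n) (R : ℝ) (hR : 0 < R) :
    ∫⁻ t in Icc R (2 * R), ∫⁻ x in Metric.closedBall (0 : F) 1,
        g (a + t • (ι x + Real.sqrt (1 - ‖x‖ ^ 2) • e)) ≤
      C * ENNReal.ofReal ((R ^ (n - 1))⁻¹) * ∫⁻ y in {y | R ≤ dist y a ∧ dist y a ≤ 2 * R}, g y := by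
  have hsqm : Measurable fun x : ℝ => Real.sqrt x := Real.continuous_sqrt.measurable
  -- the scaled integrand
  let h : ℝ → F → ℝ≥0∞ := fun t w =>
    if ‖w‖ ≤ t then g (a + (ι w + Real.sqrt (t ^ 2 - ‖w‖ ^ 2) • e)) else 0
  have hjoint : Measurable (Function.uncurry h) := by
    refine Measurable.ite ?_ ?_ measurable_const
    · exact measurableSet_le (measurable_snd.norm) measurable_fst
    · refine hg.comp ?_
      refine measurable_const.add ((hιm.comp measurable_snd).add ?_)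
      refine Measurable.smul_const ?_ e
      refine hsqm.comp ?_
      exact (measurable_fst.pow_const 2).sub (measurable_snd.norm.pow_const 2)
  have hmt : ∀ t, Measurable (h t) := fun t => hjoint.comp measurable_prodMk_left
  -- inner integral
  have hin : ∀ t ∈ Icc R (2 * R),
      ∫⁻ x in Metric.closedBall (0 : F) 1,
        g (a + t • (ι x + Real.sqrt (1 - ‖x‖ ^ 2) • e)) ≤
      ENNReal.ofReal ((R ^ (n - 1))⁻¹) * ∫⁻ w, h t w := by
    intro t ht
    have ht0 : 0 < t := lt_of_lt_of_le hR ht.1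
    have h1 : ∫⁻ x in Metric.closedBall (0 : F) 1,
        g (a + t • (ι x + Real.sqrt (1 - ‖x‖ ^ 2) • e)) =
        ∫⁻ x : F, h t (t • x) := by
      rw [← lintegral_indicator Metric.isClosed_closedBall.measurableSet]
      refine lintegral_congr fun x => ?_
      by_cases hx : x ∈ Metric.closedBall (0 : F) 1
      · rw [indicator_of_mem hx]
        have hx1 : ‖x‖ ≤ 1 := by simpa using hx
        have hn1 : ‖t • x‖ = t * ‖x‖ := by rw [norm_smul, Real.norm_eq_abs, abs_of_pos ht0]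
        have hle : ‖t • x‖ ≤ t := by rw [hn1]; nlinarith
        simp only [h]
        rw [if_pos hle, hn1]
        congr 2
        have hsq : Real.sqrt (t ^ 2 - (t * ‖x‖) ^ 2) = t * Real.sqrt (1 - ‖x‖ ^ 2) := by
          have : t ^ 2 - (t * ‖x‖) ^ 2 = t ^ 2 * (1 - ‖x‖ ^ 2) := by ring
          rw [this, Real.sqrt_mul (by positivity), Real.sqrt_sq ht0.le]
        rw [hsq, smul_add, smul_smul, hιs]
      · rw [indicator_of_notMem hx]
        have hx1 : ¬ (‖x‖ ≤ 1) := by simpa using hx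
        have hn1 : ‖t • x‖ = t * ‖x‖ := by rw [norm_smul, Real.norm_eq_abs, abs_of_pos ht0]
        have hle : ¬ (‖t • x‖ ≤ t) := by
          rw [hn1]
          intro hc
          apply hx1
          by_contra hcon
          push Not at hcon
          nlinarith
        simp only [h]
        rw [if_neg hle]
    rw [h1, cf_homothety volume ht0 (hmt t), hfr]
    gcongr
    exact ht.1
  -- step 2
  have hstep2 : ∫⁻ t in Icc R (2 * R), ∫⁻ x in Metric.closedBall (0 : F) 1,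
        g (a + t • (ι x + Real.sqrt (1 - ‖x‖ ^ 2) • e)) ≤
      ENNReal.ofReal ((R ^ (n - 1))⁻¹) * ∫⁻ t in Icc R (2 * R), ∫⁻ w, h t w := by
    rw [← lintegral_const_mul]
    · exact setLIntegral_mono' measurableSet_Icc hin
    · exact hjoint.lintegral_prod_right'
  have hswap : ∫⁻ t in Icc R (2 * R), ∫⁻ w, h t w = ∫⁻ w, ∫⁻ t in Icc R (2 * R), h t w :=
    lintegral_lintegral_swap hjoint.aemeasurable
  -- the annulus
  let K : Sp n → ℝ≥0∞ := fun v =>
    if R ^ 2 ≤ ‖v‖ ^ 2 ∧ ‖v‖ ^ 2 ≤ (2 * R) ^ 2 then g (a + v) else 0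
  have hKm : Measurable K := by
    refine Measurable.ite ?_ ?_ measurable_const
    · exact (measurableSet_le measurable_const (measurable_norm.pow_const 2)).inter
        (measurableSet_le (measurable_norm.pow_const 2) measurable_const)
    · exact hg.comp (measurable_const.add measurable_id)
  have hnorm : ∀ (w : F) (s : ℝ),
      ‖ι w + s • e‖ ^ 2 = s ^ 2 + ‖w‖ ^ 2 := by
    intro w s
    rw [norm_add_sq_real, inner_smul_right, hιF w, norm_smul, he, Real.norm_eq_abs, hιn w]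
    rw [mul_one, sq_abs]
    ring
  have hin2 : ∀ w : F,
      ∫⁻ t in Icc R (2 * R), h t w ≤ ∫⁻ s : ℝ, K (ι w + s • e) := by
    intro w
    have := cf_radial ‖w‖ R (norm_nonneg w) hR (fun s => g (a + (ι w + s • e)))
    refine this.trans (le_of_eq ?_)
    refine lintegral_congr fun s => ?_
    simp only [K]
    rw [hnorm w s]
  have hKint : ∫⁻ v, K v = ∫⁻ y in {y | R ≤ dist y a ∧ dist y a ≤ 2 * R}, g y := by
    have hset : MeasurableSet {y : Sp n | R ≤ dist y a ∧ dist y a ≤ 2 * R} := by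
      exact (measurableSet_le measurable_const (measurable_id.dist measurable_const)).inter
        (measurableSet_le (measurable_id.dist measurable_const) measurable_const)
    have e1 := lintegral_add_left_eq_self (μ := (volume : Measure (Sp n)))
      (indicator {y : Sp n | R ≤ dist y a ∧ dist y a ≤ 2 * R} g) a
    rw [← lintegral_indicator hset, ← e1]
    refine lintegral_congr fun v => ?_
    have hd : dist (a + v) a = ‖v‖ := by rw [dist_eq_norm, add_sub_cancel_left]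
    simp only [K, indicator_apply, Set.mem_ofPred_eq, hd]
    have hiff : (R ^ 2 ≤ ‖v‖ ^ 2 ∧ ‖v‖ ^ 2 ≤ (2 * R) ^ 2) ↔ (R ≤ ‖v‖ ∧ ‖v‖ ≤ 2 * R) := by
      rw [pow_le_pow_iff_left₀ hR.le (norm_nonneg v) two_ne_zero,
        pow_le_pow_iff_left₀ (norm_nonneg v) (by positivity) two_ne_zero]
    simp only [hiff]
  refine hstep2.trans ?_
  rw [hswap]
  calc ENNReal.ofReal ((R ^ (n - 1))⁻¹) * ∫⁻ w, ∫⁻ t in Icc R (2 * R), h t w
      ≤ ENNReal.ofReal ((R ^ (n - 1))⁻¹) *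
        ∫⁻ w : F, ∫⁻ s : ℝ, K (ι w + s • e) := by
        exact mul_le_mul_right (lintegral_mono hin2) _
    _ = ENNReal.ofReal ((R ^ (n - 1))⁻¹) * (C * ∫⁻ v, K v) := by rw [hiso K hKm]
    _ = C * ENNReal.ofReal ((R ^ (n - 1))⁻¹) *
        ∫⁻ y in {y | R ≤ dist y a ∧ dist y a ≤ 2 * R}, g y := by
        rw [hKint]; ring

/-- cone Fubini on a spherical cap -/
theorem cone_fubini (hn : 2 ≤ n) (e : Sp n) (he : ‖e‖ = 1) :
    ∃ C : ℝ≥0∞, C ≠ ⊤ ∧ ∀ (g : Sp n → ℝ≥0∞), Measurable g → ∀ (a : Sp n) (R : ℝ), 0 < R →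
      ∫⁻ t in Icc R (2 * R), ∫⁻ x in Metric.closedBall (0 : (ℝ ∙ e)ᗮ) 1,
        g (a + t • ((x : Sp n) + Real.sqrt (1 - ‖x‖ ^ 2) • e)) ≤
      C * ENNReal.ofReal ((R ^ (n - 1))⁻¹) * ∫⁻ y in {y | R ≤ dist y a ∧ dist y a ≤ 2 * R}, g y := by
  obtain ⟨C, hC, hiso⟩ := cf_iso e he
  refine ⟨C, hC, ?_⟩
  intro g hg a R hR
  exact cf_abs e he (cf_finrank e he) (fun w : ((ℝ ∙ e)ᗮ : Submodule ℝ (Sp n)) => (w : Sp n))
    measurable_subtype_coe (fun t w => rfl)
    (fun w => Submodule.mem_orthogonal_singleton_iff_inner_left.1 w.2) (fun w => rfl) C hiso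
    g hg a R hR


end P3


end

section


section P3
variable {n : ℕ}



lemma enorm_gradient_eq (f : Sp n → ℝ) (y : Sp n) : ‖gradient f y‖ₑ = ‖fderiv ℝ f y‖ₑ := by
  rw [gradient, ← ofReal_norm_eq_enorm, ← ofReal_norm_eq_enorm, LinearIsometryEquiv.norm_map]

/-- good spheres for smooth functions -/
theorem sphere_osc_smooth (hn : 2 ≤ n) : ∃ C : ℝ≥0∞, C ≠ ⊤ ∧ ∀ (ι : Type) [Fintype ι]
    (φ : ι → Sp n → ℝ) (a : Sp n) (R : ℝ), 0 < R → (∀ i, ContDiff ℝ 1 (φ i)) →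
    ∃ ρ : ℝ, R ≤ ρ ∧ ρ ≤ 2 * R ∧ ∀ i, ∀ x ∈ Metric.sphere a ρ, ∀ z ∈ Metric.sphere a ρ,
      ‖φ i x - φ i z‖ₑ ^ (n : ℝ) ≤
        C * ∑ j, ∫⁻ y in {y | R ≤ dist y a ∧ dist y a ≤ 2 * R}, ‖gradient (φ j) y‖ₑ ^ (n : ℝ) := by
  obtain ⟨C1, κ, _, e, hC1, he, hsb⟩ := sphere_bound (n := n) hn
  have hcf := fun i => cone_fubini hn (e i) (he i)
  choose C2 hC2 hcf using hcf
  have hn0 : (0:ℝ) < n := by
    have : 0 < n := by omega
    exact_mod_cast this
  set N : ℝ≥0∞ := (Fintype.card κ : ℝ≥0∞) with hN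
  refine ⟨(C1 * 2 * N) ^ (n:ℝ) * ∑ i, C2 i, ?_, ?_⟩
  · apply ENNReal.mul_ne_top
    · apply ENNReal.rpow_ne_top_of_nonneg hn0.le
      exact ENNReal.mul_ne_top (ENNReal.mul_ne_top hC1 (by simp)) (by simp [hN])
    · exact ENNReal.sum_ne_top.2 (fun i _ => hC2 i)
  intro ι _ φ a R hR hφ
  set g : ι → Sp n → ℝ≥0∞ := fun j y => ‖fderiv ℝ (φ j) y‖ₑ ^ (n:ℝ) with hgdef
  have hg : ∀ j, Measurable (g j) := by
    intro j
    have h1 : Continuous (fderiv ℝ (φ j)) := (hφ j).continuous_fderiv (by norm_num)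
    exact (h1.measurable.enorm).pow_const _
  set h : ι → κ → ℝ → ℝ≥0∞ := fun j i t =>
    ∫⁻ x in Metric.closedBall (0 : (ℝ ∙ (e i))ᗮ) 1,
      g j (a + t • ((x : Sp n) + Real.sqrt (1 - ‖x‖ ^ 2) • e i)) with hhdef
  have hh : ∀ j i, Measurable (h j i) := by
    intro j i
    apply Measurable.lintegral_prod_right'
      (f := fun p : ℝ × (ℝ ∙ (e i))ᗮ =>
        g j (a + p.1 • ((p.2 : Sp n) + Real.sqrt (1 - ‖p.2‖ ^ 2) • e i)))
    exact (hg j).comp (Continuous.measurable (by fun_prop))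
  set A : Set (Sp n) := {y | R ≤ dist y a ∧ dist y a ≤ 2 * R} with hA
  have hRE : ENNReal.ofReal R ≠ 0 := by simpa using hR
  have hvol : volume (Icc R (2 * R)) = ENNReal.ofReal R := by
    rw [Real.volume_Icc]
    congr 1
    ring
  have hsumm : Measurable (fun t => ∑ j, ∑ i, h j i t) :=
    Finset.measurable_fun_sum _ fun j _ => Finset.measurable_fun_sum _ fun i _ => hh j i
  obtain ⟨t, ht, hle⟩ := exists_le_setLAverage (μ := volume) (s := Icc R (2 * R))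
    (f := fun t => ∑ j, ∑ i, h j i t) (by rw [hvol]; exact hRE) (by rw [hvol]; simp)
    hsumm.aemeasurable
  rw [setLAverage_eq, hvol] at hle
  have hint : ∫⁻ t in Icc R (2 * R), ∑ j, ∑ i, h j i t ≤
      (∑ i, C2 i) * ENNReal.ofReal ((R ^ (n - 1))⁻¹) * ∑ j, ∫⁻ y in A, g j y := by
    rw [lintegral_finset_sum _ (fun j _ => Finset.measurable_fun_sum _ fun i _ => hh j i),
      Finset.mul_sum]
    refine Finset.sum_le_sum fun j _ => ?_
    rw [lintegral_finset_sum _ (fun i _ => hh j i), Finset.sum_mul, Finset.sum_mul]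
    exact Finset.sum_le_sum fun i _ => hcf i (g j) (hg j) a R hR
  have ht0 : 0 < t := lt_of_lt_of_le hR ht.1
  refine ⟨t, ht.1, ht.2, fun j x hx z hz => ?_⟩
  have hH : ∀ i, h j i t ≤ ∑ j, ∑ i, h j i t := by
    intro i
    calc h j i t ≤ ∑ i, h j i t :=
          Finset.single_le_sum (f := fun i => h j i t) (fun _ _ => zero_le) (Finset.mem_univ i)
      _ ≤ _ := Finset.single_le_sum (f := fun j => ∑ i, h j i t) (fun _ _ => zero_le)
          (Finset.mem_univ j)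
  set H : ℝ≥0∞ := ∑ j, ∑ i, h j i t with hHdef
  have h1 : ‖φ j x - φ j z‖ₑ ≤ C1 * ENNReal.ofReal t * ∑ i, (h j i t) ^ (1 / (n : ℝ)) :=
    hsb (φ j) (hφ j) a t ht0 x hx z hz
  have h2 : ∑ i, (h j i t) ^ (1 / (n : ℝ)) ≤ N * H ^ (1 / (n : ℝ)) := by
    calc ∑ i, (h j i t) ^ (1 / (n : ℝ)) ≤ ∑ _i : κ, H ^ (1 / (n : ℝ)) :=
          Finset.sum_le_sum fun i _ => ENNReal.rpow_le_rpow (hH i) (by positivity)
      _ = _ := by rw [Finset.sum_const, nsmul_eq_mul, Finset.card_univ]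
  have h3 : ‖φ j x - φ j z‖ₑ ≤ (C1 * 2 * N) * ENNReal.ofReal R * H ^ (1 / (n : ℝ)) := by
    calc ‖φ j x - φ j z‖ₑ ≤ C1 * ENNReal.ofReal t * ∑ i, (h j i t) ^ (1 / (n : ℝ)) := h1
      _ ≤ C1 * ENNReal.ofReal (2 * R) * (N * H ^ (1 / (n : ℝ))) := by
          gcongr
          exact ht.2
      _ = _ := by
          rw [ENNReal.ofReal_mul (by norm_num), ENNReal.ofReal_ofNat]
          ring
  have h4 : ‖φ j x - φ j z‖ₑ ^ (n:ℝ) ≤ (C1 * 2 * N) ^ (n:ℝ) * (ENNReal.ofReal R) ^ (n:ℝ) * H := by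
    calc ‖φ j x - φ j z‖ₑ ^ (n:ℝ) ≤
        ((C1 * 2 * N) * ENNReal.ofReal R * H ^ (1 / (n : ℝ))) ^ (n:ℝ) :=
          ENNReal.rpow_le_rpow h3 hn0.le
      _ = _ := by
          rw [ENNReal.mul_rpow_of_nonneg _ _ hn0.le, ENNReal.mul_rpow_of_nonneg _ _ hn0.le,
            ← ENNReal.rpow_mul, one_div, inv_mul_cancel₀ hn0.ne', ENNReal.rpow_one]
  have h5 : (ENNReal.ofReal R) ^ (n:ℝ) * ((ENNReal.ofReal ((R ^ (n - 1))⁻¹)) / ENNReal.ofReal R)
      = 1 := by
    have hn1 : n = (n - 1) + 1 := by omega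
    have hRn : (0:ℝ) < R ^ (n - 1) := by positivity
    rw [ENNReal.rpow_natCast, ← ENNReal.ofReal_pow hR.le, ← ENNReal.ofReal_div_of_pos hR,
      ← ENNReal.ofReal_mul (by positivity)]
    have : R ^ n * ((R ^ (n - 1))⁻¹ / R) = 1 := by
      conv_lhs => rw [hn1, pow_succ]
      simp only [Nat.add_sub_cancel]
      field_simp
    rw [this, ENNReal.ofReal_one]
  have h6 : H ≤ ((∑ i, C2 i) * ENNReal.ofReal ((R ^ (n - 1))⁻¹) * ∑ j, ∫⁻ y in A, g j y) /
      ENNReal.ofReal R := hle.trans (ENNReal.div_le_div_right hint _)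
  have h7 : ∑ j, ∫⁻ y in A, ‖gradient (φ j) y‖ₑ ^ (n : ℝ) = ∑ j, ∫⁻ y in A, g j y := by
    refine Finset.sum_congr rfl fun j _ => ?_
    refine lintegral_congr fun y => ?_
    rw [enorm_gradient_eq]
  rw [h7]
  calc ‖φ j x - φ j z‖ₑ ^ (n:ℝ) ≤ (C1 * 2 * N) ^ (n:ℝ) * (ENNReal.ofReal R) ^ (n:ℝ) * H := h4
    _ ≤ (C1 * 2 * N) ^ (n:ℝ) * (ENNReal.ofReal R) ^ (n:ℝ) *
        (((∑ i, C2 i) * ENNReal.ofReal ((R ^ (n - 1))⁻¹) * ∑ j, ∫⁻ y in A, g j y) /
      ENNReal.ofReal R) := by gcongr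
    _ = (C1 * 2 * N) ^ (n:ℝ) * (∑ i, C2 i) * (∑ j, ∫⁻ y in A, g j y) *
        ((ENNReal.ofReal R) ^ (n:ℝ) * ((ENNReal.ofReal ((R ^ (n - 1))⁻¹)) / ENNReal.ofReal R)) := by
        simp only [div_eq_mul_inv]
        ring
    _ = _ := by rw [h5, mul_one]

end P3


end

section


section P3
variable {n : ℕ}


/-- oscillation on a good sphere, finite families -/
theorem sphere_osc (hn : 2 ≤ n) : ∃ C : ℝ, 0 < C ∧ ∀ (ι : Type) [Fintype ι] (G : Set (Sp n))
    (ω : ι → Sp n → ℝ) (W : ι → Sp n → Sp n) (a : Sp n) (R : ℝ), IsOpen G → 0 < R →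
    (∀ x : Sp n, R / 2 ≤ dist x a → dist x a ≤ 4 * R → x ∈ G) → (∀ i, ContinuousOn (ω i) G) →
    (∀ i, LH (n : ℝ) volume G (ω i) (W i)) →
    ∃ ρ : ℝ, R ≤ ρ ∧ ρ ≤ 2 * R ∧ ∀ i, ∀ x ∈ Metric.sphere a ρ, ∀ z ∈ Metric.sphere a ρ,
      |ω i x - ω i z| ^ (n : ℝ) ≤
        C * ∑ j, ∫ y in {y | R / 2 ≤ dist y a ∧ dist y a ≤ 4 * R}, ‖W j y‖ ^ (n : ℝ) := by
  classical
  obtain ⟨C₀, hC₀, hosc⟩ := sphere_osc_smooth hn
  refine ⟨C₀.toReal + 1, by positivity, ?_⟩
  intro ι _ G ω W a R hG hR hann hcont hLH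
  have hn1 : 1 ≤ n := by omega
  have hp : (1:ℝ) < (n:ℝ) := by exact_mod_cast hn
  have hn0 : (0:ℝ) < (n:ℝ) := by linarith
  set S : Set (Sp n) := {y | R ≤ dist y a ∧ dist y a ≤ 2 * R} with hS
  set T0 : Set (Sp n) := {y | 3 * R / 4 ≤ dist y a ∧ dist y a ≤ 3 * R} with hT0
  set T1 : Set (Sp n) := {y | R / 2 ≤ dist y a ∧ dist y a ≤ 4 * R} with hT1
  set G' : Set (Sp n) := {y | R / 2 < dist y a ∧ dist y a < 4 * R} with hG'
  have cd : Continuous (fun y : Sp n => dist y a) := continuous_id.dist continuous_const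
  have hSc : IsClosed S := (isClosed_le continuous_const cd).inter (isClosed_le cd continuous_const)
  have hT0cl : IsClosed T0 :=
    (isClosed_le continuous_const cd).inter (isClosed_le cd continuous_const)
  have hT1cl : IsClosed T1 :=
    (isClosed_le continuous_const cd).inter (isClosed_le cd continuous_const)
  have hG'o : IsOpen G' := (isOpen_lt continuous_const cd).inter (isOpen_lt cd continuous_const)
  have hT0c : IsCompact T0 :=
    (isCompact_closedBall a (3 * R)).of_isClosed_subset hT0cl (fun y hy => hy.2)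
  have hT1c : IsCompact T1 :=
    (isCompact_closedBall a (4 * R)).of_isClosed_subset hT1cl (fun y hy => hy.2)
  have hT0G' : T0 ⊆ G' := fun y hy => ⟨by linarith [hy.1], by linarith [hy.2]⟩
  have hT0T1 : T0 ⊆ T1 := fun y hy => ⟨by linarith [hy.1], by linarith [hy.2]⟩
  have hT1G : T1 ⊆ G := fun y hy => hann y hy.1 hy.2
  have hG'G : G' ⊆ G := fun y hy => hann y hy.1.le hy.2.le
  obtain ⟨η, hη, hη01, O, hO, hKO, hOG, hη1⟩ := exists_cutoff hT0c hG'o hT0G'
  obtain ⟨η₁, hη₁, -, O₁, hO₁, hKO₁, hOG₁, hη₁1⟩ := exists_cutoff hT1c hG hT1G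
  have hηG : Cc G η := hη.mono hG'G
  have hH : ∀ i, H0 (n:ℝ) volume G (fun x => η x * ω i x)
      (fun x => η x • W i x + ω i x • gradient η x) := fun i => hLH i η hηG
  have hH₁ : ∀ i, H0 (n:ℝ) volume G (fun x => η₁ x * ω i x)
      (fun x => η₁ x • W i x + ω i x • gradient η₁ x) := fun i => hLH i η₁ hη₁
  have hgc : ∀ i, Continuous (fun x => η x * ω i x) := by
    intro i
    rw [continuous_iff_continuousAt]
    intro x
    by_cases hx : x ∈ tsupport η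
    · have hxG : x ∈ G := hηG.supp hx
      exact (hη.cont.continuousAt).mul ((hcont i).continuousAt (hG.mem_nhds hxG))
    · have hx' : ∀ᶠ y in 𝓝 x, y ∉ tsupport η := (isClosed_tsupport η).isOpen_compl.mem_nhds hx
      have h0 : (fun x => η x * ω i x) =ᶠ[𝓝 x] fun _ => 0 := by
        filter_upwards [hx'] with y hy
        rw [zero_of_notMem hy, zero_mul]
      exact continuousAt_const.congr h0.symm
  have hgr0 : ∀ x ∈ T0, gradient η x = 0 := fun x hx =>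
    grad_zero_of_const_on hO hη1 (hKO hx)
  have hgr1 : ∀ x ∈ T1, gradient η₁ x = 0 := fun x hx =>
    grad_zero_of_const_on hO₁ hη₁1 (hKO₁ hx)
  have hmol : ∀ (k : ℕ) (i : ι), ∃ φ : Sp n → ℝ, Cc univ φ ∧
      (∫⁻ x in S, ‖gradient φ x‖ₑ ^ (n:ℝ) ≤ ∫⁻ x in T1, ‖W i x‖ₑ ^ (n:ℝ)) ∧
      ∀ x, |φ x - η x * ω i x| ≤ R / 16 / ((k:ℝ) + 1) := by
    intro k i
    have hδ : 0 < R / 16 / ((k:ℝ) + 1) := by positivity
    have hδR : R / 16 / ((k:ℝ) + 1) ≤ R / 16 := by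
      apply div_le_self (by positivity)
      have : (0:ℝ) ≤ k := Nat.cast_nonneg k
      linarith
    have hzero : ∀ᵐ x ∂(volume : Measure (Sp n)), x ∉ Metric.closedBall a (4 * R) →
        η x * ω i x = 0 := by
      refine Filter.Eventually.of_forall (fun x hx => ?_)
      have : x ∉ tsupport η := fun h => hx (by
        have := (hη.supp h).2
        exact Metric.mem_closedBall.2 this.le)
      rw [zero_of_notMem this, zero_mul]
    obtain ⟨φ, h1, -, -, -, h5, h6⟩ := mollify_weak hn1 hp (hH i).mu (hH i).mU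
      (isCompact_closedBall a (4 * R)) hzero (fun φ hφ => H0.ibp hp (hH i) hφ) hδ
    refine ⟨φ, h1, ?_, h6 (hgc i)⟩
    refine (h5 S hSc.measurableSet).trans ?_
    have hsub : Metric.thickening (R / 16 / ((k:ℝ) + 1)) S ⊆ T0 := by
      intro x hx
      obtain ⟨s, hs, hxs⟩ := Metric.mem_thickening_iff.1 hx
      have t1 : dist s a ≤ dist s x + dist x a := dist_triangle _ _ _
      have t2 : dist x a ≤ dist x s + dist s a := dist_triangle _ _ _
      rw [dist_comm s x] at t1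
      have s1 := hs.1
      have s2 := hs.2
      exact ⟨by linarith, by linarith⟩
    calc ∫⁻ x in Metric.thickening (R / 16 / ((k:ℝ) + 1)) S,
          ‖η x • W i x + ω i x • gradient η x‖ₑ ^ (n:ℝ)
        ≤ ∫⁻ x in T0, ‖η x • W i x + ω i x • gradient η x‖ₑ ^ (n:ℝ) := lintegral_mono_set hsub
      _ = ∫⁻ x in T0, ‖W i x‖ₑ ^ (n:ℝ) := by
          refine setLIntegral_congr_fun hT0cl.measurableSet (fun x hx => ?_)
          rw [hgr0 x hx, hη1 x (hKO hx), one_smul, smul_zero, add_zero]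
      _ ≤ ∫⁻ x in T1, ‖W i x‖ₑ ^ (n:ℝ) := lintegral_mono_set hT0T1
  choose φ hφ1 hφ2 hφ3 using hmol
  set I : ι → ℝ := fun j => ∫ y in T1, ‖W j y‖ ^ (n : ℝ) with hI
  have hI0 : ∀ j, 0 ≤ I j := fun j =>
    integral_nonneg (fun y => Real.rpow_nonneg (norm_nonneg _) _)
  have hIeq : ∀ j, ∫⁻ x in T1, ‖W j x‖ₑ ^ (n:ℝ) = ENNReal.ofReal (I j) := by
    intro j
    have e1 : ∫⁻ x in T1, ‖W j x‖ₑ ^ (n:ℝ) =
        ∫⁻ x in T1, ‖η₁ x • W j x + ω j x • gradient η₁ x‖ₑ ^ (n:ℝ) := by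
      refine setLIntegral_congr_fun hT1cl.measurableSet (fun x hx => ?_)
      rw [hgr1 x hx, hη₁1 x (hKO₁ hx), one_smul, smul_zero, add_zero]
    have e2 : I j = ∫ x in T1, ‖η₁ x • W j x + ω j x • gradient η₁ x‖ ^ (n:ℝ) := by
      refine setIntegral_congr_fun hT1cl.measurableSet (fun x hx => ?_)
      rw [hgr1 x hx, hη₁1 x (hKO₁ hx), one_smul, smul_zero, add_zero]
    have hml : MemLp (fun x => η₁ x • W j x + ω j x • gradient η₁ x) (ENNReal.ofReal (n:ℝ))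
        (volume.restrict T1) := (hH₁ j).mU.restrict T1
    have hint : Integrable (fun x => ‖η₁ x • W j x + ω j x • gradient η₁ x‖ ^ (n:ℝ))
        (volume.restrict T1) := by
      have := hml.integrable_norm_rpow (by simpa using (by omega : n ≠ 0)) (by simp)
      rwa [ENNReal.toReal_ofReal hn0.le] at this
    rw [e1, e2, ofReal_integral_eq_lintegral_ofReal hint
      (Filter.Eventually.of_forall (fun y => Real.rpow_nonneg (norm_nonneg _) _))]
    refine lintegral_congr (fun x => ?_)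
    rw [← ofReal_norm, ENNReal.ofReal_rpow_of_nonneg (norm_nonneg _) hn0.le]
  set B : ℝ := C₀.toReal * ∑ j, I j with hB
  have hB0 : 0 ≤ B := mul_nonneg ENNReal.toReal_nonneg (Finset.sum_nonneg (fun j _ => hI0 j))
  have hρ : ∀ k : ℕ, ∃ ρ : ℝ, R ≤ ρ ∧ ρ ≤ 2 * R ∧ ∀ i, ∀ x ∈ Metric.sphere a ρ,
      ∀ z ∈ Metric.sphere a ρ, |φ k i x - φ k i z| ^ (n : ℝ) ≤ B := by
    intro k
    obtain ⟨ρ, h1, h2, h3⟩ := hosc ι (φ k) a R hR
      (fun i => (hφ1 k i).smooth.of_le (by exact_mod_cast le_top))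
    refine ⟨ρ, h1, h2, fun i x hx z hz => ?_⟩
    have h4 := h3 i x hx z hz
    have h5 : C₀ * ∑ j, ∫⁻ y in S, ‖gradient (φ k j) y‖ₑ ^ (n : ℝ) ≤ ENNReal.ofReal B := by
      rw [hB, ENNReal.ofReal_mul ENNReal.toReal_nonneg, ENNReal.ofReal_toReal hC₀,
        ENNReal.ofReal_sum_of_nonneg (fun j _ => hI0 j)]
      gcongr with j _
      exact (hφ2 k j).trans (hIeq j).le
    have h6 := h4.trans h5
    rw [Real.enorm_eq_ofReal_abs, ENNReal.ofReal_rpow_of_nonneg (abs_nonneg _) hn0.le,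
      ENNReal.ofReal_le_ofReal_iff hB0] at h6
    exact h6
  choose ρ hρ1 hρ2 hρ3 using hρ
  obtain ⟨ρ0, hρ0, σ, hσ, hlim⟩ := (isCompact_Icc (a := R) (b := 2 * R)).tendsto_subseq
    (fun k => ⟨hρ1 k, hρ2 k⟩)
  have hρ0pos : 0 < ρ0 := lt_of_lt_of_le hR hρ0.1
  refine ⟨ρ0, hρ0.1, hρ0.2, ?_⟩
  have hsph : ∀ x ∈ Metric.sphere a ρ0, ∀ j, a + (ρ (σ j) / ρ0) • (x - a) ∈
      Metric.sphere a (ρ (σ j)) := by
    intro x hx j
    rw [mem_sphere_iff_norm, add_sub_cancel_left, norm_smul, Real.norm_eq_abs,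
      mem_sphere_iff_norm.1 hx, abs_of_pos (div_pos (lt_of_lt_of_le hR (hρ1 _)) hρ0pos)]
    field_simp
  have hx_lim : ∀ x : Sp n, Tendsto (fun j => a + (ρ (σ j) / ρ0) • (x - a)) atTop (𝓝 x) := by
    intro x
    have h1 : Tendsto (fun j => a + (ρ (σ j) / ρ0) • (x - a)) atTop
        (𝓝 (a + (ρ0 / ρ0) • (x - a))) :=
      tendsto_const_nhds.add ((hlim.div_const ρ0).smul_const (x - a))
    rwa [div_self hρ0pos.ne', one_smul, add_sub_cancel] at h1
  have hδlim : Tendsto (fun j : ℕ => R / 16 / (((σ j : ℕ) : ℝ) + 1)) atTop (𝓝 0) := by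
    have h1 : Tendsto (fun k : ℕ => R / 16 / ((k : ℝ) + 1)) atTop (𝓝 0) := by
      apply Tendsto.div_atTop tendsto_const_nhds
      exact tendsto_atTop_add_const_right _ _ tendsto_natCast_atTop_atTop
    exact h1.comp hσ.tendsto_atTop
  have hφlim : ∀ i, ∀ x ∈ Metric.sphere a ρ0,
      Tendsto (fun j => φ (σ j) i (a + (ρ (σ j) / ρ0) • (x - a))) atTop (𝓝 (ω i x)) := by
    intro i x hx
    have e1 : Tendsto (fun j => η (a + (ρ (σ j) / ρ0) • (x - a)) *
        ω i (a + (ρ (σ j) / ρ0) • (x - a))) atTop (𝓝 (η x * ω i x)) :=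
      ((hgc i).tendsto x).comp (hx_lim x)
    have e2 : Tendsto (fun j => φ (σ j) i (a + (ρ (σ j) / ρ0) • (x - a)) -
        η (a + (ρ (σ j) / ρ0) • (x - a)) * ω i (a + (ρ (σ j) / ρ0) • (x - a))) atTop (𝓝 0) := by
      refine squeeze_zero_norm (fun j => ?_) hδlim
      rw [Real.norm_eq_abs]
      exact hφ3 (σ j) i _
    have e3 := e2.add e1
    have hxT : x ∈ T0 := by
      have : dist x a = ρ0 := Metric.mem_sphere.1 hx
      have a1 := hρ0.1
      have a2 := hρ0.2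
      exact ⟨by rw [this]; linarith, by rw [this]; linarith⟩
    rw [hη1 x (hKO hxT), one_mul, zero_add] at e3
    refine e3.congr (fun j => ?_)
    ring
  intro i x hx z hz
  have hle : |ω i x - ω i z| ^ (n : ℝ) ≤ B := by
    refine le_of_tendsto' ((((hφlim i x hx).sub (hφlim i z hz)).abs).rpow_const
      (Or.inr hn0.le)) (fun j => ?_)
    exact hρ3 (σ j) i _ (hsph x hx j) _ (hsph z hz j)
  refine hle.trans ?_
  rw [hB]
  exact mul_le_mul_of_nonneg_right (by linarith) (Finset.sum_nonneg (fun j _ => hI0 j))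

end P3


end

end Pool.Agent.Helper533.Polar
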