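import Pool.Agent.Helper533.NHM.PotB
import Pool.Agent.Helper533.NHM.Sph
import Pool.Agent.Helper533.NHM.AdmVol
open MeasureTheory Filter Topology Set
open scoped ENNReal NNReal RealInnerProductSpace

namespace Pool.Agent.Helper533.Polar

section


section P4
variable {n : ℕ} {α β Cd θ Cs lam Cp : ℝ}


/-- from bounds of `Xb` to a good sphere -/
theorem NPot.good (hn : 2 ≤ n) (hα : 0 < α) (hβ : 0 < β) : ∃ C : ℝ, 0 < C ∧
    ∀ (A : Sp n → Sp n → Sp n), Op (n : ℝ) α β (volume : Measure (Sp n)) A →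
    ∀ (D : Set (Sp n)) (a : Sp n) (t : ℝ) (ω : Sp n → ℝ) (W : Sp n → Sp n) (M : ℝ),
    NPot A D a t ω W M → ∀ R X : ℝ, 0 < t → 2 * t ≤ R → Metric.closedBall a (2 * R) ⊆ D →
    0 ≤ X → Xb ω a (R / 2) X → Xb ω a R X → Xb ω a (2 * R) X →
    ∃ r : ℝ, R ≤ r ∧ r ≤ 2 * R ∧ ∀ x z : Sp n, r ≤ dist x a → dist z a ≤ r →
      ω x ≤ ω z + C * X ^ (1 / (n : ℝ)) := by
  have hn0 : (0 : ℝ) < n := by
    have : 0 < n := by omega
    exact_mod_cast this
  have hn1 : (1 : ℝ) < n := by
    have : 1 < n := by omega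
    exact_mod_cast this
  obtain ⟨C1, hC1, hosc⟩ := sphere_osc (n := n) hn
  refine ⟨(C1 * (3 / α)) ^ (1 / (n : ℝ)), Real.rpow_pos_of_pos (by positivity) _, ?_⟩
  intro A hA D a t ω W M hP R X ht htR hD hX hX1 hX2 hX3
  have hR : 0 < R := by linarith
  have : Nonempty (Fin n) := ⟨⟨0, by omega⟩⟩
  have : Nontrivial (Sp n) := by
    apply Module.nontrivial_of_finrank_pos (R := ℝ)
    rw [finrank_euclideanSpace, Fintype.card_fin]
    omega
  obtain ⟨z1, hz1⟩ := (NormedSpace.sphere_nonempty (x := a) (r := R)).mpr hR.le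
  obtain ⟨z2, hz2⟩ := (NormedSpace.sphere_nonempty (x := a) (r := 2 * R)).mpr (by linarith)
  rw [Metric.mem_sphere] at hz1 hz2
  have hchain : ∀ x z : Sp n, R / 2 ≤ dist x a → dist z a ≤ 4 * R → ω x ≤ ω z + 3 * X := by
    intro x z hx hz
    have e1 := hX1 x z1 hx (by rw [hz1]; linarith)
    have e2 := hX2 z1 z2 (by rw [hz1]) (by rw [hz2])
    have e3 := hX3 z2 z (by rw [hz2]) (by linarith)
    linarith
  obtain ⟨S, hS⟩ : ∃ S : Set (Sp n), S = {y | R / 2 ≤ dist y a ∧ dist y a ≤ 4 * R} := ⟨_, rfl⟩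
  have hSm : MeasurableSet S := by
    rw [hS]
    refine IsClosed.measurableSet ?_
    exact (isClosed_le continuous_const (continuous_id.dist continuous_const)).inter
      (isClosed_le (continuous_id.dist continuous_const) continuous_const)
  obtain ⟨c, hc⟩ : ∃ c : ℝ, c = sInf (ω '' {z | dist z a ≤ 4 * R}) := ⟨_, rfl⟩
  have hne : (ω '' {z | dist z a ≤ 4 * R}).Nonempty :=
    ⟨ω a, a, by show dist a a ≤ 4 * R; rw [dist_self]; linarith, rfl⟩
  have hbb : BddBelow (ω '' {z | dist z a ≤ 4 * R}) := by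
    refine ⟨0, ?_⟩
    rintro _ ⟨z, _, rfl⟩
    exact (hP.bd z).1
  have hc0 : 0 ≤ c := by
    rw [hc]
    refine le_csInf hne ?_
    rintro _ ⟨z, _, rfl⟩
    exact (hP.bd z).1
  have hcl : ∀ z : Sp n, dist z a ≤ 4 * R → c ≤ ω z := by
    intro z hz
    rw [hc]
    exact csInf_le hbb ⟨z, hz, rfl⟩
  have hcu : ∀ x : Sp n, R / 2 ≤ dist x a → ω x ≤ c + 3 * X := by
    intro x hx
    have h1 : ω x - 3 * X ≤ c := by
      rw [hc]
      refine le_csInf hne ?_
      rintro _ ⟨z, hz, rfl⟩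
      have := hchain x z hx hz
      linarith
    linarith
  have hen := NPot.energy_le (n := n) hn hα hβ hA hP hSm (c := c) (c' := c + 3 * X) hc0
    (by linarith) (by
      intro x hx
      rw [hS] at hx
      exact ⟨hcl x hx.2, hcu x hx.1⟩)
  obtain ⟨ρ, hρ1, hρ2, hρ3⟩ := hosc Unit univ (fun _ => ω) (fun _ => W) a R isOpen_univ hR
    (fun _ _ _ => mem_univ _) (fun _ => hP.cont.continuousOn) (fun _ => hP.h0.toLH hn1)
  rw [← hS] at hρ3
  simp only [Finset.univ_unique, Finset.sum_const, Finset.card_singleton, one_smul,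
    forall_const] at hρ3
  have hEn : ∫ y in S, ‖W y‖ ^ (n : ℝ) ≤ 3 / α * X := by
    rw [div_mul_eq_mul_div, le_div_iff₀ hα]
    linarith
  have hE0 : 0 ≤ ∫ y in S, ‖W y‖ ^ (n : ℝ) :=
    integral_nonneg (fun y => Real.rpow_nonneg (norm_nonneg _) _)
  have hosc2 : ∀ x ∈ Metric.sphere a ρ, ∀ z ∈ Metric.sphere a ρ,
      |ω x - ω z| ≤ (C1 * (3 / α)) ^ (1 / (n : ℝ)) * X ^ (1 / (n : ℝ)) := by
    intro x hx z hz
    have h1 := hρ3 x hx z hz
    have h2 : |ω x - ω z| ^ (n : ℝ) ≤ C1 * (3 / α) * X := by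
      refine h1.trans ?_
      rw [mul_assoc]
      exact mul_le_mul_of_nonneg_left hEn hC1.le
    have h3 := Real.rpow_le_rpow (Real.rpow_nonneg (abs_nonneg _) _) h2
      (show (0 : ℝ) ≤ 1 / (n : ℝ) by positivity)
    rw [← Real.rpow_mul (abs_nonneg _), mul_one_div_cancel hn0.ne', Real.rpow_one,
      Real.mul_rpow (by positivity) hX] at h3
    exact h3
  have hDρ : Metric.closedBall a ρ ⊆ D := (Metric.closedBall_subset_closedBall hρ2).trans hD
  refine ⟨ρ, hρ1, hρ2, ?_⟩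
  intro x z hx hz
  have h1 : ∀ z0 ∈ Metric.sphere a ρ, ω x ≤ ω z0 +
      (C1 * (3 / α)) ^ (1 / (n : ℝ)) * X ^ (1 / (n : ℝ)) := by
    intro z0 hz0
    refine hP.maxp ρ _ (by linarith) hDρ ?_ x hx
    intro y hy
    have h2 := (abs_le.mp (hosc2 y hy z0 hz0)).2
    linarith
  have h3 := hP.minp ρ (ω x - (C1 * (3 / α)) ^ (1 / (n : ℝ)) * X ^ (1 / (n : ℝ)))
    (by linarith) hDρ (by
      intro z0 hz0
      have := h1 z0 hz0
      linarith) z hz
  linarith

end P4


end

section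


section P4
variable {n : ℕ} {α β Cd θ Cs lam Cp : ℝ}


/-- one step of the recursion -/
theorem NPot.step (hn : 2 ≤ n) (hα : 0 < α) (hβ : 0 < β)
    (hadm : Adm (n : ℝ) (volume : Measure (Sp n)) Cd θ Cs lam Cp) : ∃ C : ℝ, 0 < C ∧
    ∀ (A : Sp n → Sp n → Sp n), Op (n : ℝ) α β (volume : Measure (Sp n)) A →
    ∀ (y0 a : Sp n) (s t : ℝ) (ω : Sp n → ℝ) (W : Sp n → Sp n) (M : ℝ),
    NPot A (Metric.ball y0 s) a t ω W M → 0 < t → 16 * t ≤ s → dist a y0 ≤ s / 4 →
    ∀ X : ℝ, 0 ≤ X → (∀ R : ℝ, 2 * t ≤ R → R ≤ s / 8 → Xb ω a R X) →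
    ∀ R : ℝ, 2 * t ≤ R → R ≤ s / 8 → Xb ω a R (C + C * X ^ (1 / (n : ℝ))) := by
  obtain ⟨C1, hC1, hring⟩ := NPot.ring hn hα hadm 512 (by norm_num)
  obtain ⟨C2, hC2, hgood⟩ := NPot.good (α := α) (β := β) hn hα hβ
  refine ⟨C1 + 2 * C2, by positivity, ?_⟩
  intro A hA y0 a s t ω W M hN ht hts hay X hX hXb R hR1 hR2 x z hx hz
  have hs : 0 < s := by linarith
  have hR : 0 < R := by linarith
  have hXn : 0 ≤ X ^ (1 / (n : ℝ)) := Real.rpow_nonneg hX _
  have hY : 0 ≤ C2 * X ^ (1 / (n : ℝ)) := mul_nonneg hC2.le hXn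
  have hgd : ∀ R' : ℝ, 4 * t ≤ R' → R' ≤ s / 16 → ∃ r : ℝ, R' ≤ r ∧ r ≤ 2 * R' ∧
      ∀ x z : Sp n, r ≤ dist x a → dist z a ≤ r → ω x ≤ ω z + C2 * X ^ (1 / (n : ℝ)) := by
    intro R' h1 h2
    refine hgood A hA (Metric.ball y0 s) a t ω W M hN R' X ht (by linarith) ?_ hX
      (hXb _ (by linarith) (by linarith)) (hXb _ (by linarith) (by linarith))
      (hXb _ (by linarith) (by linarith))
    intro u hu
    rw [Metric.mem_closedBall] at hu
    rw [Metric.mem_ball]
    have := dist_triangle u a y0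
    linarith
  have hlow : ∃ r1 : ℝ, 0 < r1 ∧ R ≤ 8 * r1 ∧
      ∀ u, dist u a ≤ r1 → ω x - C2 * X ^ (1 / (n : ℝ)) ≤ ω u := by
    by_cases h8 : 8 * t ≤ R
    · obtain ⟨r, hr1, hr2, hr3⟩ := hgd (R / 2) (by linarith) (by linarith)
      refine ⟨r, by linarith, by linarith, fun u hu => ?_⟩
      have := hr3 x u (by linarith) hu
      linarith
    · push Not at h8
      refine ⟨t, ht, by linarith, fun u hu => ?_⟩
      rw [hN.inner u (Metric.mem_closedBall.2 hu)]
      have := (hN.bd x).2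
      linarith
  have hup : ∃ r2 : ℝ, r2 ≤ 64 * R ∧
      ∀ u, r2 ≤ dist u a → ω u ≤ ω z + C2 * X ^ (1 / (n : ℝ)) := by
    by_cases h32 : R ≤ s / 32
    · obtain ⟨r, hr1, hr2, hr3⟩ := hgd (2 * R) (by linarith) (by linarith)
      refine ⟨r, by linarith, fun u hu => ?_⟩
      exact hr3 u z hu (by linarith)
    · push Not at h32
      refine ⟨2 * s, by linarith, fun u hu => ?_⟩
      have h1 : u ∉ Metric.ball y0 s := by
        rw [Metric.mem_ball]
        intro h2
        have := dist_triangle_right u a y0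
        linarith
      rw [hN.out u h1]
      have := (hN.bd z).1
      linarith
  obtain ⟨r1, hr1, hr1', hlow⟩ := hlow
  obtain ⟨r2, hr2, hup⟩ := hup
  have hz0 := (hN.bd z).1
  have hfin := hring β A hβ hA (Metric.ball y0 s) a t ω W M hN r1 r2 _ _ hr1 (by linarith)
    (by linarith) hlow hup
  have h9 : 0 ≤ C1 * X ^ (1 / (n : ℝ)) := mul_nonneg hC1.le hXn
  have h10 : (C1 + 2 * C2) * X ^ (1 / (n : ℝ)) =
      C1 * X ^ (1 / (n : ℝ)) + 2 * (C2 * X ^ (1 / (n : ℝ))) := by ring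
  rw [h10]
  linarith

end P4


end

section


section P4
variable {n : ℕ} {α β Cd θ Cs lam Cp : ℝ}


/-- the universal dyadic bound -/
theorem NPot.dyadic (hn : 2 ≤ n) (hα : 0 < α) (hβ : 0 < β)
    (hadm : Adm (n : ℝ) (volume : Measure (Sp n)) Cd θ Cs lam Cp) : ∃ C : ℝ, 0 < C ∧
    ∀ (A : Sp n → Sp n → Sp n), Op (n : ℝ) α β (volume : Measure (Sp n)) A →
    ∀ (y0 a : Sp n) (s t : ℝ) (ω : Sp n → ℝ) (W : Sp n → Sp n) (M : ℝ),
    NPot A (Metric.ball y0 s) a t ω W M → 0 < t → 16 * t ≤ s → dist a y0 ≤ s / 4 →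
    ∀ R : ℝ, 2 * t ≤ R → R ≤ s / 8 → Xb ω a R C := by
  obtain ⟨C, hC, hstep⟩ := NPot.step (n := n) hn hα hβ hadm
  refine ⟨max 1 (4 * C ^ 2), by positivity, ?_⟩
  intro A hA y0 a s t ω W M hP ht hts hda
  set S : Set ℝ := {X | 0 ≤ X ∧ ∀ R : ℝ, 2 * t ≤ R → R ≤ s / 8 → Xb ω a R X} with hS
  have hM0 : 0 ≤ M := (hP.bd 0).1.trans (hP.bd 0).2
  have hMS : M ∈ S := by
    refine ⟨hM0, fun R _ _ x z _ _ => ?_⟩
    have h1 := (hP.bd x).2
    have h2 := (hP.bd z).1
    linarith
  have hbdd : BddBelow S := ⟨0, fun X hX => hX.1⟩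
  set X0 := sInf S with hX0
  have hX0n : 0 ≤ X0 := le_csInf ⟨M, hMS⟩ fun X hX => hX.1
  have hX0S : ∀ R : ℝ, 2 * t ≤ R → R ≤ s / 8 → Xb ω a R X0 := by
    intro R hR1 hR2 x z hx hz
    have h1 : ω x - ω z ≤ X0 := by
      refine le_csInf ⟨M, hMS⟩ fun X hX => ?_
      have := hX.2 R hR1 hR2 x z hx hz
      linarith
    linarith
  have hstep' := hstep A hA y0 a s t ω W M hP ht hts hda X0 hX0n hX0S
  have hle : X0 ≤ C + C * X0 ^ (1 / (n : ℝ)) := by
    refine csInf_le hbdd ⟨by positivity, hstep'⟩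
  have hfin : X0 ≤ max 1 (4 * C ^ 2) := by
    by_cases h1 : X0 ≤ 1
    · exact h1.trans (le_max_left _ _)
    · push Not at h1
      refine le_trans ?_ (le_max_right _ _)
      have hn' : (2 : ℝ) ≤ n := by exact_mod_cast hn
      have hexp : 1 / (n : ℝ) ≤ 1 / 2 := one_div_le_one_div_of_le (by norm_num) hn'
      have h2 : X0 ^ (1 / (n : ℝ)) ≤ X0 ^ (1 / 2 : ℝ) :=
        Real.rpow_le_rpow_of_exponent_le h1.le hexp
      rw [← Real.sqrt_eq_rpow] at h2
      have h3 : Real.sqrt X0 ^ 2 = X0 := Real.sq_sqrt hX0n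
      have h4 : 1 ≤ Real.sqrt X0 := by
        rw [Real.one_le_sqrt]; exact h1.le
      have h5 : X0 ≤ 2 * C * Real.sqrt X0 := by
        have h6 : C * X0 ^ (1 / (n : ℝ)) ≤ C * Real.sqrt X0 := mul_le_mul_of_nonneg_left h2 hC.le
        have h7 : C * 1 ≤ C * Real.sqrt X0 := mul_le_mul_of_nonneg_left h4 hC.le
        linarith
      have h8 : Real.sqrt X0 ≤ 2 * C := by
        have h9 : Real.sqrt X0 * Real.sqrt X0 ≤ 2 * C * Real.sqrt X0 := by
          rw [← sq, h3]; exact h5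
        exact le_of_mul_le_mul_right h9 (by linarith)
      nlinarith
  intro R hR1 hR2 x z hx hz
  have := hX0S R hR1 hR2 x z hx hz
  linarith

end P4


end

section


section P4
variable {n : ℕ} {α β Cd θ Cs lam Cp : ℝ}


/-- growth -/
theorem NPot.growth (hn : 2 ≤ n) (hα : 0 < α) (hβ : 0 < β)
    (hadm : Adm (n : ℝ) (volume : Measure (Sp n)) Cd θ Cs lam Cp) : ∃ L C : ℝ, 4 ≤ L ∧ 0 < C ∧
    ∀ (A : Sp n → Sp n → Sp n), Op (n : ℝ) α β (volume : Measure (Sp n)) A →
    ∀ (y0 a : Sp n) (s t : ℝ) (ω : Sp n → ℝ) (W : Sp n → Sp n) (M : ℝ),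
    NPot A (Metric.ball y0 s) a t ω W M → 0 < t → 16 * t ≤ s → dist a y0 ≤ s / 4 →
    (∀ x, s / 8 ≤ dist x a → ω x ≤ C) ∧
    ∀ R : ℝ, 4 * t ≤ R → L * R ≤ s / 16 → ∀ x z : Sp n, dist x a ≤ R → L * R ≤ dist z a →
      ω z + 1 ≤ ω x := by
  obtain ⟨C1, hC1, hdy⟩ := Pool.Agent.Helper533.Polar.NPot.dyadic hn hα hβ hadm
  obtain ⟨c, hc, hen⟩ := Pool.Agent.Helper533.Polar.NPot.energy_ge (n := n) hn hβ
  obtain ⟨C2, hC2, hring⟩ := Pool.Agent.Helper533.Polar.NPot.ring hn hα hadm 8 (by norm_num)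
  have hαc : 0 < α * c := mul_pos hα hc
  obtain ⟨N, hN⟩ := exists_nat_ge ((2 * C1 + 1) / (α * c) + 2)
  have hN2 : (2 : ℝ) ≤ N := by
    have : 0 ≤ (2 * C1 + 1) / (α * c) := by positivity
    linarith
  have hN3 : 2 * C1 + 1 ≤ α * c * (N + 2) := by
    have h1 : (2 * C1 + 1) / (α * c) ≤ (N : ℝ) + 2 := by linarith
    rw [div_le_iff₀ hαc] at h1
    linarith
  have hN2' : 2 ≤ N := by exact_mod_cast hN2
  have hL4 : (4 : ℝ) ≤ 2 ^ N := by
    calc (4 : ℝ) = 2 ^ 2 := by norm_num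
      _ ≤ 2 ^ N := pow_le_pow_right₀ (by norm_num) hN2'
  refine ⟨2 ^ N, C1 + C2, hL4, by positivity, ?_⟩
  intro A hA y0 a s t ω W M h ht hts hay
  have hX := hdy A hA y0 a s t ω W M h ht hts hay
  have hs : 0 < s := by linarith
  constructor
  · intro x hx
    have h1 := hX (s / 8) (by linarith) le_rfl
    have h2 := hring β A hβ hA (Metric.ball y0 s) a t ω W M h (s / 4) (2 * s) (ω x - C1) 0
      (by linarith) (by linarith) le_rfl
      (by
        intro z hz
        have := h1 x z hx (by linarith)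
        linarith)
      (by
        intro z hz
        have h3 : z ∉ Metric.ball y0 s := by
          rw [Metric.mem_ball, not_lt]
          have := dist_triangle z y0 a
          have h4 : dist y0 a = dist a y0 := dist_comm _ _
          linarith
        exact (h.out z h3).le)
    linarith
  · intro R hR hLR x z hx hz
    have hR0 : 0 < R := by linarith
    have hRL : R ≤ 2 ^ N * R := by nlinarith
    have h1 := hX (R / 2) (by linarith) (by linarith)
    have h2 := hX (2 ^ N * R) (by linarith) (by linarith)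
    set S : Set (Sp n) := {y | R / 2 ≤ dist y a ∧ dist y a ≤ 2 * (2 ^ N * R)} with hS
    have hSm : MeasurableSet S := by
      have e1 : Measurable (fun y : Sp n => dist y a) := (continuous_id.dist continuous_const).measurable
      exact (measurableSet_le measurable_const e1).inter (measurableSet_le e1 measurable_const)
    have hle := Pool.Agent.Helper533.Polar.NPot.energy_le hn hα hβ hA h hSm
      (c := max 0 (ω z - C1)) (c' := ω x + C1) (le_max_left _ _)
      (by
        apply max_le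
        · have := (h.bd x).1
          linarith
        · have := h2 z x hz (by linarith)
          linarith)
      (by
        intro y hy
        refine ⟨max_le (h.bd y).1 ?_, ?_⟩
        · have := h2 z y hz hy.2
          linarith
        · exact h1 y x hy.1 (by linarith))
    have hint : Integrable (fun y => ‖W y‖ ^ (n : ℝ)) (volume : Measure (Sp n)) := by
      have h3 := h.h0.mU
      have hn0 : (0 : ℝ) < n := by
        have : 0 < n := by omega
        exact_mod_cast this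
      have h4 := h3.integrable_norm_rpow (by
        rw [Ne, ENNReal.ofReal_eq_zero, not_le]; exact hn0) ENNReal.ofReal_ne_top
      rwa [ENNReal.toReal_ofReal hn0.le] at h4
    have hnn : ∀ y, 0 ≤ ‖W y‖ ^ (n : ℝ) := fun y => Real.rpow_nonneg (norm_nonneg _) _
    have hann : ∀ m : ℕ, m ≤ N + 2 → (m : ℝ) * c ≤
        ∫ y in {y : Sp n | R / 2 ≤ dist y a ∧ dist y a < 2 ^ m * (R / 2)}, ‖W y‖ ^ (n : ℝ) := by
      intro m
      induction m with
      | zero =>
        intro _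
        simp only [Nat.cast_zero, zero_mul]
        exact integral_nonneg fun y => hnn y
      | succ m ih =>
        intro hm
        have ih := ih (by omega)
        have hpos : (0 : ℝ) < 2 ^ m * (R / 2) := by positivity
        have h2m : (1 : ℝ) ≤ 2 ^ m := one_le_pow₀ (by norm_num)
        have hRm : R / 2 ≤ 2 ^ m * (R / 2) := by nlinarith
        have hup : 2 * (2 ^ m * (R / 2)) ≤ 2 * (2 ^ N * R) := by
          have : (2 : ℝ) ^ m ≤ 2 ^ (N + 1) := pow_le_pow_right₀ (by norm_num) (by omega)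
          rw [pow_succ] at this
          nlinarith
        have h5 := hen α A hα hA (Metric.ball y0 s) a t ω W M h (2 ^ m * (R / 2)) ht
          (by linarith)
          (by
            apply Metric.ball_subset_ball'
            linarith)
        have e : {y : Sp n | R / 2 ≤ dist y a ∧ dist y a < 2 ^ (m + 1) * (R / 2)} =
            {y : Sp n | R / 2 ≤ dist y a ∧ dist y a < 2 ^ m * (R / 2)} ∪
            {y : Sp n | 2 ^ m * (R / 2) ≤ dist y a ∧ dist y a < 2 * (2 ^ m * (R / 2))} := by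
          ext y
          simp only [mem_setOf_eq, mem_union]
          rw [pow_succ]
          constructor
          · rintro ⟨h6, h7⟩
            rcases lt_or_ge (dist y a) (2 ^ m * (R / 2)) with h8 | h8
            · exact Or.inl ⟨h6, h8⟩
            · exact Or.inr ⟨h8, by linarith⟩
          · rintro (⟨h6, h7⟩ | ⟨h6, h7⟩)
            · exact ⟨h6, by linarith⟩
            · exact ⟨by linarith, by linarith⟩
        have e1 : Measurable (fun y : Sp n => dist y a) :=
          (continuous_id.dist continuous_const).measurable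
        have hdisj : Disjoint {y : Sp n | R / 2 ≤ dist y a ∧ dist y a < 2 ^ m * (R / 2)}
            {y : Sp n | 2 ^ m * (R / 2) ≤ dist y a ∧ dist y a < 2 * (2 ^ m * (R / 2))} := by
          rw [Set.disjoint_left]
          intro y hy hy'
          exact absurd hy.2 (not_lt.2 hy'.1)
        rw [e, setIntegral_union hdisj
          ((measurableSet_le measurable_const e1).inter (measurableSet_lt e1 measurable_const))
          hint.integrableOn hint.integrableOn]
        push_cast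
        linarith
    have h6 := hann (N + 2) le_rfl
    have h7 : ∫ y in {y : Sp n | R / 2 ≤ dist y a ∧ dist y a < 2 ^ (N + 2) * (R / 2)},
        ‖W y‖ ^ (n : ℝ) ≤ ∫ y in S, ‖W y‖ ^ (n : ℝ) := by
      apply setIntegral_mono_set hint.integrableOn (Filter.Eventually.of_forall fun y => hnn y)
      apply HasSubset.Subset.eventuallyLE
      intro y hy
      refine ⟨hy.1, ?_⟩
      have h8 := hy.2
      rw [pow_add] at h8
      linarith
    have h8 : α * (((N + 2 : ℕ) : ℝ) * c) ≤ ω x + C1 - max 0 (ω z - C1) :=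
      le_trans (mul_le_mul_of_nonneg_left (h6.trans h7) hα.le) hle
    have h9 : ω z - C1 ≤ max 0 (ω z - C1) := le_max_right _ _
    push_cast at h8
    nlinarith

end P4


end

section


section P4
variable {n : ℕ} {α β Cd θ Cs lam Cp : ℝ}


/-- the target potentials -/
theorem target_potential (hn : 2 ≤ n) (hα : 0 < α) (hβ : 0 < β) : ∃ L C : ℝ, 4 ≤ L ∧ 0 < C ∧
    ∀ (A : Sp n → Sp n → Sp n), Op (n : ℝ) α β (volume : Measure (Sp n)) A →
    SMono (volume : Measure (Sp n)) A →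
    ∀ (y0 a : Sp n) (s t : ℝ), 0 < t → dist a y0 ≤ s / 4 → L * t ≤ s →
    ∃ (ω : Sp n → ℝ) (W : Sp n → Sp n) (M : ℝ), 0 < M ∧ Continuous ω ∧ (∀ x, 0 ≤ ω x ∧ ω x ≤ M) ∧
      (∀ x, x ∉ Metric.ball y0 s → ω x = 0) ∧ (∀ x, dist x a ≤ t → ω x = M) ∧
      (∀ x, L * t ≤ dist x a → ω x < M) ∧
      LH (n : ℝ) volume (Metric.ball y0 s ∩ {x | ω x < M}) ω W ∧
      (∀ φ, Cc (Metric.ball y0 s ∩ {x | ω x < M}) φ → ∫ x, ⟪A x (W x), gradient φ x⟫ = 0) ∧
      (∀ x, s / 8 ≤ dist x a → ω x ≤ C) ∧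
      (∀ R : ℝ, t ≤ R → L * R ≤ s → ∀ x z : Sp n, dist x a ≤ R → L * R ≤ dist z a →
        ω z + 1 ≤ ω x) ∧
      ∀ R : ℝ, t ≤ R → R ≤ s / 8 → ∀ x z : Sp n, R ≤ dist x a → dist z a ≤ 2 * R →
        ω x ≤ ω z + C := by
  have hn1 : 1 ≤ n := by omega
  have hp : (1:ℝ) < (n:ℝ) := by exact_mod_cast (show 1 < n by omega)
  obtain ⟨Cd, θ, Cs, lam, Cp, hadm⟩ := adm_volume (n := n) hn1 hp
  obtain ⟨C2, hC2, hdy⟩ := NPot.dyadic (n := n) hn hα hβ hadm
  obtain ⟨L', C1, hL', hC1, hgr⟩ := NPot.growth (n := n) hn hα hβ hadm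
  refine ⟨16 * L', max C1 C2, by linarith, lt_max_of_lt_left hC1, ?_⟩
  intro A hA hS y0 a s t ht hay hLt
  have hLt64 : 64 * t ≤ 16 * L' * t := by nlinarith
  have hs : 0 < s := by linarith
  have hsub : Metric.closedBall a (2 * (t / 4)) ⊆ Metric.ball y0 s := by
    intro x hx
    rw [Metric.mem_closedBall] at hx
    rw [Metric.mem_ball]
    have := dist_triangle x a y0
    linarith
  obtain ⟨ω0, W, M0, hN⟩ := exists_npot hn hα hβ hA hS hadm (y0 := y0) (a := a) (s := s)
    (t := t / 4) hs (by linarith) hsub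
  obtain ⟨hfar, hgrow⟩ := hgr A hA y0 a s (t / 4) ω0 W M0 hN (by linarith) (by linarith) hay
  have hXb := hdy A hA y0 a s (t / 4) ω0 W M0 hN (by linarith) (by linarith) hay
  obtain ⟨x1, hx1, hmin⟩ := (isCompact_closedBall a t).exists_isMinOn
    ⟨a, Metric.mem_closedBall_self ht.le⟩ hN.cont.continuousOn
  rw [Metric.mem_closedBall] at hx1
  set c0 := ω0 x1 with hc0
  have hmin' : ∀ x, dist x a ≤ t → c0 ≤ ω0 x := fun x hx => hmin (Metric.mem_closedBall.mpr hx)
  -- a far point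
  have hL't : 0 < L' * t := by nlinarith
  have hex : ∃ z : Sp n, L' * t ≤ dist z a := by
    refine ⟨a + EuclideanSpace.single (⟨0, by omega⟩ : Fin n) (L' * t), ?_⟩
    rw [dist_eq_norm, add_sub_cancel_left, EuclideanSpace.norm_single, Real.norm_eq_abs]
    exact le_abs_self _
  obtain ⟨z0, hz0⟩ := hex
  have hgt : ∀ z : Sp n, L' * t ≤ dist z a → ω0 z + 1 ≤ c0 := by
    intro z hz
    exact hgrow t (by linarith) (by linarith) x1 z hx1 hz
  have hc1 : 1 ≤ c0 := by
    have := hgt z0 hz0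
    have := (hN.bd z0).1
    linarith
  have hiff : ∀ x, min (ω0 x) c0 < c0 → min (ω0 x) c0 = ω0 x := by
    intro x hx
    apply min_eq_left
    by_contra h
    rw [min_eq_right (not_le.mp h).le] at hx
    exact lt_irrefl _ hx
  refine ⟨fun x => min (ω0 x) c0, W, c0, by linarith, hN.cont.min continuous_const, ?_, ?_, ?_,
    ?_, ?_, ?_, ?_, ?_, ?_⟩
  · intro x
    exact ⟨le_min (hN.bd x).1 (by linarith), min_le_right _ _⟩
  · intro x hx
    show min (ω0 x) c0 = 0
    rw [hN.out x hx]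
    exact min_eq_left (by linarith)
  · intro x hx
    exact min_eq_right (hmin' x hx)
  · intro x hx
    show min (ω0 x) c0 < c0
    have h1 := hgt x (by nlinarith)
    exact lt_of_le_of_lt (min_le_left _ _) (by linarith)
  · have h1 : LH (n : ℝ) volume (Metric.ball y0 s ∩ {x | min (ω0 x) c0 < c0}) ω0 W :=
      hN.h0.toLH hp
    apply h1.congr
    · apply Eventually.of_forall
      intro x hx
      exact (hiff x hx.2).symm
    · apply Eventually.of_forall
      intro x _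
      rfl
  · intro φ hφ
    apply hN.flux_eq φ (gradient φ) 0
    · exact H0.of_Cc (hφ.mono inter_subset_left)
    · apply Eventually.of_forall
      intro x hx
      apply zero_of_notMem
      intro hx2
      have h1 : min (ω0 x) c0 < c0 := (hφ.supp hx2).2
      rw [Metric.mem_ball] at hx
      have h2 := hmin' x (by linarith)
      rw [min_eq_right h2] at h1
      exact lt_irrefl _ h1
  · intro x hx
    exact (min_le_left _ _).trans ((hfar x hx).trans (le_max_left _ _))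
  · intro R hR hLR x z hx hz
    show min (ω0 z) c0 + 1 ≤ min (ω0 x) c0
    have hR0 : 0 < R := by linarith
    have hLR' : L' * R ≤ s / 16 := by linarith
    have hz' : L' * R ≤ dist z a := by nlinarith
    have h1 := hgrow R (by linarith) hLR' x z hx hz'
    have h2 := hgrow R (by linarith) hLR' x1 z (by linarith) hz'
    have h3 := min_le_left (ω0 z) c0
    apply le_min
    · linarith
    · linarith
  · intro R hR hRs x z hx hz
    show min (ω0 x) c0 ≤ min (ω0 z) c0 + max C1 C2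
    have h1 := hXb R (by linarith) hRs x z hx hz
    have h2 := min_le_left (ω0 x) c0
    have h3 := min_le_right (ω0 x) c0
    have h4 := le_max_right C1 C2
    rcases min_cases (ω0 z) c0 with ⟨h5, _⟩ | ⟨h5, _⟩
    · rw [h5]; linarith
    · rw [h5]; linarith

end P4


end

end Pool.Agent.Helper533.Polar
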