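import Pool.Agent.Helper80.NHM.Base
import Pool.Agent.Helper533.NHM.PotC
import Pool.Agent.Helper533.NHM.Paste
import Pool.Agent.Helper533.NHM.Conv
open MeasureTheory Filter Topology Set
open scoped ENNReal NNReal RealInnerProductSpace

namespace Pool.Agent.Helper533.NHM

open Pool.Agent.Helper533 Pool.Agent.Helper80.NHM

variable {n : ℕ}

/-- target potential with pole at `a`, inner radius `t`, in the ball `B(y₀,s)`, constants `L, C` -/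
structure TPot (A : Sp n → Sp n → Sp n) (y₀ : Sp n) (s : ℝ) (a : Sp n) (t L C : ℝ)
    (ω : Sp n → ℝ) (M : ℝ) : Prop where
  Mpos : 0 < M
  cont : Continuous ω
  nonneg : ∀ x, 0 ≤ ω x
  le : ∀ x, ω x ≤ M
  out : ∀ x, x ∉ Metric.ball y₀ s → ω x = 0
  inner : ∀ x, dist x a ≤ t → ω x = M
  outer : ∀ x, L * t ≤ dist x a → ω x < M
  harm : Harm A (Metric.ball y₀ s ∩ {x | ω x < M}) ω
  tp1 : ∀ x, s / 8 ≤ dist x a → ω x ≤ C
  tp2 : ∀ R : ℝ, t ≤ R → L * R ≤ s → ∀ x z : Sp n, dist x a ≤ R → L * R ≤ dist z a →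
    ω z + 1 ≤ ω x
  tp3 : ∀ R : ℝ, t ≤ R → R ≤ s / 8 → ∀ x z : Sp n, R ≤ dist x a → dist z a ≤ 2 * R →
    ω x ≤ ω z + C

/-- existence of target potentials -/
theorem exists_tpot (hn : 2 ≤ n) (α β : ℝ) (hα : 0 < α) (hβ : 0 < β) : ∃ L C : ℝ, 4 ≤ L ∧ 0 < C ∧
    ∀ A : Sp n → Sp n → Sp n, AOp n α β A → ∀ (y₀ a : Sp n) (s t : ℝ), 0 < t → dist a y₀ ≤ s / 4 →
      L * t ≤ s → ∃ (ω : Sp n → ℝ) (M : ℝ), TPot A y₀ s a t L C ω M := by
  obtain ⟨L, C, hL, hC, h⟩ := Polar.target_potential (n := n) hn hα hβ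
  refine ⟨L, C, hL, hC, fun A hA y₀ a s t ht hd hLt => ?_⟩
  obtain ⟨ω, W, M, h1, h2, h3, h4, h5, h6, h7, h8, h9, h10, h11⟩ :=
    h A hA.op hA.smono y₀ a s t ht hd hLt
  exact ⟨ω, M, h1, h2, fun x => (h3 x).1, fun x => (h3 x).2, h4, h5, h6,
    ⟨h2.continuousOn, W, h7, h8⟩, h9, h10, h11⟩

/-- pull back of a function which is harmonic below its maximum -/
theorem pull_sup (hn : 2 ≤ n) {α β : ℝ} {Astar A : Sp n → Sp n → Sp n} (hA : AOp n α β Astar)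
    {G : Set (Sp n)} {f : Sp n → Sp n} (hG : IsOpen G) (hf : Morph Astar A G f) {D : Set (Sp n)}
    (hD : IsOpen D) {u : Sp n → ℝ} {M : ℝ} (hu : ContinuousOn u D) (hM : ∀ x ∈ D, u x ≤ M)
    (hh : Harm A (D ∩ {x | u x < M}) u) :
    ∃ V : Sp n → Sp n, Polar.Sup Astar (n : ℝ) volume (G ∩ f ⁻¹' D) (u ∘ f) V ∧
      ∀ x, u (f x) = M → V x = 0 := by
  have hD' : IsOpen (D ∩ {x | u x < M}) := by
    have := hu.isOpen_inter_preimage hD (isOpen_Iio (a := M))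
    exact this
  obtain ⟨hc, V, hV, he⟩ := hf.pull _ hD' u hh
  have hset : G ∩ f ⁻¹' (D ∩ {x | u x < M}) = (G ∩ f ⁻¹' D) ∩ {x | (u ∘ f) x < M} := by
    ext x; simp [and_assoc]
  rw [hset] at hV he
  have hGD : IsOpen (G ∩ f ⁻¹' D) := hf.cont.isOpen_inter_preimage hG hD
  have hcomp : ContinuousOn (u ∘ f) (G ∩ f ⁻¹' D) :=
    hu.comp (hf.cont.mono inter_subset_left) fun x hx => hx.2
  refine ⟨_, Polar.paste_sup hn hA.pos (hA.pos.trans_le hA.le) hA.op hGD hcomp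
    (fun x hx => hM _ hx.2) hV he, fun x hx => ?_⟩
  show (if u (f x) < M then V x else 0) = 0
  rw [if_neg (by rw [hx]; exact lt_irrefl _)]

/-- pull back of a target potential -/
theorem TPot.pull (hn : 2 ≤ n) {α β : ℝ} {Astar A : Sp n → Sp n → Sp n} (hA : AOp n α β Astar)
    {G : Set (Sp n)} {f : Sp n → Sp n} (hG : IsOpen G) (hf : Morph Astar A G f) {y₀ a : Sp n}
    {s t L C M : ℝ} {ω : Sp n → ℝ} (h : TPot A y₀ s a t L C ω M) :
    ContinuousOn (ω ∘ f) G ∧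
    ∃ V : Sp n → Sp n, Polar.Sup Astar (n : ℝ) volume (G ∩ f ⁻¹' Metric.ball y₀ s) (ω ∘ f) V ∧
      ∀ x, ω (f x) = M → V x = 0 :=
  ⟨h.cont.comp_continuousOn hf.cont, pull_sup hn hA hG hf Metric.isOpen_ball h.cont.continuousOn
    (fun x _ => h.le x) h.harm⟩

end Pool.Agent.Helper533.NHM
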