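import Pool.Agent.Helper897.NHM.Stmts
import Pool.Agent.Helper533.NHM.Wrap
open MeasureTheory Filter Topology Set
open scoped ENNReal NNReal RealInnerProductSpace

/-!
The two inputs of part C (`PotExist`, `LHWeak` of helper897) from the target potentials.
-/

namespace Pool.Agent.Helper533.NHM

open Pool.Agent.Helper533 Pool.Agent.Helper80.NHM

variable {n : ℕ}

theorem lhWeak (hn : 2 ≤ n) : Pool.Agent.Helper897.NHM.LHWeak n :=
  fun _ _ _ hD h => (lh_iff hn hD).1 h

theorem pull_sup_harm (hn : 2 ≤ n) {α β : ℝ} {Astar A : Sp n → Sp n → Sp n} (hA : AOp n α β Astar)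
    {G : Set (Sp n)} {f : Sp n → Sp n} (hG : IsOpen G) (hf : Morph Astar A G f) {D : Set (Sp n)}
    (hD : IsOpen D) {u : Sp n → ℝ} {M : ℝ} (hu : ContinuousOn u D) (hM : ∀ x ∈ D, u x ≤ M)
    (hh : Harm A (D ∩ {x | u x < M}) u) :
    ∃ V : Sp n → Sp n, Polar.Sup Astar (n : ℝ) volume (G ∩ f ⁻¹' D) (u ∘ f) V ∧
      (∀ x, u (f x) = M → V x = 0) ∧
      ∀ φ, Polar.Cc (G ∩ f ⁻¹' D ∩ {x | u (f x) < M}) φ →
        ∫ x, ⟪Astar x (V x), gradient φ x⟫ = 0 := by
  have hD' : IsOpen (D ∩ {x | u x < M}) := by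
    have := hu.isOpen_inter_preimage hD (isOpen_Iio (a := M))
    exact this
  obtain ⟨hc, V, hV, he⟩ := hf.pull _ hD' u hh
  have hset : G ∩ f ⁻¹' (D ∩ {x | u x < M}) = (G ∩ f ⁻¹' D) ∩ {x | (u ∘ f) x < M} := by
    ext x; simp [and_assoc]
  rw [hset] at hV he
  have hGD : IsOpen (G ∩ f ⁻¹' D) := hf.cont.isOpen_inter_preimage hG hD
  have hcomp : ContinuousOn (u ∘ f) (G ∩ f ⁻¹' D) :=
    hu.comp (hf.cont.mono inter_subset_left) fun x hx => hx.2
  refine ⟨_, Polar.paste_sup hn hA.pos (hA.pos.trans_le hA.le) hA.op hGD hcomp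
    (fun x hx => hM _ hx.2) hV he, fun x hx => ?_, fun φ hφ => ?_⟩
  · show (if u (f x) < M then V x else 0) = 0
    rw [if_neg (by rw [hx]; exact lt_irrefl _)]
  · rw [← he φ hφ]
    refine integral_congr_ae (Eventually.of_forall fun x => ?_)
    by_cases hx : u (f x) < M
    · show ⟪Astar x (if u (f x) < M then V x else 0), gradient φ x⟫ = _
      rw [if_pos hx]
    · have h0 : gradient φ x = 0 := by
        have : x ∉ tsupport φ := fun h => hx (hφ.supp h).2
        have h1 : φ =ᶠ[𝓝 x] 0 := notMem_tsupport_iff_eventuallyEq.1 this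
        rw [gradient, h1.fderiv_eq]
        simp
      simp only [h0, inner_zero_right]

theorem potExist (hn : 2 ≤ n) : Pool.Agent.Helper897.NHM.PotExist n := by
  intro α β α' β' Astar A hAs hA G f hG hf
  obtain ⟨L, C, hL, hC, h⟩ := exists_tpot hn α' β' hA.pos (hA.pos.trans_le hA.le)
  refine ⟨C, L, hL, fun y0 s hs a ha t ht htL => ?_⟩
  have hL0 : 0 < L := by linarith
  have h8 : 8 * (L * t) ≤ s := by
    rw [le_div_iff₀ (by positivity)] at htL
    linarith
  have hLt : 0 < L * t := by positivity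
  obtain ⟨ω, M, hω⟩ := h A hA y0 a s t ht (by simpa using ha) (by linarith)
  obtain ⟨V, hV, hV0, hVh⟩ := pull_sup_harm hn hAs hG hf Metric.isOpen_ball (hω.cont.continuousOn)
    (fun x _ => hω.le x) hω.harm
  refine ⟨ω, M, V, hω.cont, hω.nonneg, hω.le, fun w hw => hω.inner w (by simpa using hw),
    fun R hR hLR w w' h1 h2 => hω.tp2 R hR (by linarith) w w' h1 h2, fun R hR w w' h1 h2 => ?_,
    hV.1, hVh⟩
  rcases le_or_gt R (s / 8) with h3 | h3
  · exact hω.tp3 R hR h3 w w' h1 h2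
  · have := hω.tp1 w (by linarith)
    have := hω.nonneg w'
    linarith

end Pool.Agent.Helper533.NHM
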